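import Pool.Agent.Lib.MP_ef3f0f_gt.U.S.Seq

/-!
# MP_ef3f0f_gt, Theorem U, the group `SL_n(ℝ)`, `n = 2 m + 1`: definitions

`P m = SL_{2m+1}(ℝ)`. Elements of `P m` are used as frames. `D f` (see `U/S/Seq.lean`) is the
determinant of the first `n` vectors of a sequence `f`, `cl k` is the sequence of the columns of `k`,
`app i f g` is the sequence: first `i` vectors of `f`, then `g`.
-/

set_option autoImplicit false

namespace Pool.Agent.MPEF.U.S

open Matrix

/-- `SL_{2m+1}(ℝ)`. -/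
abbrev P (m : ℕ) : Type := Matrix.SpecialLinearGroup (Fin (2 * m + 1)) ℝ

/-- The sequence of the columns (zero from `n` on). -/
def cl {n : ℕ} (k : Matrix (Fin n) (Fin n) ℝ) : Sq n := fun s r =>
  if h : s < n then k r ⟨s, h⟩ else 0

theorem cl_lt {n : ℕ} (k : Matrix (Fin n) (Fin n) ℝ) {s : ℕ} (h : s < n) (r : Fin n) :
    cl k s r = k r ⟨s, h⟩ := dif_pos h

theorem D_cl {n : ℕ} (k : Matrix (Fin n) (Fin n) ℝ) : D (cl k) = k.det := by
  rw [← Matrix.det_transpose k]
  unfold D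
  congr 1
  ext s r
  exact cl_lt k s.2 r

variable {m : ℕ}

/-- Positively transverse frames. -/
def Pos (k k' : P m) : Prop := ∀ i, i ≤ 2 * m + 1 → 0 < D (app i (cl k.1) (cl k'.1))

/-- Positive triples of frames. -/
def Tri (k k' k'' : P m) : Prop :=
  ∀ i j, i + j ≤ 2 * m + 1 → 0 < D (app i (cl k.1) (app j (cl k'.1) (cl k''.1)))

/-! ### Triangular matrices -/

/-- The positive diagonal matrices. -/
def A (m : ℕ) : Subgroup (P m) where
  carrier := {g | (∀ i j, i ≠ j → g.1 i j = 0) ∧ ∀ i, 0 < g.1 i i}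
  one_mem' := ⟨fun i j h => by simp [h], fun i => by simp⟩
  mul_mem' {g h} hg hh := by
    have key : ∀ i j, (g * h).1 i j = g.1 i i * h.1 i j := by
      intro i j
      rw [Matrix.SpecialLinearGroup.coe_mul, Matrix.mul_apply]
      refine Finset.sum_eq_single i (fun k _ hk => ?_) (fun hi => absurd (Finset.mem_univ i) hi)
      rw [hg.1 i k (Ne.symm hk), zero_mul]
    refine ⟨fun i j hij => ?_, fun i => ?_⟩
    · rw [key, hh.1 i j hij, mul_zero]
    · rw [key]
      exact mul_pos (hg.2 i) (hh.2 i)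
  inv_mem' {g} hg := by
    have key : ∀ i j, g.1 i i * (g⁻¹).1 i j = (1 : Matrix (Fin (2 * m + 1)) (Fin (2 * m + 1)) ℝ)
        i j := by
      intro i j
      have h1 : (g * g⁻¹).1 i j = g.1 i i * (g⁻¹).1 i j := by
        rw [Matrix.SpecialLinearGroup.coe_mul, Matrix.mul_apply]
        refine Finset.sum_eq_single i (fun k _ hk => ?_) (fun hi => absurd (Finset.mem_univ i) hi)
        rw [hg.1 i k (Ne.symm hk), zero_mul]
      rw [← h1, mul_inv_cancel]
      rfl
    refine ⟨fun i j hij => ?_, fun i => ?_⟩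
    · have h2 := key i j
      rw [Matrix.one_apply_ne hij] at h2
      exact (mul_eq_zero.1 h2).resolve_left (hg.2 i).ne'
    · have h2 := key i i
      rw [Matrix.one_apply_eq] at h2
      by_contra hc
      have := mul_nonpos_of_nonneg_of_nonpos (hg.2 i).le (not_lt.1 hc)
      linarith

theorem tri_mul {n : ℕ} {g h : Matrix (Fin n) (Fin n) ℝ} (hg : ∀ i j, j < i → g i j = 0)
    (hh : ∀ i j, j < i → h i j = 0) :
    (∀ i j, j < i → (g * h) i j = 0) ∧ ∀ i, (g * h) i i = g i i * h i i := by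
  refine ⟨fun i j hij => ?_, fun i => ?_⟩
  · rw [Matrix.mul_apply]
    refine Finset.sum_eq_zero fun k _ => ?_
    rcases lt_or_ge k i with hk | hk
    · rw [hg i k hk, zero_mul]
    · rw [hh k j (lt_of_lt_of_le hij hk), mul_zero]
  · rw [Matrix.mul_apply]
    refine Finset.sum_eq_single i (fun k _ hk => ?_) (fun hi => absurd (Finset.mem_univ i) hi)
    rcases lt_or_gt_of_ne hk with hk | hk
    · rw [hg i k hk, zero_mul]
    · rw [hh k i hk, mul_zero]

theorem tri_inv (g : P m) (hg : ∀ i j, j < i → g.1 i j = 0) :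
    (∀ i j, j < i → (g⁻¹).1 i j = 0) ∧ ∀ i, g.1 i i * (g⁻¹).1 i i = 1 := by
  have h0 : Matrix.BlockTriangular g.1 id := fun i j hij => hg i j hij
  letI : Invertible g.1 := Matrix.invertibleOfIsUnitDet _ (by rw [g.2]; exact isUnit_one)
  have h1 := Matrix.blockTriangular_inv_of_blockTriangular h0
  have h2 : (g⁻¹).1 = (g.1)⁻¹ := by
    rw [Matrix.inv_def, g.2]
    simp
  have h3 : ∀ i j, j < i → (g⁻¹).1 i j = 0 := by
    intro i j hij
    rw [h2]
    exact h1 hij
  refine ⟨h3, fun i => ?_⟩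
  rw [← (tri_mul hg h3).2 i]
  have h4 : g.1 * (g⁻¹).1 = (g * g⁻¹).1 := rfl
  rw [h4, mul_inv_cancel]
  exact Matrix.one_apply_eq i

/-- The upper triangular matrices with positive diagonal. -/
def Bor (m : ℕ) : Subgroup (P m) where
  carrier := {g | (∀ i j, j < i → g.1 i j = 0) ∧ ∀ i, 0 < g.1 i i}
  one_mem' := ⟨fun i j h => by simp [h.ne'], fun i => by simp⟩
  mul_mem' {g h} hg hh := by
    have h1 := tri_mul hg.1 hh.1
    refine ⟨h1.1, fun i => ?_⟩
    have h2 : (g * h).1 i i = g.1 i i * h.1 i i := h1.2 i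
    rw [h2]
    exact mul_pos (hg.2 i) (hh.2 i)
  inv_mem' {g} hg := by
    have h1 := tri_inv g hg.1
    refine ⟨h1.1, fun i => ?_⟩
    have h2 := h1.2 i
    by_contra hc
    have := mul_nonpos_of_nonneg_of_nonpos (hg.2 i).le (not_lt.1 hc)
    linarith

/-- The upper triangular unipotent matrices. -/
def Np (m : ℕ) : Subgroup (P m) where
  carrier := {g | (∀ i j, j < i → g.1 i j = 0) ∧ ∀ i, g.1 i i = 1}
  one_mem' := ⟨fun i j h => by simp [h.ne'], fun i => by simp⟩
  mul_mem' {g h} hg hh := by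
    have h1 := tri_mul hg.1 hh.1
    refine ⟨h1.1, fun i => ?_⟩
    have h2 := h1.2 i
    rw [hg.2 i, hh.2 i, one_mul] at h2
    exact h2
  inv_mem' {g} hg := by
    have h1 := tri_inv g hg.1
    refine ⟨h1.1, fun i => ?_⟩
    have h2 := h1.2 i
    rwa [hg.2 i, one_mul] at h2

theorem transpose_inv (g : P m) : (g⁻¹).transpose = (g.transpose)⁻¹ := by
  apply eq_inv_of_mul_eq_one_left
  apply Subtype.ext
  show (g⁻¹).1.transpose * g.1.transpose = 1
  rw [← Matrix.transpose_mul]
  have : g.1 * (g⁻¹).1 = (g * g⁻¹).1 := rfl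
  rw [this, mul_inv_cancel]
  exact Matrix.transpose_one

/-- The lower triangular unipotent matrices. -/
def Nm (m : ℕ) : Subgroup (P m) where
  carrier := {g | (∀ i j, i < j → g.1 i j = 0) ∧ ∀ i, g.1 i i = 1}
  one_mem' := ⟨fun i j h => by simp [h.ne], fun i => by simp⟩
  mul_mem' {g h} hg hh := by
    have h1 := tri_mul (g := h.1.transpose) (h := g.1.transpose) (fun i j hij => hh.1 j i hij)
      (fun i j hij => hg.1 j i hij)
    rw [← Matrix.transpose_mul] at h1
    refine ⟨fun i j hij => h1.1 j i hij, fun i => ?_⟩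
    have h2 := h1.2 i
    simp only [Matrix.transpose_apply] at h2
    rw [hg.2 i, hh.2 i, one_mul] at h2
    exact h2
  inv_mem' {g} hg := by
    have h1 := tri_inv g.transpose (fun i j hij => hg.1 j i hij)
    rw [← transpose_inv] at h1
    refine ⟨fun i j hij => h1.1 j i hij, fun i => ?_⟩
    have h2 := h1.2 i
    have h3 : g.transpose.1 i i = g.1 i i := rfl
    rw [h3, hg.2 i, one_mul] at h2
    exact h2

/-! ### Elements and sets -/

/-- `w e_s = (-1)^s e_{2m-s}` -/
def wM (m : ℕ) : Matrix (Fin (2 * m + 1)) (Fin (2 * m + 1)) ℝ :=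
  Matrix.of fun r s => if (r : ℕ) + s = 2 * m then (-1) ^ (s : ℕ) else 0

/-- First `i` columns of `w`, then the unit vectors: determinant `1`. -/
theorem D_w_one (m i : ℕ) (hi : i ≤ 2 * m + 1) :
    D (app i (cl (wM m)) (cl (1 : Matrix (Fin (2 * m + 1)) (Fin (2 * m + 1)) ℝ))) = 1 := by
  induction i with
  | zero =>
    rw [app_zero, D_cl, Matrix.det_one]
  | succ i ih =>
    rw [← ih (by omega), app_succ, D_ins i (by omega)]
    obtain ⟨G, hG⟩ : ∃ G : Sq (2 * m + 1), G = app i (cl (wM m)) (cl 1) := ⟨_, rfl⟩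
    rw [← hG]
    have h1 : D G = D (ins (2 * m) (G (2 * m)) G) := by
      refine D_congr fun s hs => ?_
      rcases lt_or_eq_of_le (show s ≤ 2 * m by omega) with h | h
      · rw [ins_lt _ _ h]
      · rw [h, ins_eq]
    rw [h1, D_ins (2 * m) (by omega)]
    have h2 : G (2 * m) = (-1 : ℝ) ^ i • cl (wM m) i := by
      rw [hG, app_ge _ _ (by omega)]
      funext r
      rw [cl_lt _ (show 2 * m - i < 2 * m + 1 by omega), Pi.smul_apply,
        cl_lt _ (show i < 2 * m + 1 by omega), smul_eq_mul, wM, Matrix.of_apply, Matrix.one_apply]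
      by_cases hr : (r : ℕ) + i = 2 * m
      · have h3 : r = ⟨2 * m - i, by omega⟩ := Fin.ext (by simp only; omega)
        rw [if_pos h3, if_pos (by simpa using hr), ← mul_pow]
        simp
      · have h3 : r ≠ ⟨2 * m - i, by omega⟩ := by
          intro h4
          have := congrArg Fin.val h4
          simp only at this
          omega
        rw [if_neg h3, if_neg (by simpa using hr), mul_zero]
    have h3 : D (ins 0 ((-1 : ℝ) ^ i • cl (wM m) i) G) = (-1) ^ i * D (ins 0 (cl (wM m) i) G) := by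
      have := D_ins_sum {0} (fun _ : ℕ => (-1 : ℝ) ^ i) (fun _ => cl (wM m) i) 0 (by omega) G
      rwa [Finset.sum_singleton, Finset.sum_singleton] at this
    rw [h2, h3]
    simp [pow_mul]

theorem det_wM (m : ℕ) : (wM m).det = 1 := by
  rw [← D_cl, ← D_w_one m (2 * m + 1) le_rfl]
  refine D_congr fun s hs => ?_
  rw [app_lt _ _ hs]

/-- The longest element. -/
def w (m : ℕ) : P m := ⟨wM m, det_wM m⟩

/-- A diagonal matrix with determinant `1`. -/
def dg (m : ℕ) (d : Fin (2 * m + 1) → ℝ) (h : ∏ i, d i = 1) : P m :=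
  ⟨Matrix.diagonal d, by rw [Matrix.det_diagonal, h]⟩

theorem prod_J (m : ℕ) : ∏ i : Fin (2 * m + 1), (-1 : ℝ) ^ ((i : ℕ) + m) = 1 := by
  rw [Fin.prod_univ_eq_prod_range (fun i => (-1 : ℝ) ^ (i + m)) (2 * m + 1), Finset.prod_pow_eq_pow_sum,
    Finset.sum_add_distrib, Finset.sum_const, Finset.card_range, smul_eq_mul]
  have h1 : ∑ i ∈ Finset.range (2 * m + 1), i = (2 * m + 1) * m := by
    have h2 := Finset.sum_range_id_mul_two (2 * m + 1)
    rw [Nat.add_sub_cancel] at h2
    nlinarith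
  rw [h1]
  exact Even.neg_one_pow ⟨(2 * m + 1) * m, by ring⟩

/-- `J = diag (±1, ∓1, ..., ±1)`, `+1` in the middle. -/
def J (m : ℕ) : P m := dg m (fun i => (-1) ^ ((i : ℕ) + m)) (prod_J m)

theorem prod_a (m : ℕ) : ∏ i : Fin (2 * m + 1), (2 : ℝ) ^ ((m : ℤ) - (i : ℕ)) = 1 := by
  rw [Fin.prod_univ_eq_prod_range (fun i => (2 : ℝ) ^ ((m : ℤ) - (i : ℕ))) (2 * m + 1)]
  have h1 : ∀ k : ℕ, ∏ i ∈ Finset.range k, (2 : ℝ) ^ ((m : ℤ) - (i : ℕ)) =
      (2 : ℝ) ^ (∑ i ∈ Finset.range k, ((m : ℤ) - (i : ℕ))) := by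
    intro k
    induction k with
    | zero => simp
    | succ k ih => rw [Finset.prod_range_succ, Finset.sum_range_succ, ih, zpow_add₀ (by norm_num)]
  rw [h1, Finset.sum_sub_distrib, Finset.sum_const, Finset.card_range]
  have h2 : ∑ i ∈ Finset.range (2 * m + 1), ((i : ℕ) : ℤ) = (2 * m + 1) * m := by
    have h3 := Finset.sum_range_id_mul_two (2 * m + 1)
    rw [Nat.add_sub_cancel] at h3
    have h4 : ((∑ i ∈ Finset.range (2 * m + 1), i : ℕ) : ℤ) * 2 = ((2 * m + 1) * (2 * m) : ℕ) := by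
      exact_mod_cast h3
    push_cast at h4
    linarith
  rw [h2]
  simp

/-- `a = diag (2^m, ..., 2, 1, 1/2, ..., 2^(-m))`. -/
noncomputable def a (m : ℕ) : P m := dg m (fun i => (2 : ℝ) ^ ((m : ℤ) - (i : ℕ))) (prod_a m)

/-- The diagonal matrices with strictly decreasing positive entries. -/
def App (m : ℕ) : Set (P m) := {g | g ∈ A m ∧ ∀ i j, i < j → g.1 j j < g.1 i i}

/-- Deep elements: positive diagonal matrices with `d_i ≥ 2^k d_j` for `i < j`. -/
def Dp (m k : ℕ) : Set (P m) := {g | g ∈ A m ∧ ∀ i j, i < j → 2 ^ k * g.1 j j ≤ g.1 i i}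

/-- A compact neighbourhood of `1` in `A`. -/
def D1 (m : ℕ) : Set (P m) := {g | g ∈ A m ∧ ∀ i, |Real.log (g.1 i i)| ≤ 1}

/-- The rotation by `θ` in the planes of the basis vectors `r`, `2m-r` with `J_r = -1`. -/
noncomputable def rot (m : ℕ) (θ : ℝ) : Matrix (Fin (2 * m + 1)) (Fin (2 * m + 1)) ℝ :=
  Matrix.of fun r s => if r = s then (if Even ((r : ℕ) + m) then 1 else Real.cos θ)
    else if (r : ℕ) + s = 2 * m ∧ ¬ Even ((r : ℕ) + m) then
      (if r < s then Real.sin θ else - Real.sin θ) else 0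

/-- A connected set of orthogonal matrices which contains `1` and `J`. -/
def K0 (m : ℕ) : Set (P m) := {k | ∃ θ : ℝ, k.1 = rot m θ}

end Pool.Agent.MPEF.U.S
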