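import Pool.Agent.Lib.MP_ef3f0f_gt.U.Defs
import Pool.Agent.Lib.MP_ef3f0f_gt.U.S.Defs

/-!
# MP_ef3f0f_gt, Theorem U: `SL_n(ℝ)`, `n = 2 m + 1`, is a positive structure (author helper70)

Every statement is a `def S_X : Prop` with its proof in the docstring. A module `U/S/X.lean` proves
`theorem tX : S_Y → ... → S_X` (the hypotheses are the statements it uses, in the order of the docstring), in the
namespace `Pool.Agent.MPEF.U.S`. Read `U/S/Seq.lean` (all lemmas on `D`, `app`, `ins` are proved there: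
`D_congr`, `app_zero`, `app_lt`, `app_ge`, `ins_*`, `app_succ`, `app_ins`, `app_app`, `D_eq_zero`, `D_swap`, `D_ins`,
`D_ins_ins`, `cramer`, `D_ins_sum`, `pluecker`) and `U/S/Defs.lean` (`cl_lt`, `D_cl`, `D_w_one`, `tri_mul`, `tri_inv`,
`transpose_inv`, the subgroups `A`, `Bor`, `Np`, `Nm`, the elements `w`, `J`, `a`). Notation: `n = 2 m + 1`, `e_s` = unit
vectors = `cl 1 s`, `k_s = cl k s` = columns of `k`; entries of `g : P m` are `g.1 i j`. To prove an equation in `P m` use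
`Subtype.ext` and matrices. `Pos w q` means that all leading principal minors of `q` are positive
(`S_Min`), equivalently `q ∈ Nm * Bor` (`S_LU`).
-/

set_option autoImplicit false

namespace Pool.Agent.MPEF.U.S

open Matrix Topology
open scoped Pointwise

/-- `SL_n(ℝ)` as a positive structure. -/
noncomputable def gS (m : ℕ) : PG (P m) where
  a := a m
  w := w m
  J := J m
  A := A m
  Bor := Bor m
  App := App m
  D1 := D1 m
  Dp := Dp m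
  K0 := K0 m
  Pos := Pos
  Tri := Tri

/-- Entries with indices in `ℕ` (zero outside). -/
def ent {n : ℕ} (k : Matrix (Fin n) (Fin n) ℝ) (r s : ℕ) : ℝ :=
  if h : r < n ∧ s < n then k ⟨r, h.1⟩ ⟨s, h.2⟩ else 0

/-- Leading principal submatrix of size `j`. -/
def lead {n : ℕ} (k : Matrix (Fin n) (Fin n) ℝ) (j : ℕ) : Matrix (Fin j) (Fin j) ℝ :=
  Matrix.of fun r s => ent k r s

/-! ## A. Determinants of blocks, the order -/

/-- (90 lines) **Octahedron recurrence.** Uses nothing. PROOF. Strong induction on `j + l`. `j = 0`: second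
hypothesis (`app_zero`). `l = 0`: first hypothesis (`D_congr`: the first `n = i + j + k` vectors are the same). Let
`j = j' + 1`, `l = l' + 1`, `F = app i a (app j' b (app k c d))`, with the positions `pa = i`, `pb = i + j'`,
`pc = i + j' + k`, `pd = n - 2` of the next vectors `xa = a i`, `xb = b j'`, `xc = c k`, `xd = d l'` (`= F (n-2)`). For
`X` before `Y` let `⟨XY⟩ = D (ins pX xX (ins pY xY F))`. By `D_ins` and `D_ins_ins` (`pY + 1 < n`)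
`⟨XY⟩ = (-1)^pX (-1)^pY D (ins 0 xX (ins 0 xY F))`, so `pluecker` gives
`⟨ac⟩⟨bd⟩ = ⟨ab⟩⟨cd⟩ + ⟨ad⟩⟨bc⟩`. By `app_succ` and `app_ins`: `⟨ab⟩ = D (app (i+1) a (app (j'+1) b (app k c d)))`,
`⟨ac⟩ = D (app (i+1) a (app j' b (app (k+1) c d)))`, `⟨bc⟩ = D (app i a (app (j'+1) b (app (k+1) c d)))`; and because
`ins p x G` at positions `< n` uses only `G` at positions `< n - 1` (`D_congr`): `⟨ad⟩ = D (ins i xa F) =
D (app (i+1) a (app j' b (app k c d)))`, `⟨bd⟩ = D (app i a (app (j'+1) b (app k c d)))` (the claim), `⟨cd⟩ = D (app i a (app j' b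
(app (k+1) c d)))`. All five others are positive by the induction hypothesis (`j + l` smaller), so `⟨bd⟩ > 0`. -/
def S_Quad : Prop := ∀ (n : ℕ) (a b c d : Sq n),
  (∀ i j k, i + j + k = n → 0 < D (app i a (app j b c))) →
  (∀ i k l, i + k + l = n → 0 < D (app i a (app k c d))) →
  ∀ i j k l, i + j + k + l = n → 0 < D (app i a (app j b (app k c d)))

/-- (80 lines) **Exchange of two blocks.** Uses nothing. PROOF. Induction on `j` (for all `f`, `i`, `l`). `j = 0`: both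
sides are `D` of (`i` vectors of `f`, `l` vectors of `h`) (`D_congr`). `j + 1`, `n = i + (j+1) + l`: by `app_succ`, `app_ins`
`D (app i f (app (j+1) g h)) = D (ins (i+j) (g j) (app i f (app j g h))) = (-1)^(i+j) D (ins 0 (g j) (app i f (app j g h)))`, and
`ins 0 (g j) (app i f G) = app (i+1) (ins 0 (g j) f) G`; the induction hypothesis for `i + 1`, `j`, `l` gives
`(-1)^(i+j) (-1)^(j l) D (ins 0 (g j) (app i f (app l h g)))`. On the other side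
`D (app i f (app l h g)) = D (ins (n-1) (g j) (app i f (app l h g)))` (position `n - 1` is `g j`)
`= (-1)^(n-1) D (ins 0 (g j) (app i f (app l h g)))`. The signs: `(i+j) + (n-1) ≡ l`. -/
def S_Swap : Prop := ∀ (n : ℕ) (i j l : ℕ) (f g h : Sq n), i + j + l = n →
  D (app i f (app j g h)) = (-1) ^ (j * l) * D (app i f (app l h g))

/-- (60 lines) **Multiplication from the left.** Uses nothing. PROOF. (1) The matrix of `f` is the one of `g` times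
`Cᵀ`. (2) definition of `cl`. (3) from (1), (2). -/
def S_Lmul : Prop := ∀ n : ℕ,
  (∀ (C : Matrix (Fin n) (Fin n) ℝ) (f g : Sq n), (∀ s < n, f s = C.mulVec (g s)) →
    D f = C.det * D g) ∧
  (∀ (C k : Matrix (Fin n) (Fin n) ℝ) (s : ℕ), cl (C * k) s = C.mulVec (cl k s)) ∧
  ∀ (C k k' k'' : Matrix (Fin n) (Fin n) ℝ) (i j : ℕ),
    D (app i (cl (C * k)) (app j (cl (C * k')) (cl (C * k'')))) =
      C.det * D (app i (cl k) (app j (cl k') (cl k'')))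

/-- (80 lines) **Multiplication of a block from the right by an upper triangular matrix.** Uses nothing. PROOF. The
matrix (rows = the first `n` vectors) of the left sequence is `U` times the one of the right sequence, where
`U s t = b (t-i) (s-i)` for `i ≤ s < i + j`, `i ≤ t < i + j`, and `U s t = 1` if `s = t`, `0` otherwise, in the other cases.
`U` is lower triangular (`Matrix.det_of_lowerTriangular`), `det U = ∏ (s < j) b s s`: column `s < j` of `k * b` is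
`∑ t, b t s • k_t`, and only `t ≤ s < j` occur. -/
def S_Rmul : Prop := ∀ (n i j : ℕ) (f G : Sq n) (k b : Matrix (Fin n) (Fin n) ℝ), i + j ≤ n →
  (∀ r s, s < r → b r s = 0) →
  D (app i f (app j (cl (k * b)) G)) =
    (∏ s : Fin n, if (s : ℕ) < j then b s s else 1) * D (app i f (app j (cl k) G))

/-- (70 lines) **Block determinants.** Uses nothing. PROOF. The matrix with the rows `e_0 .. e_{i-1}, f_0 .. f_{j-1},
e_{i+j} .. e_{n-1}`; `Matrix.twoBlockTriangular_det` for its transpose (or itself) and the set of the indices in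
`[i, i+j)`: outside of this set it is the identity matrix; then reindex by `Fin j` (`Matrix.det_submatrix_equiv_self`). -/
def S_Blk : Prop := ∀ (n i j : ℕ) (f : Sq n), i + j ≤ n →
  D (app i (cl (1 : Matrix (Fin n) (Fin n) ℝ))
    (app j f fun s => cl (1 : Matrix (Fin n) (Fin n) ℝ) (s + i + j))) =
    Matrix.det (Matrix.of fun r s : Fin j => if h : i + r < n then f s ⟨i + r, h⟩ else 0)

/-- (100 lines) **Invariance of `Pos`.** Uses `S_Lmul`, `S_Rmul`, `S_Swap`. PROOF. `app i x y = app i x (app (n-i) y y)` on the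
first `n` positions. (1) `S_Lmul` (3) (`det g = 1`; take `j = 0`). (2) `S_Rmul` with `i = 0` and `j = i`; the product is
positive. (3) `S_Swap` with `i = 0`: `i (n - i)` is even as `n` is odd. (4) `D_w_one` and (3). (5) `J` is diagonal, so upper
triangular: `S_Rmul` for both blocks; the signs are `∏ (s<i) (-1)^(s+m) ∏ (s<n-i) (-1)^(s+m)`
`= (-1)^(i(i-1)/2 + im + (n-i)(n-i-1)/2 + (n-i)m) = 1` (the exponent is `m n + n(n-1)/2 - i(n-i) = 2mn - i(n-i)`).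
(6) from (2), (3). -/
def S_InvP : Prop := ∀ m : ℕ, (∀ g k k' : P m, Pos (g * k) (g * k') ↔ Pos k k') ∧
  (∀ k k' : P m, ∀ b ∈ Bor m, Pos (k * b) k' ↔ Pos k k') ∧
  (∀ k k' : P m, Pos k k' ↔ Pos k' k) ∧ Pos 1 (w m) ∧
  (∀ k k' : P m, Pos (k * J m) (k' * J m) ↔ Pos k k') ∧
  ∀ k k' : P m, ∀ b ∈ Bor m, Pos k (k' * b) ↔ Pos k k'

/-- (120 lines) **Invariance of `Tri`.** Uses `S_Lmul`, `S_Rmul`, `S_Swap`. PROOF. (1), (2) as for `Pos`. (3) `i + j + l = n`: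
`app i x (app j y z)` is by `app_app` and `S_Swap` (first block empty, blocks `i` and `j + l = n - i`, sign
`(-1)^(i(n-i)) = 1`) `app (n-i) (app j y z) x = app j y (app l z x)` (up to positions `≥ n`). (4) `i = j = 1`, `l = n - 2` (this
needs `m ≥ 1`): `S_Swap` gives `D (app 1 x (app 1 y z)) = - D (app 1 x (app (n-2) z y))`. (5) `j = n - i`. (6) by `S_Rmul` the
sign of `D (app i (x J) (app l (z J) (y J)))` is `σ_i σ_l σ_j` times the one of `D (app i x (app l z y)) =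
(-1)^(j l) D (app i x (app j y z))`, where `σ_i = (-1)^(i(i-1)/2 + i m)`; and
`σ_i σ_j σ_l = (-1)^(n(n-1)/2 + n m - (ij + jl + li)) = (-1)^(ij+jl+li) = (-1)^(jl)` (`i (j + l)` is even because
`i + j + l` is odd). [`Nat.choose i 2` or an induction lemma for `σ`.] -/
def S_InvT : Prop := ∀ m : ℕ, 1 ≤ m →
  (∀ g x y z : P m, Tri (g * x) (g * y) (g * z) ↔ Tri x y z) ∧
  (∀ x y z : P m, ∀ b ∈ Bor m, Tri (x * b) y z ↔ Tri x y z) ∧
  (∀ x y z : P m, Tri x y z → Tri y z x) ∧ (∀ x y z : P m, Tri x y z → ¬ Tri x z y) ∧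
  (∀ x y z : P m, Tri x y z → Pos x y) ∧
  ∀ x y z : P m, Tri x y z → Tri (x * J m) (z * J m) (y * J m)

/-- (50 lines) **Transitivity.** Uses `S_Quad`. PROOF. `S_Quad` for `(x, y, z, t)`: the hypotheses are `Tri x y z`,
`Tri x z t`. `Tri x y t`: `k = 0`; `Tri y z t`: `i = 0` (`app_zero`). -/
def S_Tt : Prop := ∀ (m : ℕ) (x y z t : P m), Tri x y z → Tri x z t → Tri x y t ∧ Tri y z t

/-- (60 lines) **`Pos`, `Tri` are open.** Uses nothing. PROOF. Finite intersections (`i, j ≤ n`) of preimages of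
`(0, ∞)` under continuous functions (`Continuous.matrix_det`, entries of `q.1` are continuous). -/
def S_Op : Prop := ∀ m : ℕ, IsOpen {q : P m × P m | Pos q.1 q.2} ∧
  IsOpen {q : P m × P m × P m | Tri q.1 q.2.1 q.2.2}

/-! ## B. Elements -/

/-- (120 lines) **Algebra of `w`, `J`, `A`.** Uses nothing. PROOF. Everything from the formula
`(w x w) i j = (-1)^(i+j) x (2m-i) (2m-j)` (`Fin.rev`; `w_{r,s} ≠ 0` iff `r + s = 2 m`) and from the fact that the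
product of diagonal matrices is diagonal; `(d⁻¹) i i = (d i i)⁻¹`. -/
def S_El : Prop := ∀ m : ℕ, w m * w m = 1 ∧
  (∀ x : P m, ∀ i j, (w m * x * w m).1 i j = (-1) ^ ((i : ℕ) + j) * x.1 i.rev j.rev) ∧
  w m * a m * w m = (a m)⁻¹ ∧ (∀ d ∈ A m, w m * d * w m ∈ A m) ∧ J m * J m = 1 ∧
  J m * w m = w m * J m ∧ (∀ d ∈ A m, J m * d = d * J m) ∧ a m ∈ A m ∧
  (∀ d ∈ A m, ∀ d' ∈ A m, d * d' = d' * d) ∧ A m ≤ Bor m ∧ Np m ≤ Bor m ∧
  (∀ d ∈ App m, w m * d⁻¹ * w m ∈ App m) ∧ (∀ x ∈ Nm m, w m * x * w m ∈ Np m) ∧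
  (∀ x ∈ Np m, w m * x * w m ∈ Nm m) ∧ (∀ d ∈ A m, ∀ i, (d⁻¹).1 i i = (d.1 i i)⁻¹) ∧
  (∀ d ∈ A m, ∀ x : P m, ∀ i j, (d * x * d⁻¹).1 i j = d.1 i i * x.1 i j * (d.1 j j)⁻¹) ∧
  (∀ x ∈ Nm m, x ∈ Bor m → x = 1) ∧
  ∀ b ∈ Bor m, ∃ d ∈ A m, ∃ u ∈ Np m, b = d * u ∧ ∀ i, d.1 i i = b.1 i i

/-- (60 lines) **Neighbourhoods of `1`.** Uses nothing. PROOF. The topology of `P m` is induced from the matrices
(`Matrix.SpecialLinearGroup`: `Topology.IsInducing.subtypeVal`), which have the product topology. -/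
def S_Nb : Prop := ∀ m : ℕ,
  (∀ U ∈ 𝓝 (1 : P m), ∃ ε : ℝ, 0 < ε ∧ ∀ g : P m, (∀ i j, |g.1 i j - (1 : P m).1 i j| < ε) → g ∈ U) ∧
  (∀ ε : ℝ, 0 < ε → {g : P m | ∀ i j, |g.1 i j - (1 : P m).1 i j| < ε} ∈ 𝓝 (1 : P m)) ∧
  ∀ K : Set (P m), IsCompact K → ∃ C : ℝ, 0 < C ∧ ∀ g ∈ K, ∀ i j, |g.1 i j| ≤ C

/-- (120 lines) **The set `D1`.** Uses `S_El`. PROOF. Compact: it is the image of the compact set
`{x : Fin n → ℝ | (∀ i, |x i| ≤ 1) ∧ ∑ x i = 0}` under the continuous map `x ↦ diag (exp (x i))` (into matrices, then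
`P m`; or: closed and bounded in the matrices). `∀ d ∈ A, ∃ R, d ∈ D1 ^ R`: let `R ≥ 1`, `|log d_i| ≤ R` for all `i`,
`d' = diag (exp (log d_i / R)) ∈ D1`, `d = d' ^ R` (`Set.pow_mem_pow`). The neighbourhood: entries within
`1/4` of those of `1` (`|log t| ≤ 1` for `|t - 1| < 1/4`). -/
def S_D1 : Prop := ∀ m : ℕ, D1 m ⊆ A m ∧ IsCompact (D1 m) ∧ (1 : P m) ∈ D1 m ∧
  (∀ d ∈ D1 m, d⁻¹ ∈ D1 m) ∧ (∀ d ∈ D1 m, w m * d * w m ∈ D1 m) ∧
  (∀ d ∈ A m, ∃ R : ℕ, d ∈ D1 m ^ R) ∧ ∃ V ∈ 𝓝 (1 : P m), V ∩ A m ⊆ D1 m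

/-- (100 lines) **The sets `Dp k`.** Uses `S_El`, `S_D1`. PROOF. Entries. `Dpd`: `d ∈ D1 ^ R` has entries in
`[exp (-R), exp R]` (induction on `R`), `c = 3 R` (`exp (2 R) ≤ 8 ^ R`). `a ^ n` has the entries `2 ^ (n (m - i))`. -/
def S_Dp : Prop := ∀ m : ℕ, (∀ k, Dp m k ⊆ A m) ∧ (1 : P m) ∈ Dp m 0 ∧
  (∀ k, Dp m (k + 1) ⊆ Dp m k) ∧
  (∀ k l, ∀ s ∈ Dp m k, ∀ s' ∈ Dp m l, s * s' ∈ Dp m (k + l)) ∧
  (∀ k, ∀ s ∈ Dp m k, w m * s⁻¹ * w m ∈ Dp m k) ∧ (∀ n, a m ^ n ∈ Dp m n) ∧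
  ∀ R : ℕ, ∃ c : ℕ, ∀ k, ∀ s ∈ Dp m (k + c), ∀ d ∈ D1 m ^ R, s * d ∈ Dp m k

/-- (120 lines) **The set `K0`.** Uses nothing. PROOF. `rot m θ * rot m φ = rot m (θ + φ)` (rows: the row `r` has nonzero
entries only in the columns `r` and `2 m - r`), `rot m 0 = 1`, `(rot m θ)ᵀ = rot m (-θ)`. So `rot m θ` is orthogonal,
`det (rot m θ) ^ 2 = 1`, and `det (rot m θ) = det (rot m (θ/2)) ^ 2 = 1`. `K0` is the image of `ℝ` under the continuous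
map `θ ↦ ⟨rot m θ, _⟩` (`isPreconnected_range`). `rot m π` is the matrix of `J m` (`cos π = -1`, `sin π = 0`). -/
def S_K0 : Prop := ∀ m : ℕ, IsPreconnected (K0 m) ∧ (1 : P m) ∈ K0 m ∧ J m ∈ K0 m ∧
  ∀ k ∈ K0 m, k.1 * k.1.transpose = 1

/-- (100 lines) **Positive definite matrices.** Uses `S_Lmul`, `S_Blk`, `S_InvP`, `S_K0`, `S_El`. PROOF. By `S_InvP` (1) it is
enough that `Pos (k⁻¹ d k w) 1`. `S = k⁻¹ d k` is symmetric and positive definite (`k⁻¹ = kᵀ`). Let `C` be the matrix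
with the columns `e_0 .. e_{n-i-1}, S_{n-i} .. S_{n-1}`; then `(S w)_s = C w_s` for `s < i` (`w_s = ± e_{n-1-s}`) and
`e_s = C e_s` for `s < n - i`, so `D (app i (cl (S w)) (cl 1)) = det C * D (app i (cl w) (cl 1)) = det C` (`S_Lmul` (1), `D_w_one`),
and `det C` is by `S_Blk` (first block of length `n - i`) the determinant of the lower right `i × i` block of `S`,
which is positive definite (`Matrix.PosDef`, `PosDef.submatrix`, `PosDef.det_pos`). -/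
def S_PD : Prop := ∀ m : ℕ, ∀ k ∈ K0 m, ∀ d ∈ A m, Pos (d * k * w m) k

/-! ## C. LU decomposition -/

/-- (80 lines) **Leading minors.** Uses `S_Lmul`, `S_Blk`. PROOF. Let `C` have the columns `q_0 .. q_{n-i-1},
e_{n-i} .. e_{n-1}`; `w_s = C w_s` for `s < i` and `q_s = C e_s` for `s < n - i`, so
`D (app i (cl w) (cl q)) = det C * D (app i (cl w) (cl 1)) = det C`, and `det C` is the leading minor of size `n - i`
(`S_Blk` with `i = 0`). -/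
def S_Min : Prop := ∀ (m : ℕ) (q : P m),
  (∀ i, i ≤ 2 * m + 1 → D (app i (cl (w m).1) (cl q.1)) = (lead q.1 (2 * m + 1 - i)).det) ∧
  (Pos (w m) q ↔ ∀ j, j ≤ 2 * m + 1 → 0 < (lead q.1 j).det)

/-- (200 lines) **LU decomposition.** Uses `S_Min`. PROOF. Let all leading minors of `q` be positive, `M_j = lead q (j+1)`,
`X s j = (M_j).adjugate s j / det M_j` for `s ≤ j`, `0` for `s > j` (a formula for every `q`). Then `N = q X` has
`N r j = ∑ s ≤ j, q r s X s j`, for `r ≤ j` equal to `(M_j * adj M_j) r j / det M_j = δ_{r j}` (`Matrix.mul_adjugate`): lower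
unipotent. `X j j = det (lead q j) / det (lead q (j+1)) > 0` (`Matrix.adjugate_fin_succ_eq_det_submatrix` for the last
index: `Fin.succAbove_last`; `j = 0` is clear). So `det N = 1`, `det X = 1`, `X ∈ Bor`, and `f q = N`,
`(f q)⁻¹ q = X⁻¹ ∈ Bor`. Continuity: all entries of `N` are continuous on the open set of the `q` with positive
leading minors (`Continuous.matrix_adjugate`, `Continuous.matrix_det`; `ContinuousOn.div`). -/
def S_LU : Prop := ∀ m : ℕ, ∃ f : P m → P m, ContinuousOn f {q | Pos (w m) q} ∧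
  ∀ q, Pos (w m) q → f q ∈ Nm m ∧ (f q)⁻¹ * q ∈ Bor m

/-- (50 lines) **The converse.** Uses `S_InvP`, `S_El`. PROOF. `Pos w (x b) ↔ Pos w x ↔ Pos (x⁻¹ w) 1 ↔ Pos (w (w x⁻¹ w)) 1
↔ Pos w 1`, as `w x⁻¹ w ∈ Np ≤ Bor`. The second part: `wb = (w b w) w`; `q = x d u` gives
`w q⁻¹ w = (w u⁻¹ w)(w d⁻¹ w)(w x⁻¹ w) ∈ Nm * Bor` (`S_El`). -/
def S_LUi : Prop := ∀ m : ℕ, (∀ x ∈ Nm m, ∀ b ∈ Bor m, Pos (w m) (x * b)) ∧
  ∀ x ∈ Nm m, ∀ d ∈ A m, ∀ u ∈ Np m, Pos (w m) (w m * (x * d * u)⁻¹ * w m)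

/-- (100 lines) **LU decomposition near a point.** Uses `S_LU`, `S_El`, `S_Nb`, `S_InvP`, `S_Op`. PROOF. (1) Near `1`: `f` from
`S_LU` is continuous at `1` (the set is open: `S_Op`; `Pos w 1`), `f 1 = 1` (`f 1 ∈ Nm` and `(f 1)⁻¹ ∈ Bor`:
`S_El`), so `x = f g` and `b = (f g)⁻¹ g` are near `1`; `b = α u` with `α` the diagonal of `b` (`S_El`), near `1`.
(2) `q = x₀ b₀` by `S_LU`, `b₀ = α₀ u₀`; `v q v' = x₀ g (α₀ u₀)` with `g = (x₀⁻¹ v x₀) (b₀ v' b₀⁻¹)` near `1`,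
`g = x α u'` by (1), `v q v' = (x₀ x) (α α₀) ((α₀⁻¹ u' α₀) u₀)`; everything is continuous, `V` small enough. -/
def S_LUn : Prop := ∀ m : ℕ,
  (∀ U ∈ 𝓝 (1 : P m), ∃ V ∈ 𝓝 (1 : P m), ∀ g ∈ V, ∃ x ∈ Nm m, ∃ α ∈ A m, ∃ u ∈ Np m,
    x ∈ U ∧ α ∈ U ∧ u ∈ U ∧ g = x * α * u) ∧
  ∀ q, Pos (w m) q → ∃ x₀ ∈ Nm m, ∃ α₀ ∈ A m, ∃ u₀ ∈ Np m, q = x₀ * α₀ * u₀ ∧
    ∀ U ∈ 𝓝 (1 : P m), ∃ V ∈ 𝓝 (1 : P m), ∀ v ∈ V, ∀ v' ∈ V, ∃ x ∈ Nm m, ∃ α ∈ A m, ∃ u ∈ Np m,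
      x ∈ U ∧ α ∈ U ∧ u ∈ U ∧ v * q * v' = (x₀ * x) * (α * α₀) * (u * u₀)

/-- (120 lines) **Squeezing.** Uses `S_El`, `S_Nb`. PROOF. `(s x s⁻¹) i j = s_i x_ij / s_j` (`S_El`); for `x ∈ Nm` only `j ≤ i`
occur, and for `j < i`: `s_i / s_j ≤ 2^(-k)` (`s ∈ Dp k`). Similarly `s⁻¹ u s`. The last two: a compact set has
bounded entries (`S_Nb`). -/
def S_Sq : Prop := ∀ m : ℕ, ∀ U ∈ 𝓝 (1 : P m),
  (∃ V ∈ 𝓝 (1 : P m), ∀ s ∈ Dp m 0, (∀ x ∈ Nm m, x ∈ V → s * x * s⁻¹ ∈ U) ∧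
    ∀ u ∈ Np m, u ∈ V → s⁻¹ * u * s ∈ U) ∧
  ∀ K : Set (P m), IsCompact K → ∃ k : ℕ, ∀ s ∈ Dp m k,
    (∀ x ∈ Nm m, x ∈ K → s * x * s⁻¹ ∈ U) ∧ ∀ u ∈ Np m, u ∈ K → s⁻¹ * u * s ∈ U

/-! ## D. Junction, contraction, eigenframes -/

/-- (80 lines) **Junction near `1`.** Uses `S_LUn` (1), `S_Sq` (1), `S_El`. PROOF. `q = x α u`:
`s q s' = (s x s⁻¹) (α s s') (s'⁻¹ u s')`. -/
def S_JN1 : Prop := ∀ m : ℕ, ∀ U ∈ 𝓝 (1 : P m), ∃ V ∈ 𝓝 (1 : P m), ∀ s ∈ Dp m 0, ∀ s' ∈ Dp m 0,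
  ∀ q ∈ V, ∃ e ∈ U, ∃ e' ∈ U, ∃ d ∈ A m, d ∈ U ∧ s * q * s' = e * (d * s * s') * e'

/-- (100 lines) **Junction.** Uses `S_LUn` (2), `S_Sq` (2), `S_El`. PROOF. `d = α₀`. `v q v' = (x₀ x) (α α₀) (u u₀)`, so
`s v q v' s' = [s x₀ x s⁻¹ α] (α₀ s s') [s'⁻¹ (u u₀) s']`. `x₀ x` and `u u₀` stay in compact sets (`P m` is locally compact:
take `x, u` in a compact neighbourhood `W` of `1`, then `x₀ W`, `W u₀`), so the brackets are in `U`
for `k` large and `α` near `1` (first choose `U'` with `U' U' ⊆ U`). -/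
def S_JN2 : Prop := ∀ m : ℕ, ∀ q, Pos (w m) q → ∃ d ∈ A m, ∀ U ∈ 𝓝 (1 : P m),
  ∃ V ∈ 𝓝 (1 : P m), ∃ k : ℕ, ∀ s ∈ Dp m k, ∀ s' ∈ Dp m k, ∀ v ∈ V, ∀ v' ∈ V,
    ∃ e ∈ U, ∃ e' ∈ U, s * (v * q * v') * s' = e * (d * s * s') * e'

/-- (80 lines) **Contraction.** Uses `S_LUn` (2), `S_Sq` (2), `S_El`. PROOF. `s (v q v') = [s x₀ x s⁻¹] (s α α₀ u u₀)`, as in
`S_JN2`; the second factor is in `Bor`. -/
def S_CT : Prop := ∀ m : ℕ, ∀ q, Pos (w m) q → ∀ U ∈ 𝓝 (1 : P m), ∃ V ∈ 𝓝 (1 : P m), ∃ k : ℕ,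
  ∀ s ∈ Dp m k, ∀ v ∈ V, ∀ v' ∈ V, ∃ e ∈ U, ∃ b ∈ Bor m, s * (v * q * v') = e * b

/-- Strictly lower triangular part. -/
def lo {n : ℕ} (T : Matrix (Fin n) (Fin n) ℝ) : Matrix (Fin n) (Fin n) ℝ :=
  Matrix.of fun i j => if j < i then T i j else 0

/-- Upper triangular part (with the diagonal). -/
def up {n : ℕ} (T : Matrix (Fin n) (Fin n) ℝ) : Matrix (Fin n) (Fin n) ℝ :=
  Matrix.of fun i j => if j < i then 0 else T i j

/-- (120 lines) **A fixed point.** Uses nothing. PROOF. Banach's fixed point theorem for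
`T ↦ e + Λ (lo T) - lo T * up T` on the set of the matrices with all `|T i j| ≤ η'`, `η' = min η (1 / (8 (n+1)))`:
in the maximum norm `‖X Y‖ ≤ n ‖X‖ ‖Y‖`, `‖lo T‖, ‖up T‖ ≤ ‖T‖`, so with `δ = η' / 4` it maps this set into itself and
is a contraction with constant `δ + 2 n η' ≤ 1/2`. (Use `Fin n → Fin n → ℝ` with its sup norm,
`ContractingWith.exists_fixedPoint'` or `ContractingWith` on the closed ball, which is complete.) -/
def S_BF : Prop := ∀ (n : ℕ) (η : ℝ), 0 < η → ∃ δ : ℝ, 0 < δ ∧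
  ∀ (e : Matrix (Fin n) (Fin n) ℝ)
    (Λ : Matrix (Fin n) (Fin n) ℝ →ₗ[ℝ] Matrix (Fin n) (Fin n) ℝ),
    (∀ i j, |e i j| ≤ δ) → (∀ X, (∀ i j, |X i j| ≤ 1) → ∀ i j, |Λ X i j| ≤ δ) →
    ∃ T, (∀ i j, |T i j| ≤ η) ∧ T = e + Λ (lo T) - lo T * up T

/-- (200 lines) **The attracting flag.** Uses `S_BF`, `S_LUn`, `S_Sq`, `S_Nb`, `S_El`. PROOF. `q = x₀ b₀`, `b₀ = α₀ u₀`
(`S_LUn` (2)). Put `g = v q v'`. For a strictly lower triangular matrix `Z` let `σ Z = s Z s⁻¹` (entries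
`s_i Z_ij / s_j`, so `|σ Z| ≤ 2^(-k) |Z|`). Put `e = x₀⁻¹ g b₀⁻¹ - 1 + x₀⁻¹ g (σ (x₀ - 1)) b₀⁻¹` and
`Λ Z = x₀⁻¹ g (σ (x₀ (lo Z))) b₀⁻¹` (linear; `σ` extended by `σ (lo _)`). For `V` small and `k` large they are as small as
`S_BF` requires (`η` to be chosen). Let `T` be the fixed point, `Z = lo T`, `Y = up T`. Then `(1 + Z)(1 + Y) = 1 + T + Z Y =
1 + e + Λ Z = x₀⁻¹ g (s x₀ (1 + Z) s⁻¹) b₀⁻¹`. Put `y = x₀ (1 + Z) ∈ Nm`, `x = s y s⁻¹ ∈ Nm`,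
`b' = (1 + Y) b₀`: upper triangular with positive diagonal (`|Y| ≤ η < 1`), `y b' = g x`, so `det b' = 1`. Then
`s g x = s y b' = x (s b')`, `b = s b' ∈ Bor`, with diagonal `s_i (1 + Y_ii) (b₀)_ii`, strictly decreasing for `k`
large (`(1 + Y_ii) (b₀)_ii ∈ [(b₀)_ii / 2, 2 (b₀)_ii]`, `η ≤ 1/2`). `x ∈ U`: `y` has bounded entries, `k` large (entries as in `S_Sq`). -/
def S_Fix : Prop := ∀ m : ℕ, ∀ q, Pos (w m) q → ∀ U ∈ 𝓝 (1 : P m), ∃ V ∈ 𝓝 (1 : P m), ∃ k : ℕ,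
  ∀ s ∈ Dp m k, ∀ v ∈ V, ∀ v' ∈ V, ∃ x ∈ Nm m, x ∈ U ∧ ∃ b ∈ Bor m,
    s * (v * q * v') * x = x * b ∧ ∀ i j, i < j → b.1 j j < b.1 i i

/-- (200 lines) **Eigenframes.** Uses `S_Fix`, `S_LU`, `S_LUi`, `S_LUn`, `S_Op`, `S_El`, `S_Dp`. PROOF. `q = x₀ α₀ u₀`
(`S_LUn` (2)), `q' = w q⁻¹ w`, `Pos w q'` (`S_LUi`). Let `U'` be a small neighbourhood of `1`, `S_Fix` for `(q, U')` and
`(q', U')` gives `V₁, k₁`, `V₂, k₂`; `V = {v ∈ V₁ | w v⁻¹ w ∈ V₂}` (and smaller), `k = max k₁ k₂` (`Dp` decreasing). Let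
`s ∈ Dp k`, `g = v q v'`, `L = s g`. (1) `x₁ ∈ Nm ∩ U'`, `L x₁ = x₁ b₁`. (2) `w s⁻¹ w ∈ Dp k` and
`(w v'⁻¹ w) q' (w v⁻¹ w) = w g⁻¹ w`: `x₂ ∈ Nm ∩ U'` with `w s⁻¹ w w g⁻¹ w x₂ = w s⁻¹ g⁻¹ w x₂ = x₂ b₂`. Put
`y = g⁻¹ w x₂`: `L⁻¹ y = g⁻¹ s⁻¹ g⁻¹ w x₂ = g⁻¹ w (w s⁻¹ g⁻¹ w x₂) = y b₂`, so `L y = y b₂⁻¹`. (3) `t = x₁⁻¹ y`:
`w t = w x₁⁻¹ v'⁻¹ q⁻¹ v⁻¹ w x₂` is near `q'`, so `Pos w (w t)` (`S_Op`), `w t = x b` (`S_LU`), `t = u w b₃` with
`u = w x w ∈ Np`, `b₃ = b`. `z = x₁ u`. (4) `z⁻¹ L z = u⁻¹ b₁ u` is upper triangular with the diagonal of `b₁`. Also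
`z w b₃ = x₁ u w b₃ = x₁ t = y`, so `L (z w) = L y b₃⁻¹ = y b₂⁻¹ b₃⁻¹ = z w (b₃ b₂⁻¹ b₃⁻¹)`: `z⁻¹ L z = w b₄ w`,
`b₄ ∈ Bor`, is lower triangular. So `z⁻¹ L z ∈ App`. (5) `z = x₁ u`, `x₁ ∈ U`, `u ∈ Bor`;
`z w = y b₃⁻¹ = e (q⁻¹ w) b₃⁻¹` with `e = v'⁻¹ q⁻¹ v⁻¹ w x₂ w q` near `1` (so in `U` for `V`, `U'` small). -/
def S_LX : Prop := ∀ m : ℕ, ∀ q, Pos (w m) q → ∀ U ∈ 𝓝 (1 : P m), ∃ V ∈ 𝓝 (1 : P m), ∃ k : ℕ,
  ∀ s ∈ Dp m k, ∀ v ∈ V, ∀ v' ∈ V, ∃ z : P m, z⁻¹ * (s * (v * q * v')) * z ∈ App m ∧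
    (∃ e ∈ U, ∃ b ∈ Bor m, z = e * b) ∧ ∃ e ∈ U, ∃ b ∈ Bor m, z * w m = e * (q⁻¹ * w m) * b

/-- (150 lines) **Uniqueness of eigenframes.** Uses `S_InvP`, `S_Rmul`, `S_El`. PROOF. `t = z⁻¹ l z`, `t' = z'⁻¹ l z'`,
`y = z⁻¹ z'`: `t y = y t'`, so `t_i y_ij = y_ij t'_j`. As `det y ≠ 0` there is a permutation `π` with `y_{i,π i} ≠ 0` for all `i`
(a nonzero term of the Leibniz formula), so `t_i = t'_{π i}`; `t`, `t'` strictly decreasing give `π = 1` (a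
permutation which is strictly monotone), `t = t'`, and `y_ij ≠ 0` only for `i = j`. So `y` is diagonal, commutes with
`J`: `z J z⁻¹ = z' J z'⁻¹`. If `Pos k (z w)`, `Pos k (z' w)`: `z' w = z w (w y w)`, `w y w` diagonal with entries
`y_{2m-i}`; by `S_Rmul` `D (app i k (z w (w y w))) = (∏ s < n-i, y_{2m-s}) D (app i k (z w))`, so all the products
`∏ s < j, y_{2m-s}`, `j ≤ n`, are positive, so all `y_i > 0` and `y ∈ A`. -/
def S_UQ : Prop := ∀ (m : ℕ) (l z z' : P m), z⁻¹ * l * z ∈ App m → z'⁻¹ * l * z' ∈ App m →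
  z * J m * z⁻¹ = z' * J m * z'⁻¹ ∧
  ∀ k, Pos k (z * w m) → Pos k (z' * w m) → z⁻¹ * z' ∈ A m

/-- (120 lines) **A positive triple.** Uses `S_Lmul`, `S_Blk`, `S_Rmul`, `S_InvP`. PROOF. Let `Q r s = (s + 1)^r` (a Vandermonde
matrix, `det Q > 0`), `c` = `Q` with the first column divided by `det Q` (`= Q * diag (1/det Q, 1, ..., 1)`), so
`det c = 1`. For `i + j ≤ n` let `C` have the columns `e_0 .. e_{i-1}, c_0 .. c_{j-1}, e_{i+j} .. e_{n-1}`. The sequence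
`app i e (app j c w)` is `C` times the sequence `app (i+j) e w` on the first `n` positions (`w_s = ± e_{n-1-s}`,
`n - 1 - s ≥ i + j` for `s < n - i - j`), so `D = det C * D (app (i+j) (cl 1) (cl w)) = det C` times a positive number
(`S_InvP` (4), `Pos 1 w`). `det C` is by `S_Blk` the determinant of the rows `i .. i+j-1` of `c_0 .. c_{j-1}`:
up to the positive factor `1/det Q` it is `det ((s+1)^(i+r))_{r,s<j} = ∏ (s+1)^i * ∏_{s<s'} (s' - s) > 0`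
(`Matrix.det_vandermonde`, `Matrix.det_mul_row` or `det_mul_column`). -/
def S_Tw : Prop := ∀ m : ℕ, ∃ c : P m, Tri 1 c (w m)

/-- (120 lines) **Next to.** Uses `S_Tw`, `S_LU`, `S_Sq`, `S_Op`, `S_InvP`, `S_InvT`, `S_El`. PROOF. First: for every compact
`C` in `{k | Pos 1 k}` there is `c'` with `Tri 1 c' k` for all `k ∈ C`. For `k ∈ C`: `Pos w (w k)`, so `w k = x b` (`S_LU`),
`k = u w b` with `u = w x w ∈ Np`, and `u` stays in a compact set `K` (image of `C` under `k ↦ w (f (w k)) w`,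
continuous on `C`). Let `c` be from `S_Tw`; `{y | Tri 1 c (y w)}` is an open neighbourhood of `1` (`S_Op`). By `S_Sq` there is
`s ∈ Dp k₀` (e.g. `s = a ^ k₀`) with `s⁻¹ u s` in it for all `u ∈ K ∩ Np`. `c' = s c s⁻¹`: `Tri 1 (s c s⁻¹) k ↔ Tri s⁻¹ (c s⁻¹)
(s⁻¹ k) ↔ Tri 1 c (s⁻¹ u w b)` (right invariance in each argument: `S_InvT` (2), (3)), and
`s⁻¹ u w b = (s⁻¹ u s) w (w s⁻¹ w) b`. Now let `C` be given; take `c'` for the compact set `J C J` (`Pos 1 (J k J) ↔ Pos 1 k` by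
`S_InvP`): `Tri 1 c' (J k J)`. Multiply by `J` from the left: `Tri (1 J) ((J c' J) J) (k J)`; `S_InvT` (6) gives (multiply again
by `J`) `Tri 1 k (J c' J)`, so by (3) twice `Tri (J c' J) 1 k`. -/
def S_NT : Prop := ∀ m : ℕ, 1 ≤ m → ∀ C : Set (P m), IsCompact C → (∀ k ∈ C, Pos 1 k) →
  ∃ c, ∀ k ∈ C, Tri c 1 k

/-- (80 lines) **The end.** Uses (in this order) `S_InvP`, `S_InvT`, `S_Tt`, `S_Op`, `S_El`, `S_D1`, `S_Dp`, `S_K0`, `S_PD`, `S_JN1`,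
`S_JN2`, `S_CT`, `S_LX`, `S_UQ`, `S_NT`. -/
def S_Ok : Prop := ∀ m : ℕ, 1 ≤ m → (gS m).Ok

end Pool.Agent.MPEF.U.S
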