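import Pool.Agent.Lib.MP_ef3f0f_gt.U.S.Spec2

/-!
# MP_ef3f0f_gt, Theorem U: powers of `D1` (`S_D1e`)
-/

set_option autoImplicit false

namespace Pool.Agent.MPEF.U.S

open Matrix Topology
open scoped Pointwise

private theorem D1e_prod {m : ℕ} {d : P m} (hd : d ∈ A m) : ∏ i, d.1 i i = 1 := by
  have h1 : d.1 = Matrix.diagonal fun i => d.1 i i := by
    ext i j
    rcases eq_or_ne i j with h | h
    · rw [h, Matrix.diagonal_apply_eq]
    · rw [Matrix.diagonal_apply_ne _ h, hd.1 i j h]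
  have h2 := d.2
  rw [h1, Matrix.det_diagonal] at h2
  exact h2

private theorem D1e_exp {m R : ℕ} {d : P m} (hd : d ∈ A m) :
    ∏ i, Real.exp (Real.log (d.1 i i) / R) = 1 := by
  rw [← Real.exp_sum, ← Finset.sum_div, ← Real.log_prod (fun i _ => (hd.2 i).ne'), D1e_prod hd,
    Real.log_one, zero_div, Real.exp_zero]

theorem tD1e : S_D1e := by
  intro m R hR d hd hl
  have hR0 : (0 : ℝ) < R := by exact_mod_cast hR
  obtain ⟨d', hd'⟩ : ∃ d' : P m, d' = dg m (fun i => Real.exp (Real.log (d.1 i i) / R))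
    (D1e_exp hd) := ⟨_, rfl⟩
  have h0 : ∀ i j, d'.1 i j = Matrix.diagonal (fun i => Real.exp (Real.log (d.1 i i) / R)) i j := by
    intro i j
    rw [hd']
    rfl
  have h1 : d' ∈ D1 m := by
    refine ⟨⟨fun i j hij => ?_, fun i => ?_⟩, fun i => ?_⟩
    · rw [h0, Matrix.diagonal_apply_ne _ hij]
    · rw [h0, Matrix.diagonal_apply_eq]
      exact Real.exp_pos _
    · rw [h0, Matrix.diagonal_apply_eq, Real.log_exp, abs_div, abs_of_pos hR0, div_le_one hR0]
      exact hl i
  have h2 : d = d' ^ R := by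
    apply Subtype.ext
    have h3 : (d' ^ R).1 = (Matrix.diagonal fun i => Real.exp (Real.log (d.1 i i) / R)) ^ R := by
      rw [hd']
      rfl
    rw [h3, Matrix.diagonal_pow]
    ext i j
    rcases eq_or_ne i j with h | h
    · rw [h, Matrix.diagonal_apply_eq, Pi.pow_apply, ← Real.exp_nat_mul, mul_div_cancel₀ _ hR0.ne',
        Real.exp_log (hd.2 j)]
    · rw [Matrix.diagonal_apply_ne _ h, hd.1 i j h]
  rw [h2]
  exact Set.pow_mem_pow h1

end Pool.Agent.MPEF.U.S
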