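import Pool.Agent.Lib.MP_ef3f0f_gt.U.S.Spec2

/-!
# MP_ef3f0f_gt, Theorem U: junction, uniform on compact sets (helper17)
-/

set_option autoImplicit false

namespace Pool.Agent.MPEF.U.S

open Matrix Topology
open scoped Pointwise

variable {m : ℕ}

/-- The product with a positive diagonal matrix. -/
private theorem JNc_diag {d : P m} (hd : d ∈ A m) (u : P m) (i j : Fin (2 * m + 1)) :
    (d * u).1 i j = d.1 i i * u.1 i j := by
  rw [Matrix.SpecialLinearGroup.coe_mul, Matrix.mul_apply]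
  refine Finset.sum_eq_single i (fun k _ hk => ?_) (fun hi => absurd (Finset.mem_univ i) hi)
  rw [hd.1 i k (Ne.symm hk), zero_mul]

/-- The diagonal entries of an upper triangular matrix `b` with `b`, `b⁻¹` bounded by `C`. -/
private theorem JNc_log {b : P m} (hb : b ∈ Bor m) {C : ℝ}
    (h1 : ∀ i j, |b.1 i j| ≤ C) (h2 : ∀ i j, |(b⁻¹).1 i j| ≤ C) (i : Fin (2 * m + 1)) :
    |Real.log (b.1 i i)| ≤ Real.log C ∧ (b.1 i i)⁻¹ ≤ C := by
  have h3 := (tri_inv b hb.1).2 i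
  have h4 : 0 < b.1 i i := hb.2 i
  have h5 : (b⁻¹).1 i i = (b.1 i i)⁻¹ := eq_inv_of_mul_eq_one_right h3
  have h6 : (b.1 i i)⁻¹ ≤ C := by
    rw [← h5]
    exact (le_abs_self _).trans (h2 i i)
  refine ⟨?_, h6⟩
  rw [abs_le]
  constructor
  · have h7 := Real.log_le_log (inv_pos.2 h4) h6
    rw [Real.log_inv] at h7
    linarith
  · exact Real.log_le_log h4 ((le_abs_self _).trans (h1 i i))

theorem tJNc (hLU : S_LU) (hEl : S_El) (hNb : S_Nb) (hSq : S_Sq) (hKc : S_Kc) (hD1e : S_D1e) :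
    S_JNc := by
  intro m Q hQ hPos
  obtain ⟨f, hf, hfq⟩ := hLU m
  have hf' : ContinuousOn f Q := hf.mono hPos
  have hg : ContinuousOn (fun q => (f q)⁻¹ * q) Q := hf'.inv.mul continuousOn_id
  obtain ⟨C1, hC1, hK1⟩ := (hNb m).2.2 _ (hQ.image_of_continuousOn hf')
  obtain ⟨C2, hC2, hK2⟩ := (hNb m).2.2 _ (hQ.image_of_continuousOn hg)
  obtain ⟨C3, hC3, hK3⟩ := (hNb m).2.2 _ (hQ.image_of_continuousOn hg.inv)
  obtain ⟨C, hC⟩ : ∃ C : ℝ, C = C1 + C2 + C3 + 1 := ⟨_, rfl⟩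
  have hC0 : 1 ≤ C := by linarith
  have hCC : C ≤ C * C := by nlinarith
  have hbd : ∀ q ∈ Q, (∀ i j, |(f q).1 i j| ≤ C) ∧ (∀ i j, |((f q)⁻¹ * q).1 i j| ≤ C) ∧
      ∀ i j, |(((f q)⁻¹ * q)⁻¹).1 i j| ≤ C := by
    intro q hq
    refine ⟨fun i j => ?_, fun i j => ?_, fun i j => ?_⟩
    · exact (hK1 _ ⟨q, hq, rfl⟩ i j).trans (by linarith)
    · exact (hK2 _ ⟨q, hq, rfl⟩ i j).trans (by linarith)
    · exact (hK3 _ ⟨q, hq, rfl⟩ i j).trans (by linarith)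
  obtain ⟨-, -, -, -, -, -, -, -, hcomm, -, -, -, -, -, -, -, -, hdec⟩ := hEl m
  refine ⟨⌈Real.log C⌉₊ + 1, fun U hU => ?_⟩
  obtain ⟨k, hk⟩ := (hSq m U hU).2 _ (hKc m (C * C))
  refine ⟨k, fun s hs s' hs' q hq => ?_⟩
  obtain ⟨hb1, hb2, hb3⟩ := hbd q hq
  obtain ⟨hx, hb⟩ := hfq q (hPos q hq)
  obtain ⟨b, hbe⟩ : ∃ b, b = (f q)⁻¹ * q := ⟨_, rfl⟩
  rw [← hbe] at hb hb2 hb3
  obtain ⟨d, hd, u, hu, hdu, hdb⟩ := hdec b hb
  have hlog := JNc_log hb hb2 hb3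
  have hdR : d ∈ D1 m ^ (⌈Real.log C⌉₊ + 1) := by
    refine hD1e m _ (by omega) d hd fun i => ?_
    rw [hdb i]
    refine (hlog i).1.trans ((Nat.le_ceil _).trans ?_)
    push_cast
    linarith
  have hxK : f q ∈ {g : P m | ∀ i j, |g.1 i j| ≤ C * C} := fun i j => (hb1 i j).trans hCC
  have huK : u ∈ {g : P m | ∀ i j, |g.1 i j| ≤ C * C} := by
    intro i j
    have h1 := JNc_diag hd u i j
    rw [← hdu, hdb i] at h1
    have h2 : 0 < b.1 i i := hb.2 i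
    have h3 : u.1 i j = (b.1 i i)⁻¹ * b.1 i j := by
      rw [h1]
      field_simp
    rw [h3, abs_mul, abs_of_pos (inv_pos.2 h2)]
    exact mul_le_mul (hlog i).2 (hb2 i j) (abs_nonneg _) (by linarith)
  refine ⟨s * f q * s⁻¹, (hk s hs).1 _ hx hxK, s'⁻¹ * u * s', (hk s' hs').2 _ hu huK, d, hdR, ?_⟩
  have hqe : q = f q * (d * u) := by
    rw [← hdu, hbe]
    group
  have hsd : s⁻¹ * d * s = d := by
    rw [mul_assoc, hcomm d hd s hs.1]
    group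
  calc s * q * s' = s * (f q * (d * u)) * s' := by rw [← hqe]
    _ = s * f q * (s⁻¹ * d * s) * u * s' := by
      rw [hsd]
      group
    _ = s * f q * s⁻¹ * (d * s * s') * (s'⁻¹ * u * s') := by group

end Pool.Agent.MPEF.U.S
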