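import Pool.Agent.Lib.MP_ef3f0f_gt.U.S.Spec2

/-!
# MP_ef3f0f_gt, Theorem U: bounded sets in `SL_n(ℝ)` are compact (`S_Kc`)
-/

set_option autoImplicit false

namespace Pool.Agent.MPEF.U.S

open Matrix Topology
open scoped Pointwise

theorem tKc : S_Kc := by
  intro m C
  have h1 : IsCompact {M : Fin (2 * m + 1) → Fin (2 * m + 1) → ℝ | ∀ i j, |M i j| ≤ C} := by
    have h2 : {M : Fin (2 * m + 1) → Fin (2 * m + 1) → ℝ | ∀ i j, |M i j| ≤ C} =
        Set.pi Set.univ fun _ => Set.pi Set.univ fun _ => Set.Icc (-C) C := by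
      ext M
      simp only [Set.mem_ofPred_eq, Set.mem_pi, Set.mem_univ, true_imp_iff, abs_le, Set.mem_Icc]
    rw [h2]
    exact isCompact_univ_pi fun _ => isCompact_univ_pi fun _ => isCompact_Icc
  exact Matrix.SpecialLinearGroup.isClosedEmbedding_val.isCompact_preimage h1

end Pool.Agent.MPEF.U.S
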