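import Pool.Agent.Lib.MP_ef3f0f_gt.U.S.Spec2

/-!
# MP_ef3f0f_gt, Theorem U, the group `SL_n(ℝ)`: LU and squeezing (module LB)
-/

set_option autoImplicit false

namespace Pool.Agent.MPEF.U.S

open Matrix Topology
open scoped Pointwise

theorem tLB (hLU : S_LU) (hEl : S_El) (hSq : S_Sq) : S_LB := by
  intro m
  obtain ⟨hww, -, -, -, -, -, -, -, -, -, hNB, -, hNw, -, -, -, -, hBo⟩ := hEl m
  refine ⟨fun q hq => ?_, fun b hb => ?_⟩
  · obtain ⟨f, -, hf⟩ := hLU m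
    obtain ⟨h1, h2⟩ := hf q hq
    refine ⟨w m * f q * w m, hNB (hNw _ h1), (f q)⁻¹ * q, h2, ?_⟩
    have h3 : w m * (w m * f q * w m) * w m * ((f q)⁻¹ * q) =
        (w m * w m) * f q * (w m * w m) * ((f q)⁻¹ * q) := by group
    rw [h3, hww, one_mul, mul_one, mul_inv_cancel_left]
  · obtain ⟨d, hd, u, hu, rfl, -⟩ := hBo b hb
    refine ⟨d, hd, fun U hU => ?_⟩
    obtain ⟨k, hk⟩ := (hSq m U hU).2 {u} isCompact_singleton
    refine ⟨k, fun s hs => ⟨s⁻¹ * u * s, (hk s hs).2 u hu (Set.mem_singleton u), ?_⟩⟩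
    group

end Pool.Agent.MPEF.U.S
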