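import Pool.Agent.Lib.MP_ef3f0f_gt.U.S.Spec2

/-!
# MP_ef3f0f_gt, Theorem U: the properties `OkF` of `SL_n(ℝ)` (assembly)
-/

set_option autoImplicit false

namespace Pool.Agent.MPEF.U.S

open Matrix Topology
open scoped Pointwise

theorem tOkF (hLB : S_LB) (hJNc : S_JNc) : S_OkF := fun m =>
  { LU := (hLB m).1
    BC := (hLB m).2
    JNc := hJNc m }

end Pool.Agent.MPEF.U.S
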