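import Pool.Agent.Lib.MP_ef3f0f_gt.U.F.Defs
import Pool.Agent.Lib.MP_ef3f0f_gt.U.S.Spec

/-!
# MP_ef3f0f_gt, Theorem U: the properties `OkF` of `SL_n(ℝ)` (author helper70)

Same conventions as in `U/S/Spec.lean`.
-/

set_option autoImplicit false

namespace Pool.Agent.MPEF.U.S

open Matrix Topology
open scoped Pointwise

/-- (40 lines) **Bounded sets are compact.** Uses nothing. PROOF. `Matrix.SpecialLinearGroup.isClosedEmbedding_val`: the set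
is the preimage of the compact set `{M | ∀ i j, |M i j| ≤ C}` of matrices (`isCompact_univ_pi` twice, or closed and
bounded; `Topology.IsClosedEmbedding.isCompact_preimage`). -/
def S_Kc : Prop := ∀ (m : ℕ) (C : ℝ), IsCompact {g : P m | ∀ i j, |g.1 i j| ≤ C}

/-- (60 lines) **Powers of `D1`.** Uses nothing. PROOF. `d' = dg m (fun i => exp (log d_i / R)) _`; the product of its
entries is `exp (∑ log d_i / R) = exp (log (∏ d_i) / R) = 1` because `∏ d_i = det d = 1` (`d` diagonal: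
`d.1 = Matrix.diagonal _`). `d' ∈ D1` (`|log d_i / R| ≤ 1`) and `d = d' ^ R` (`Matrix.diagonal_pow`,
`exp (log d_i / R) ^ R = exp (log d_i)`), so `Set.pow_mem_pow`. -/
def S_D1e : Prop := ∀ (m R : ℕ), 1 ≤ R → ∀ d ∈ A m, (∀ i, |Real.log (d.1 i i)| ≤ R) → d ∈ D1 m ^ R

/-- (40 lines) **LU and squeezing.** Uses `S_LU`, `S_El`, `S_Sq`. PROOF. (1) `f` from `S_LU`, `b = w (f q) w ∈ Np ≤ Bor`
(`S_El`), `b' = (f q)⁻¹ q`. (2) `b = d u` (`S_El`); by `S_Sq` (2) for the compact set `{u}` there is `k` with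
`e = s⁻¹ u s ∈ U` for `s ∈ Dp k`; `b s = d s e`. -/
def S_LB : Prop := ∀ m : ℕ,
  (∀ q, Pos (w m) q → ∃ b ∈ Bor m, ∃ b' ∈ Bor m, q = w m * b * w m * b') ∧
  ∀ b ∈ Bor m, ∃ d ∈ A m, ∀ U ∈ 𝓝 (1 : P m), ∃ k : ℕ, ∀ s ∈ Dp m k, ∃ e ∈ U, b * s = d * s * e

/-- (120 lines) **Junction, uniform on compact sets.** Uses `S_LU`, `S_El`, `S_Nb`, `S_Sq`, `S_Kc`, `S_D1e`. PROOF. Let `f` be from
`S_LU`. The sets `f '' Q` and `{(f q)⁻¹ q | q ∈ Q}` and `{q⁻¹ (f q) | q ∈ Q}` are compact (images of `Q` under maps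
which are continuous on `Q`), so all entries are `≤ C` in absolute value (`S_Nb` (3); one `C ≥ 1` for the three sets).
Let `q ∈ Q`, `x = f q ∈ Nm`, `b = x⁻¹ q ∈ Bor`, `b = d u` with `d_i = b_ii` (`S_El`). `d_i ≤ C`, and `d_i⁻¹ = (b⁻¹)_ii ≤ C`
(`tri_inv` (2)), so `|log d_i| ≤ log C ≤ R₀` and `d ∈ D1 ^ R₀` (`S_D1e`), `R₀ = ⌈log C⌉ + 1`. The entries of
`u = d⁻¹ b` are `≤ C²` (the product with a diagonal matrix). Let `K` be the compact set of all `g` with entries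
`≤ C²` (`S_Kc`), `U` given, `k` from `S_Sq` (2) for `K`. For `s, s' ∈ Dp k`: `s q s' = (s x s⁻¹) (s d s') (s'⁻¹ u s')` and
`s d = d s`. (`Dp k ⊆ A` by definition.) -/
def S_JNc : Prop := ∀ (m : ℕ) (Q : Set (P m)), IsCompact Q → (∀ q ∈ Q, Pos (w m) q) →
  ∃ R₀ : ℕ, ∀ U ∈ 𝓝 (1 : P m), ∃ k : ℕ, ∀ s ∈ Dp m k, ∀ s' ∈ Dp m k, ∀ q ∈ Q,
    ∃ e ∈ U, ∃ e' ∈ U, ∃ d ∈ D1 m ^ R₀, s * q * s' = e * (d * s * s') * e'

/-- (10 lines) **The end.** Uses `S_LB`, `S_JNc`. -/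
def S_OkF : Prop := ∀ m : ℕ, (gS m).OkF

end Pool.Agent.MPEF.U.S
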