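import Pool.Agent.Lib.MP_ef3f0f_gt.U.F.SpecB2
import Pool.Agent.Lib.MP_ef3f0f_gt.U.S.Spec2

/-!
# MP_ef3f0f_gt, Theorem U: the properties `OkG` of `SL_n(ℝ)`
-/

set_option autoImplicit false

namespace Pool.Agent.MPEF.U.S

open Matrix Topology
open scoped Pointwise

/-- The diagonal part of a triangular matrix is bounded. -/
private theorem OkG_log {m : ℕ} {b d : P m} {C : ℝ} (hb : b ∈ Bor m)
    (hd : ∀ i, d.1 i i = b.1 i i) (h1 : ∀ i j, |b.1 i j| ≤ C) (h2 : ∀ i j, |(b⁻¹).1 i j| ≤ C)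
    (i : Fin (2 * m + 1)) : |Real.log (d.1 i i)| ≤ Real.log C := by
  have h3 : 0 < b.1 i i := hb.2 i
  have h4 := (tri_inv b hb.1).2 i
  have h5 : (b⁻¹).1 i i = (b.1 i i)⁻¹ := eq_inv_of_mul_eq_one_right h4
  have h6 : b.1 i i ≤ C := (le_abs_self _).trans (h1 i i)
  have h7 : (b.1 i i)⁻¹ ≤ C := by
    have := (le_abs_self _).trans (h2 i i)
    rwa [h5] at this
  rw [hd, abs_le]
  constructor
  · have h8 := Real.log_le_log (inv_pos.2 h3) h7
    rw [Real.log_inv] at h8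
    linarith
  · exact Real.log_le_log h3 h6

theorem tOkG (hLU : S_LU) (hEl : S_El) (hNb : S_Nb) (hSq : S_Sq) (hD1e : S_D1e) :
    ∀ m : ℕ, (gS m).OkG := by
  intro m
  obtain ⟨hww, -, -, -, -, -, -, -, -, -, hNB, -, hwN, -, -, -, -, hBd⟩ := hEl m
  refine ⟨fun Q hQ hP => ?_, fun B hB hBB => ?_⟩
  · obtain ⟨f, hfc, hf⟩ := hLU m
    have hc : ContinuousOn f Q := hfc.mono hP
    have hc1 : ContinuousOn (fun q => w m * f q * w m) Q :=
      (continuousOn_const.mul hc).mul continuousOn_const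
    have hc2 : ContinuousOn (fun q => (f q)⁻¹ * q) Q := hc.inv.mul continuousOn_id
    refine ⟨(fun q => w m * f q * w m) '' Q ∪ (fun q => (f q)⁻¹ * q) '' Q,
      (hQ.image_of_continuousOn hc1).union (hQ.image_of_continuousOn hc2), ?_, fun q hq => ?_⟩
    · rintro _ (⟨q, hq, rfl⟩ | ⟨q, hq, rfl⟩)
      · exact hNB (hwN _ (hf q (hP q hq)).1)
      · exact (hf q (hP q hq)).2
    · refine ⟨_, Or.inl ⟨q, hq, rfl⟩, _, Or.inr ⟨q, hq, rfl⟩, ?_⟩
      have hcc : ∀ x, w m * (w m * x) = x := fun x => by rw [← mul_assoc, hww, one_mul]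
      show q = w m * (w m * f q * w m) * w m * ((f q)⁻¹ * q)
      simp only [mul_assoc, hcc, mul_inv_cancel_left]
  · obtain ⟨C, -, hC⟩ := (hNb m).2.2 (B ∪ B⁻¹) (hB.union hB.inv)
    refine ⟨⌈Real.log C⌉₊ + 1, fun b hb => ?_⟩
    obtain ⟨d, hd, u, hu, hbe, hdi⟩ := hBd b (hBB hb)
    have h1 := OkG_log (hBB hb) hdi (hC b (Or.inl hb))
      (hC b⁻¹ (Or.inr (by rwa [Set.mem_inv, inv_inv])))
    refine ⟨d, hD1e m _ (by omega) d hd (fun i => (h1 i).trans ?_), fun U hU => ?_⟩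
    · push_cast
      linarith [Nat.le_ceil (Real.log C)]
    · obtain ⟨k, hk⟩ := (hSq m U hU).2 {u} isCompact_singleton
      refine ⟨k, fun s hs => ⟨s⁻¹ * u * s, (hk s hs).2 u hu rfl, ?_⟩⟩
      rw [hbe]
      group

end Pool.Agent.MPEF.U.S
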