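import Pool.Agent.Lib.MP_ef3f0f_gt.U.S.All
import Pool.Agent.Lib.MP_ef3f0f_gt.U.S.Kc
import Pool.Agent.Lib.MP_ef3f0f_gt.U.S.D1e
import Pool.Agent.Lib.MP_ef3f0f_gt.U.S.LB
import Pool.Agent.Lib.MP_ef3f0f_gt.U.S.JNc
import Pool.Agent.Lib.MP_ef3f0f_gt.U.S.OkF
import Pool.Agent.Lib.MP_ef3f0f_gt.U.S.OkG

/-!
# MP_ef3f0f_gt, Theorem U: `SL_n(ℝ)` has the properties `OkF`, `OkG`
-/

set_option autoImplicit false

namespace Pool.Agent.MPEF.U.S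

private theorem bLU : S_LU := tLU (tMin tLmul tBlk)

/-- The properties `OkF` of `SL_n(ℝ)`. -/
theorem gS_OkF (m : ℕ) : (gS m).OkF :=
  tOkF (tLB bLU tEl (tSq tEl tNb)) (tJNc bLU tEl tNb (tSq tEl tNb) tKc tD1e) m

/-- The properties `OkG` of `SL_n(ℝ)`. -/
theorem gS_OkG (m : ℕ) : (gS m).OkG := tOkG bLU tEl tNb (tSq tEl tNb) tD1e m

end Pool.Agent.MPEF.U.S
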