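import Pool.Agent.Lib.MP_ef3f0f_gt.U.S.Defs

/-!
# MP_ef3f0f_gt, Theorem U: the topology and the Borel sets of `SL_n(ℝ)`
-/

set_option autoImplicit false

namespace Pool.Agent.MPEF.U.S

open Topology

/-- `SL_n(ℝ)` is Hausdorff. -/
instance instT2 (m : ℕ) : T2Space (P m) :=
  Matrix.SpecialLinearGroup.isClosedEmbedding_val.isEmbedding.t2Space

/-- `SL_n(ℝ)` is locally compact. -/
instance instLC (m : ℕ) : LocallyCompactSpace (P m) :=
  haveI : LocallyCompactSpace (Matrix (Fin (2 * m + 1)) (Fin (2 * m + 1)) ℝ) :=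
    inferInstanceAs (LocallyCompactSpace (Fin (2 * m + 1) → Fin (2 * m + 1) → ℝ))
  Matrix.SpecialLinearGroup.isClosedEmbedding_val.locallyCompactSpace

/-- `SL_n(ℝ)` is second countable. -/
instance instSC (m : ℕ) : SecondCountableTopology (P m) :=
  haveI : SecondCountableTopology (Matrix (Fin (2 * m + 1)) (Fin (2 * m + 1)) ℝ) :=
    inferInstanceAs (SecondCountableTopology (Fin (2 * m + 1) → Fin (2 * m + 1) → ℝ))
  Matrix.SpecialLinearGroup.isClosedEmbedding_val.isEmbedding.secondCountableTopology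

/-- The Borel sets. -/
instance instMS (m : ℕ) : MeasurableSpace (P m) := borel (P m)

/-- The Borel sets. -/
instance instBS (m : ℕ) : BorelSpace (P m) := ⟨rfl⟩

end Pool.Agent.MPEF.U.S
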