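import Pool.Agent.Lib.MP_ef3f0f_gt.U.S.Spec

/-!
# MP_ef3f0f_gt, Theorem U: a Banach fixed point (`S_BF`)
-/

set_option autoImplicit false

namespace Pool.Agent.MPEF.U.S

private theorem BF_lo {n : ℕ} {T : Matrix (Fin n) (Fin n) ℝ} {r : ℝ} (hr : 0 ≤ r)
    (h : ∀ i j, |T i j| ≤ r) : ∀ i j, |lo T i j| ≤ r := by
  intro i j
  unfold lo
  rw [Matrix.of_apply]
  split_ifs
  · exact h i j
  · simpa using hr

private theorem BF_up {n : ℕ} {T : Matrix (Fin n) (Fin n) ℝ} {r : ℝ} (hr : 0 ≤ r)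
    (h : ∀ i j, |T i j| ≤ r) : ∀ i j, |up T i j| ≤ r := by
  intro i j
  unfold up
  rw [Matrix.of_apply]
  split_ifs
  · simpa using hr
  · exact h i j

private theorem BF_mul {n : ℕ} {X Y : Matrix (Fin n) (Fin n) ℝ} {r t : ℝ} (hr : 0 ≤ r)
    (hX : ∀ i j, |X i j| ≤ r) (hY : ∀ i j, |Y i j| ≤ t) : ∀ i j, |(X * Y) i j| ≤ n * (r * t) := by
  intro i j
  rw [Matrix.mul_apply]
  calc |∑ k, X i k * Y k j| ≤ ∑ k, |X i k * Y k j| := Finset.abs_sum_le_sum_abs _ _
    _ ≤ ∑ _k : Fin n, r * t := by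
      refine Finset.sum_le_sum fun k _ => ?_
      rw [abs_mul]
      exact mul_le_mul (hX i k) (hY k j) (abs_nonneg _) hr
    _ = n * (r * t) := by simp

private theorem BF_lin {n : ℕ} (Λ : Matrix (Fin n) (Fin n) ℝ →ₗ[ℝ] Matrix (Fin n) (Fin n) ℝ)
    {δ : ℝ} (hΛ : ∀ X, (∀ i j, |X i j| ≤ 1) → ∀ i j, |Λ X i j| ≤ δ) {X : Matrix (Fin n) (Fin n) ℝ}
    {r : ℝ} (hr : 0 ≤ r) (hX : ∀ i j, |X i j| ≤ r) : ∀ i j, |Λ X i j| ≤ r * δ := by
  intro i j
  rcases hr.eq_or_lt with h0 | h0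
  · have h1 : X = 0 := by
      ext i j
      have := hX i j
      rw [← h0] at this
      exact abs_nonpos_iff.1 this
    rw [h1, map_zero, ← h0]
    simp
  · have h1 := hΛ (r⁻¹ • X) (fun i j => by
      rw [Matrix.smul_apply, smul_eq_mul, abs_mul, abs_inv, abs_of_pos h0, inv_mul_le_iff₀ h0, mul_one]
      exact hX i j) i j
    rw [map_smul, Matrix.smul_apply, smul_eq_mul, abs_mul, abs_inv, abs_of_pos h0,
      inv_mul_le_iff₀ h0] at h1
    exact h1

private theorem BF_sub {n : ℕ} (T T' : Matrix (Fin n) (Fin n) ℝ) :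
    lo T * up T - lo T' * up T' = lo (T - T') * up T + lo T' * up (T - T') := by
  have h1 : lo (T - T') = lo T - lo T' := by
    ext i j
    simp only [lo, Matrix.of_apply, Matrix.sub_apply]
    split_ifs <;> simp
  have h2 : up (T - T') = up T - up T' := by
    ext i j
    simp only [up, Matrix.of_apply, Matrix.sub_apply]
    split_ifs <;> simp
  rw [h1, h2, Matrix.sub_mul, Matrix.mul_sub]
  abel

private theorem BF_los {n : ℕ} (T T' : Matrix (Fin n) (Fin n) ℝ) :
    lo T - lo T' = lo (T - T') := by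
  ext i j
  simp only [lo, Matrix.of_apply, Matrix.sub_apply]
  split_ifs <;> simp

/-- The fixed point. -/
theorem tBF : S_BF := by
  intro n η hη
  obtain ⟨η', hη'⟩ : ∃ η' : ℝ, η' = min η (1 / (8 * ((n : ℝ) + 1))) := ⟨_, rfl⟩
  have hn : (0 : ℝ) < 8 * ((n : ℝ) + 1) := by positivity
  have h0 : 0 < η' := by
    rw [hη']
    exact lt_min hη (by positivity)
  have h1 : η' ≤ η := by
    rw [hη']
    exact min_le_left _ _
  have h2 : (n : ℝ) * η' ≤ 1 / 8 := by
    have h3 : η' ≤ 1 / (8 * ((n : ℝ) + 1)) := by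
      rw [hη']
      exact min_le_right _ _
    rw [le_div_iff₀ hn] at h3
    nlinarith
  have h2' : η' ≤ 1 / 8 := by
    have h3 : η' ≤ 1 / (8 * ((n : ℝ) + 1)) := by
      rw [hη']
      exact min_le_right _ _
    rw [le_div_iff₀ hn] at h3
    have : (0 : ℝ) ≤ (n : ℝ) * η' := by positivity
    nlinarith
  refine ⟨η' / 4, by positivity, fun e Λ he hΛ => ?_⟩
  let f : (Fin n → Fin n → ℝ) → (Fin n → Fin n → ℝ) := fun T =>
    (e + Λ (lo (Matrix.of T)) - lo (Matrix.of T) * up (Matrix.of T) : Matrix (Fin n) (Fin n) ℝ)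
  have hnorm : ∀ (T : Fin n → Fin n → ℝ) (r : ℝ), 0 ≤ r → (‖T‖ ≤ r ↔ ∀ i j, |T i j| ≤ r) := by
    intro T r hr
    rw [pi_norm_le_iff_of_nonneg hr]
    refine forall_congr' fun i => ?_
    rw [pi_norm_le_iff_of_nonneg hr]
    simp only [Real.norm_eq_abs]
  have hmaps : Set.MapsTo f (Metric.closedBall 0 η') (Metric.closedBall 0 η') := by
    intro T hT
    rw [mem_closedBall_zero_iff, hnorm _ _ h0.le] at hT ⊢
    intro i j
    have a1 := he i j
    have a2 := BF_lin Λ hΛ h0.le (BF_lo (T := Matrix.of T) h0.le hT) i j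
    have a3 := BF_mul h0.le (BF_lo (T := Matrix.of T) h0.le hT) (BF_up (T := Matrix.of T) h0.le hT) i j
    show |e i j + Λ (lo (Matrix.of T)) i j - (lo (Matrix.of T) * up (Matrix.of T)) i j| ≤ η'
    have a4 : |e i j + Λ (lo (Matrix.of T)) i j - (lo (Matrix.of T) * up (Matrix.of T)) i j| ≤
        |e i j| + |Λ (lo (Matrix.of T)) i j| + |(lo (Matrix.of T) * up (Matrix.of T)) i j| :=
      (abs_sub _ _).trans (add_le_add_left (abs_add_le _ _) _)
    have a5 : (n : ℝ) * (η' * η') ≤ 1 / 8 * η' := by nlinarith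
    nlinarith
  have hlip : ∀ T ∈ Metric.closedBall (0 : Fin n → Fin n → ℝ) η', ∀ T' ∈ Metric.closedBall
      (0 : Fin n → Fin n → ℝ) η', dist (f T) (f T') ≤ 1 / 2 * dist T T' := by
    intro T hT T' hT'
    rw [mem_closedBall_zero_iff, hnorm _ _ h0.le] at hT hT'
    obtain ⟨r, hr⟩ : ∃ r, r = dist T T' := ⟨_, rfl⟩
    have hr0 : 0 ≤ r := by
      rw [hr]
      exact dist_nonneg
    have hrd : ∀ i j, |(Matrix.of T - Matrix.of T') i j| ≤ r := by
      have := (hnorm (T - T') r hr0).1 (by rw [hr, dist_eq_norm])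
      exact this
    rw [← hr, dist_eq_norm, hnorm _ _ (by positivity)]
    intro i j
    have a2 := BF_lin Λ hΛ hr0 (BF_lo hr0 hrd) i j
    have a3 := BF_mul hr0 (BF_lo hr0 hrd) (BF_up (T := Matrix.of T) h0.le hT) i j
    have a4 := BF_mul h0.le (BF_lo (T := Matrix.of T') h0.le hT') (BF_up hr0 hrd) i j
    have e1 : (f T - f T') i j = Λ (lo (Matrix.of T - Matrix.of T')) i j -
        ((lo (Matrix.of T - Matrix.of T') * up (Matrix.of T)) i j +
          (lo (Matrix.of T') * up (Matrix.of T - Matrix.of T')) i j) := by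
      have eL : Λ (lo (Matrix.of T - Matrix.of T')) =
          Λ (lo (Matrix.of T)) - Λ (lo (Matrix.of T')) := by
        rw [← BF_los, map_sub]
      have e2 := congrFun (congrFun (BF_sub (Matrix.of T) (Matrix.of T')) i) j
      rw [Matrix.sub_apply, Matrix.add_apply] at e2
      show (e i j + Λ (lo (Matrix.of T)) i j - (lo (Matrix.of T) * up (Matrix.of T)) i j) -
        (e i j + Λ (lo (Matrix.of T')) i j - (lo (Matrix.of T') * up (Matrix.of T')) i j) = _
      rw [← e2, eL, Matrix.sub_apply]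
      ring
    rw [e1]
    have a5 : |Λ (lo (Matrix.of T - Matrix.of T')) i j -
        ((lo (Matrix.of T - Matrix.of T') * up (Matrix.of T)) i j +
          (lo (Matrix.of T') * up (Matrix.of T - Matrix.of T')) i j)| ≤
        |Λ (lo (Matrix.of T - Matrix.of T')) i j| +
        (|(lo (Matrix.of T - Matrix.of T') * up (Matrix.of T)) i j| +
          |(lo (Matrix.of T') * up (Matrix.of T - Matrix.of T')) i j|) :=
      (abs_sub _ _).trans (add_le_add_right (abs_add_le _ _) _)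
    have a6 : (n : ℝ) * (r * η') ≤ 1 / 8 * r := by nlinarith
    have a7 : (n : ℝ) * (η' * r) ≤ 1 / 8 * r := by nlinarith
    nlinarith
  have hcon : ContractingWith (1 / 2) (hmaps.restrict f _ _) := by
    refine ⟨by norm_num, LipschitzWith.of_dist_le_mul fun x y => ?_⟩
    have h5 := hlip x.1 x.2 y.1 y.2
    rw [Subtype.dist_eq, Subtype.dist_eq]
    have h6 : ((1 / 2 : NNReal) : ℝ) = 1 / 2 := by norm_num
    rw [h6]
    exact h5
  obtain ⟨T, hT, hfix, _⟩ := hcon.exists_fixedPoint' (Metric.isClosed_closedBall.isComplete) hmaps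
    (x := 0) (by simp [h0.le]) (edist_ne_top _ _)
  rw [mem_closedBall_zero_iff, hnorm _ _ h0.le] at hT
  exact ⟨Matrix.of T, fun i j => (hT i j).trans h1, hfix.symm⟩

end Pool.Agent.MPEF.U.S
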