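import Pool.Agent.Lib.MP_ef3f0f_gt.U.S.Spec

set_option autoImplicit false

namespace Pool.Agent.MPEF.U.S

open Matrix Topology
open scoped Pointwise

theorem tBlk : S_Blk := by
  intro n i j f hij
  obtain ⟨G, hG⟩ : ∃ G : Sq n, G = app i (cl (1 : Matrix (Fin n) (Fin n) ℝ))
    (app j f fun s => cl (1 : Matrix (Fin n) (Fin n) ℝ) (s + i + j)) := ⟨_, rfl⟩
  rw [← hG]
  have hout : ∀ s : Fin n, ¬ (i ≤ (s : ℕ) ∧ (s : ℕ) < i + j) → ∀ r : Fin n,
      G s r = if r = s then 1 else 0 := by
    intro s hs r
    have h1 : G s r = cl (1 : Matrix (Fin n) (Fin n) ℝ) (s : ℕ) r := by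
      rw [hG]
      rcases lt_or_ge (s : ℕ) i with h | h
      · rw [app_lt _ _ h]
      · have h2 : i + j ≤ (s : ℕ) := by
          by_contra hc
          exact hs ⟨h, not_le.1 hc⟩
        rw [app_ge _ _ h, app_ge _ _ (by omega)]
        congr 1
        congr 1
        omega
    rw [h1, cl_lt _ s.2, Matrix.one_apply]
  have hin : ∀ s : Fin n, i ≤ (s : ℕ) → (s : ℕ) < i + j → ∀ r : Fin n, G s r = f (s - i) r := by
    intro s h1 h2 r
    rw [hG, app_ge _ _ h1, app_lt _ _ (by omega)]
  unfold D
  let p : Fin n → Prop := fun s => i ≤ (s : ℕ) ∧ (s : ℕ) < i + j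
  have hdec : DecidablePred p := fun s => inferInstanceAs (Decidable (_ ∧ _))
  rw [Matrix.twoBlockTriangular_det (Matrix.of fun s r : Fin n => G s r) p (by
    intro s hs r hr
    rw [Matrix.of_apply, hout s hs r, if_neg]
    rintro rfl
    exact hs hr)]
  have h1 : Matrix.toSquareBlockProp (Matrix.of fun s r : Fin n => G s r) (fun s => ¬ p s) = 1 := by
    ext s r
    rw [Matrix.toSquareBlockProp_def, Matrix.of_apply, Matrix.of_apply, hout s.1 s.2 r.1,
      Matrix.one_apply]
    by_cases h : s = r
    · rw [if_pos h, if_pos (congrArg Subtype.val h.symm)]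
    · rw [if_neg h, if_neg fun h2 => h (Subtype.ext h2.symm)]
  rw [h1, Matrix.det_one, mul_one]
  let e : Fin j ≃ {s : Fin n // p s} :=
    { toFun := fun r => ⟨⟨i + r, by omega⟩, by simp only [p]; omega⟩
      invFun := fun s => ⟨(s.1 : ℕ) - i, by
        have := s.2
        simp only [p] at this
        omega⟩
      left_inv := fun r => by
        apply Fin.ext
        simp
      right_inv := fun s => by
        have := s.2
        simp only [p] at this
        apply Subtype.ext
        apply Fin.ext
        simp only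
        omega }
  rw [← Matrix.det_submatrix_equiv_self e, ← Matrix.det_transpose]
  congr 1
  ext r s
  have hr : i + (r : ℕ) < n := by omega
  rw [Matrix.transpose_apply, Matrix.submatrix_apply, Matrix.toSquareBlockProp_def,
    Matrix.of_apply, Matrix.of_apply, Matrix.of_apply, dif_pos hr,
    hin (e s).1 (e s).2.1 (e s).2.2 (e r).1]
  have h2 : (((e s).1 : Fin n) : ℕ) - i = s := Nat.add_sub_cancel_left i s
  rw [h2]
  rfl

end Pool.Agent.MPEF.U.S
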