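import Pool.Agent.Lib.MP_ef3f0f_gt.U.S.Spec

/-!
# MP_ef3f0f_gt, Theorem U, `SL_n(ℝ)`: contraction
-/

set_option autoImplicit false

namespace Pool.Agent.MPEF.U.S

open Matrix Topology
open scoped Pointwise

/-- A closed neighbourhood of `1`. -/
private def CTW (m : ℕ) : Set (P m) := {g | ∀ i j, |g.1 i j - (1 : P m).1 i j| ≤ 1}

private theorem CT_emb (m : ℕ) : Topology.IsClosedEmbedding (fun g : P m => g.1) := by
  have h : IsClosed {M : Matrix (Fin (2 * m + 1)) (Fin (2 * m + 1)) ℝ | M.det = 1} :=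
    isClosed_eq (Continuous.matrix_det continuous_id) continuous_const
  exact h.isClosedEmbedding_subtypeVal

private theorem CT_compact (m : ℕ) : IsCompact (CTW m) := by
  have h1 : IsCompact (Set.pi Set.univ fun i : Fin (2 * m + 1) =>
      Set.pi Set.univ fun j : Fin (2 * m + 1) => Metric.closedBall ((1 : P m).1 i j) 1) :=
    isCompact_univ_pi fun i => isCompact_univ_pi fun j => isCompact_closedBall _ _
  have h2 := (CT_emb m).isCompact_preimage h1
  have h3 : CTW m = (fun g : P m => g.1) ⁻¹' (Set.pi Set.univ fun i : Fin (2 * m + 1) =>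
      Set.pi Set.univ fun j : Fin (2 * m + 1) => Metric.closedBall ((1 : P m).1 i j) 1) := by
    refine Set.ext fun g => ⟨fun hg i _ j _ => ?_, fun hg i j => ?_⟩
    · have h4 := hg i j
      rw [← Real.dist_eq] at h4
      exact h4
    · have h4 := hg i trivial j trivial
      have h5 : dist (g.1 i j) ((1 : P m).1 i j) ≤ 1 := h4
      rw [Real.dist_eq] at h5
      exact h5
  rw [h3]
  exact h2

private theorem CT_nhds (m : ℕ) : CTW m ∈ 𝓝 (1 : P m) := by
  have h : ∀ i j, ∀ᶠ g : P m in 𝓝 1, |g.1 i j - (1 : P m).1 i j| ≤ 1 := by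
    intro i j
    have h1 : Continuous fun g : P m => |g.1 i j - (1 : P m).1 i j| := by
      have h2 : Continuous fun g : P m => g.1 i j := (CT_emb m).continuous.matrix_elem i j
      exact (h2.sub continuous_const).abs
    have h2 := h1.tendsto 1
    rw [sub_self, abs_zero] at h2
    exact (h2.eventually (gt_mem_nhds one_pos)).mono fun g hg => hg.le
  have h' : ∀ᶠ g : P m in 𝓝 1, ∀ i j, |g.1 i j - (1 : P m).1 i j| ≤ 1 := by
    rw [Filter.eventually_all]
    intro i
    rw [Filter.eventually_all]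
    exact h i
  exact h'

theorem tCT (hLUn : S_LUn) (hSq : S_Sq) (hEl : S_El) : S_CT := by
  intro m q hq U hU
  have _ := hEl
  have hA : ∀ g ∈ A m, g ∈ Bor m := fun g hg => ⟨fun i j h => hg.1 i j h.ne', hg.2⟩
  have hN : ∀ g ∈ Np m, g ∈ Bor m := fun g hg => ⟨hg.1, fun i => by rw [hg.2 i]; exact one_pos⟩
  obtain ⟨x₀, hx₀, α₀, hα₀, u₀, hu₀, -, h⟩ := (hLUn m).2 q hq
  obtain ⟨V, hV, hV2⟩ := h (CTW m) (CT_nhds m)
  have hK : IsCompact ((fun x => x₀ * x) '' CTW m) :=
    (CT_compact m).image (continuous_const.mul continuous_id)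
  obtain ⟨k, hk⟩ := (hSq m U hU).2 _ hK
  refine ⟨V, hV, k, fun s hs v hv v' hv' => ?_⟩
  obtain ⟨x, hx, α, hα, u, hu, hxW, -, -, he⟩ := hV2 v hv v' hv'
  refine ⟨s * (x₀ * x) * s⁻¹, (hk s hs).1 _ (mul_mem hx₀ hx) ⟨x, hxW, rfl⟩,
    s * (α * α₀) * (u * u₀), ?_, ?_⟩
  · exact mul_mem (mul_mem (hA s hs.1) (mul_mem (hA α hα) (hA α₀ hα₀)))
      (mul_mem (hN u hu) (hN u₀ hu₀))
  · rw [he]
    group

end Pool.Agent.MPEF.U.S
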