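import Pool.Agent.Lib.MP_ef3f0f_gt.U.S.Spec

set_option autoImplicit false

/-!
# MP_ef3f0f_gt, Theorem U, module D1: the compact neighbourhood `D1` of `1` in `A`
-/

namespace Pool.Agent.MPEF.U.S

open Matrix Topology
open scoped Pointwise

private theorem D1_diag {m : ℕ} {g : P m} (hg : g ∈ A m) :
    g.1 = Matrix.diagonal fun i => g.1 i i := by
  ext i j
  by_cases h : i = j
  · rw [h, Matrix.diagonal_apply_eq]
  · rw [Matrix.diagonal_apply_ne _ h, hg.1 i j h]

private theorem D1_prod {m : ℕ} {g : P m} (hg : g ∈ A m) : ∏ i, g.1 i i = 1 := by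
  have h := g.2
  rw [D1_diag hg, Matrix.det_diagonal] at h
  exact h

private theorem D1_sum {m : ℕ} {g : P m} (hg : g ∈ A m) : ∑ i, Real.log (g.1 i i) = 0 := by
  rw [← Real.log_prod (fun i _ => (hg.2 i).ne'), D1_prod hg, Real.log_one]

private theorem D1_ext {m : ℕ} {g h : P m} (hg : g ∈ A m) (hh : h ∈ A m)
    (he : ∀ i, g.1 i i = h.1 i i) : g = h := by
  apply Subtype.ext
  rw [D1_diag hg, D1_diag hh]
  congr 1
  funext i
  exact he i

private noncomputable def D1_E {m : ℕ} (x : Fin (2 * m + 1) → ℝ) (hx : ∑ i, x i = 0) : P m :=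
  dg m (fun i => Real.exp (x i)) (by rw [← Real.exp_sum, hx, Real.exp_zero])

private theorem D1_E_diag {m : ℕ} (x : Fin (2 * m + 1) → ℝ) (hx : ∑ i, x i = 0)
    (i : Fin (2 * m + 1)) : (D1_E x hx).1 i i = Real.exp (x i) :=
  Matrix.diagonal_apply_eq _ i

private theorem D1_E_mem {m : ℕ} (x : Fin (2 * m + 1) → ℝ) (hx : ∑ i, x i = 0) :
    D1_E x hx ∈ A m :=
  ⟨fun _ _ h => Matrix.diagonal_apply_ne _ h, fun i => by
    rw [D1_E_diag]
    exact Real.exp_pos _⟩

private theorem D1_E_log {m : ℕ} {g : P m} (hg : g ∈ A m) :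
    D1_E (fun i => Real.log (g.1 i i)) (D1_sum hg) = g := by
  refine D1_ext (D1_E_mem _ _) hg fun i => ?_
  rw [D1_E_diag, Real.exp_log (hg.2 i)]

private theorem D1_pow {m : ℕ} {g : P m} (hg : g ∈ A m) (k : ℕ) (i : Fin (2 * m + 1)) :
    (g ^ k).1 i i = g.1 i i ^ k := by
  have h1 : (g ^ k).1 = g.1 ^ k := Matrix.SpecialLinearGroup.coe_pow g k
  rw [h1]
  conv_lhs => rw [D1_diag hg]
  rw [Matrix.diagonal_pow, Matrix.diagonal_apply_eq]
  rfl

private theorem D1_compact (m : ℕ) : IsCompact (D1 m) := by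
  have hS : IsCompact {x : Fin (2 * m + 1) → ℝ | (∀ i, x i ∈ Set.Icc (-1 : ℝ) 1) ∧
      ∑ i, x i = 0} := by
    have h1 : IsCompact (Set.univ.pi fun _ : Fin (2 * m + 1) => Set.Icc (-1 : ℝ) 1) :=
      isCompact_univ_pi fun _ => isCompact_Icc
    have h2 : IsClosed {x : Fin (2 * m + 1) → ℝ | ∑ i, x i = 0} :=
      isClosed_eq (continuous_finsetSum _ fun i _ => continuous_apply i) continuous_const
    refine (h1.inter_right h2).of_isClosed_subset ?_ ?_
    · have h3 : {x : Fin (2 * m + 1) → ℝ | (∀ i, x i ∈ Set.Icc (-1 : ℝ) 1) ∧ ∑ i, x i = 0} =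
          (Set.univ.pi fun _ : Fin (2 * m + 1) => Set.Icc (-1 : ℝ) 1) ∩
            {x : Fin (2 * m + 1) → ℝ | ∑ i, x i = 0} := by
        ext x
        constructor
        · intro hx
          exact ⟨fun i _ => hx.1 i, hx.2⟩
        · intro hx
          exact ⟨fun i => hx.1 i (Set.mem_univ i), hx.2⟩
      rw [h3]
      exact (h1.inter_right h2).isClosed
    · intro x hx
      exact ⟨fun i _ => hx.1 i, hx.2⟩
  obtain ⟨S, hSd⟩ : ∃ S : Set (Fin (2 * m + 1) → ℝ),
      S = {x | (∀ i, x i ∈ Set.Icc (-1 : ℝ) 1) ∧ ∑ i, x i = 0} := ⟨_, rfl⟩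
  rw [← hSd] at hS
  have hS1 : ∀ x ∈ S, (∀ i, x i ∈ Set.Icc (-1 : ℝ) 1) ∧ ∑ i, x i = 0 := by
    intro x hx
    rw [hSd] at hx
    exact hx
  have : CompactSpace S := isCompact_iff_compactSpace.1 hS
  have hsum : ∀ x : S, ∑ i, x.1 i = 0 := fun x => (hS1 x.1 x.2).2
  have hf : Continuous (fun x : S => (D1_E x.1 (hsum x) : P m)) := by
    refine Continuous.subtype_mk ?_ _
    refine Continuous.matrix_diagonal ?_
    refine continuous_pi fun i => ?_
    exact Real.continuous_exp.comp ((continuous_apply i).comp continuous_subtype_val)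
  have hr := isCompact_range hf
  have he : Set.range (fun x : S => (D1_E x.1 (hsum x) : P m)) = D1 m := by
    ext g
    constructor
    · rintro ⟨x, rfl⟩
      refine ⟨D1_E_mem _ _, fun i => ?_⟩
      rw [D1_E_diag, Real.log_exp, abs_le]
      exact (hS1 x.1 x.2).1 i
    · intro hg
      refine ⟨⟨fun i => Real.log (g.1 i i), ?_⟩, D1_E_log hg.1⟩
      rw [hSd]
      exact ⟨fun i => abs_le.1 (hg.2 i), D1_sum hg.1⟩
  rw [← he]
  exact hr

theorem tD1 (hEl : S_El) : S_D1 := by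
  intro m
  obtain ⟨-, hw, -, hwA, -, -, -, -, -, -, -, -, -, -, hinv, -⟩ := hEl m
  refine ⟨fun g hg => hg.1, D1_compact m, ?_, ?_, ?_, ?_, ?_⟩
  · refine ⟨(A m).one_mem, fun i => ?_⟩
    have h1 : (1 : P m).1 i i = 1 := Matrix.one_apply_eq i
    rw [h1, Real.log_one, abs_zero]
    exact zero_le_one
  · intro d hd
    refine ⟨(A m).inv_mem hd.1, fun i => ?_⟩
    rw [hinv d hd.1 i, Real.log_inv, abs_neg]
    exact hd.2 i
  · intro d hd
    refine ⟨hwA d hd.1, fun i => ?_⟩
    rw [hw d i i, Even.neg_one_pow ⟨(i : ℕ), rfl⟩, one_mul]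
    exact hd.2 i.rev
  · intro d hd
    obtain ⟨R, hR⟩ := exists_nat_ge (∑ i, |Real.log (d.1 i i)|)
    have hRp : (0 : ℝ) < (R + 1 : ℕ) := by positivity
    have hs : ∑ i, Real.log (d.1 i i) / (R + 1 : ℕ) = 0 := by
      rw [← Finset.sum_div, D1_sum hd, zero_div]
    have hmem : D1_E (m := m) (fun i => Real.log (d.1 i i) / (R + 1 : ℕ)) hs ∈ D1 m := by
      refine ⟨D1_E_mem _ _, fun i => ?_⟩
      rw [D1_E_diag, Real.log_exp, abs_div, abs_of_pos hRp, div_le_one hRp]
      have h2 := Finset.single_le_sum (f := fun i => |Real.log (d.1 i i)|)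
        (fun j _ => abs_nonneg _) (Finset.mem_univ i)
      have h3 : |Real.log (d.1 i i)| ≤ ∑ i, |Real.log (d.1 i i)| := h2
      push_cast
      linarith
    refine ⟨R + 1, ?_⟩
    have he : D1_E (m := m) (fun i => Real.log (d.1 i i) / (R + 1 : ℕ)) hs ^ (R + 1) = d := by
      refine D1_ext ((A m).pow_mem (D1_E_mem _ _) _) hd fun i => ?_
      rw [D1_pow (D1_E_mem _ _), D1_E_diag, ← Real.exp_nat_mul]
      rw [mul_div_cancel₀ _ hRp.ne', Real.exp_log (hd.2 i)]
    rw [← he]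
    exact Set.pow_mem_pow hmem
  · refine ⟨{g : P m | ∀ i, |g.1 i i - 1| < 1 / 4}, ?_, ?_⟩
    · have hopen : IsOpen {g : P m | ∀ i, |g.1 i i - 1| < 1 / 4} := by
        have h3 : {g : P m | ∀ i, |g.1 i i - 1| < 1 / 4} =
            ⋂ i : Fin (2 * m + 1), {g : P m | |g.1 i i - 1| < 1 / 4} := by
          ext g
          simp
        rw [h3]
        refine isOpen_iInter_of_finite fun i => ?_
        refine isOpen_lt ?_ continuous_const
        refine continuous_abs.comp (Continuous.sub ?_ continuous_const)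
        exact (continuous_apply_apply i i).comp continuous_subtype_val
      refine hopen.mem_nhds fun i => ?_
      have h1 : (1 : P m).1 i i = 1 := Matrix.one_apply_eq i
      rw [h1]
      norm_num
    · rintro g ⟨hg, hA⟩
      refine ⟨hA, fun i => ?_⟩
      have h1 := abs_lt.1 (hg i)
      have h2 := hA.2 i
      have h3 := Real.log_le_sub_one_of_pos h2
      have h4 := Real.one_sub_inv_le_log_of_pos h2
      have h5 : (g.1 i i)⁻¹ ≤ 2 := by
        rw [inv_le_comm₀ h2 (by norm_num)]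
        linarith [h1.1]
      rw [abs_le]
      constructor
      · linarith
      · linarith [h1.2]

end Pool.Agent.MPEF.U.S
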