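import Pool.Agent.Lib.MP_ef3f0f_gt.U.S.Spec

/-! # MP_ef3f0f_gt, Theorem U: the sets `Dp k` (author helper94) -/

set_option autoImplicit false

namespace Pool.Agent.MPEF.U.S

open Matrix Topology
open scoped Pointwise

private theorem Dp_mul {m : ℕ} {g : P m} (hg : g ∈ A m) (h : P m) (i : Fin (2 * m + 1)) :
    (g * h).1 i i = g.1 i i * h.1 i i := by
  rw [Matrix.SpecialLinearGroup.coe_mul, Matrix.mul_apply]
  refine Finset.sum_eq_single i (fun k _ hk => ?_) (fun hi => absurd (Finset.mem_univ i) hi)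
  rw [hg.1 i k (Ne.symm hk), zero_mul]

private theorem Dp_one {m : ℕ} (i : Fin (2 * m + 1)) : (1 : P m).1 i i = 1 := by simp

private theorem Dp_D1 {m : ℕ} (R : ℕ) : ∀ d ∈ D1 m ^ R, d ∈ A m ∧ ∀ i, |Real.log (d.1 i i)| ≤ R := by
  induction R with
  | zero =>
    intro d hd
    rw [pow_zero, Set.mem_one] at hd
    rw [hd]
    refine ⟨one_mem _, fun i => ?_⟩
    rw [Dp_one, Real.log_one]
    simp
  | succ R ih =>
    intro d hd
    rw [pow_succ, Set.mem_mul] at hd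
    obtain ⟨x, hx, y, hy, rfl⟩ := hd
    obtain ⟨h1, h2⟩ := ih x hx
    obtain ⟨h3, h4⟩ := hy
    refine ⟨mul_mem h1 h3, fun i => ?_⟩
    rw [Dp_mul h1, Real.log_mul (h1.2 i).ne' (h3.2 i).ne']
    refine (abs_add_le _ _).trans ?_
    push_cast
    exact add_le_add (h2 i) (h4 i)

private theorem Dp_exp : Real.exp 2 ≤ 8 := by
  have h1 : Real.exp 2 = Real.exp 1 * Real.exp 1 := by
    rw [← Real.exp_add]
    norm_num
  have h2 := Real.exp_one_lt_d9
  have h3 := Real.exp_pos 1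
  rw [h1]
  nlinarith

theorem tDp (hEl : S_El) (_hD1 : S_D1) : S_Dp := by
  intro m
  obtain ⟨-, hw, -, hwA, -, -, -, haA, -, -, -, -, -, -, hinv, -, -, -⟩ := hEl m
  have hone : (1 : P m) ∈ Dp m 0 := by
    refine ⟨one_mem _, fun i j _ => ?_⟩
    rw [Dp_one, Dp_one]
    norm_num
  have hmul : ∀ k l, ∀ s ∈ Dp m k, ∀ s' ∈ Dp m l, s * s' ∈ Dp m (k + l) := by
    rintro k l s ⟨h1, h2⟩ s' ⟨h3, h4⟩
    refine ⟨mul_mem h1 h3, fun i j hij => ?_⟩
    rw [Dp_mul h1, Dp_mul h1, pow_add]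
    have h5 := mul_le_mul (h2 i j hij) (h4 i j hij) (mul_nonneg (by positivity) (h3.2 j).le)
      (h1.2 i).le
    calc (2 : ℝ) ^ k * 2 ^ l * (s.1 j j * s'.1 j j) = 2 ^ k * s.1 j j * (2 ^ l * s'.1 j j) := by ring
      _ ≤ _ := h5
  refine ⟨fun k s hs => hs.1, hone, ?_, hmul, ?_, ?_, ?_⟩
  · rintro k s ⟨h1, h2⟩
    refine ⟨h1, fun i j hij => (le_trans ?_ (h2 i j hij))⟩
    refine mul_le_mul_of_nonneg_right ?_ (h1.2 j).le
    exact pow_le_pow_right₀ (by norm_num) (Nat.le_succ k)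
  · rintro k s ⟨h1, h2⟩
    refine ⟨hwA _ (inv_mem h1), fun i j hij => ?_⟩
    have h3 : ∀ l : Fin (2 * m + 1), (w m * s⁻¹ * w m).1 l l = (s.1 l.rev l.rev)⁻¹ := by
      intro l
      rw [hw, hinv s h1, ← two_mul, pow_mul]
      norm_num
    rw [h3, h3]
    have h4 : j.rev < i.rev := Fin.rev_lt_rev.2 hij
    have h5 := h2 j.rev i.rev h4
    have h6 := h1.2 j.rev
    have h7 := h1.2 i.rev
    rw [← div_eq_mul_inv, inv_eq_one_div, div_le_div_iff₀ h6 h7, one_mul]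
    exact h5
  · have ha : a m ∈ Dp m 1 := by
      refine ⟨haA, fun i j hij => ?_⟩
      have h3 : ∀ l : Fin (2 * m + 1), (a m).1 l l = (2 : ℝ) ^ ((m : ℤ) - (l : ℕ)) := fun l =>
        Matrix.diagonal_apply_eq _ l
      rw [h3, h3, pow_one, ← zpow_one_add₀ (by norm_num)]
      refine zpow_le_zpow_right₀ (by norm_num) ?_
      have : (i : ℕ) < j := hij
      omega
    intro n
    induction n with
    | zero =>
      rw [pow_zero]
      exact hone
    | succ n ih =>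
      rw [pow_succ]
      exact hmul n 1 _ ih _ ha
  · intro R
    refine ⟨3 * R, ?_⟩
    rintro k s ⟨h1, h2⟩ d hd
    obtain ⟨h3, h4⟩ := Dp_D1 R d hd
    refine ⟨mul_mem h1 h3, fun i j hij => ?_⟩
    rw [Dp_mul h1, Dp_mul h1]
    have h5 : d.1 j j ≤ 8 ^ R * d.1 i i := by
      have h6 := abs_le.1 (h4 i)
      have h7 := abs_le.1 (h4 j)
      have h8 : Real.log (d.1 j j) ≤ Real.log (8 ^ R * d.1 i i) := by
        rw [Real.log_mul (by positivity) (h3.2 i).ne', Real.log_pow]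
        have h9 : (2 : ℝ) ≤ Real.log 8 := by
          rw [Real.le_log_iff_exp_le (by norm_num)]
          exact Dp_exp
        have h10 : (R : ℝ) * 2 ≤ R * Real.log 8 := mul_le_mul_of_nonneg_left h9 (Nat.cast_nonneg R)
        linarith [h6.1, h7.2]
      exact (Real.log_le_log_iff (h3.2 j) (mul_pos (by positivity) (h3.2 i))).1 h8
    have h6 := h2 i j hij
    have h7 : (2 : ℝ) ^ (k + 3 * R) = 2 ^ k * 8 ^ R := by
      rw [pow_add, pow_mul]
      norm_num
    rw [h7] at h6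
    calc (2 : ℝ) ^ k * (s.1 j j * d.1 j j) = 2 ^ k * s.1 j j * d.1 j j := by ring
      _ ≤ 2 ^ k * s.1 j j * (8 ^ R * d.1 i i) :=
        mul_le_mul_of_nonneg_left h5 (mul_nonneg (by positivity) (h1.2 j).le)
      _ = 2 ^ k * 8 ^ R * s.1 j j * d.1 i i := by ring
      _ ≤ s.1 i i * d.1 i i := mul_le_mul_of_nonneg_right h6 (h3.2 i).le

end Pool.Agent.MPEF.U.S
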