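import Pool.Agent.Lib.MP_ef3f0f_gt.U.S.Spec

/-!
# MP_ef3f0f_gt, Theorem U: the attracting flag (`S_Fix`)
-/

set_option autoImplicit false

namespace Pool.Agent.MPEF.U.S

open Matrix Topology
open scoped Pointwise

private theorem Fix_mul {n : ℕ} {X Y : Matrix (Fin n) (Fin n) ℝ} {r t : ℝ} (hr : 0 ≤ r)
    (hX : ∀ i j, |X i j| ≤ r) (hY : ∀ i j, |Y i j| ≤ t) : ∀ i j, |(X * Y) i j| ≤ n * (r * t) := by
  intro i j
  rw [Matrix.mul_apply]
  calc |∑ k, X i k * Y k j| ≤ ∑ k, |X i k * Y k j| := Finset.abs_sum_le_sum_abs _ _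
    _ ≤ ∑ _k : Fin n, r * t := by
      refine Finset.sum_le_sum fun k _ => ?_
      rw [abs_mul]
      exact mul_le_mul (hX i k) (hY k j) (abs_nonneg _) hr
    _ = n * (r * t) := by simp

private theorem Fix_dl {m : ℕ} {s : P m} (hs : s ∈ A m)
    (M : Matrix (Fin (2 * m + 1)) (Fin (2 * m + 1)) ℝ) (i j : Fin (2 * m + 1)) :
    (s.1 * M) i j = s.1 i i * M i j := by
  rw [Matrix.mul_apply]
  refine (Finset.sum_eq_single i (fun k _ hk => ?_) (fun hi => absurd (Finset.mem_univ i) hi))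
  rw [hs.1 i k (Ne.symm hk), zero_mul]

private theorem Fix_dr {m : ℕ} {s : P m} (hs : s ∈ A m)
    (M : Matrix (Fin (2 * m + 1)) (Fin (2 * m + 1)) ℝ) (i j : Fin (2 * m + 1)) :
    (M * s.1) i j = M i j * s.1 j j := by
  rw [Matrix.mul_apply]
  refine (Finset.sum_eq_single j (fun k _ hk => ?_) (fun hi => absurd (Finset.mem_univ j) hi))
  rw [hs.1 k j hk, mul_zero]

private theorem Fix_inv {m : ℕ} {s : P m} (hs : s ∈ A m) (i : Fin (2 * m + 1)) :
    (s⁻¹).1 i i = (s.1 i i)⁻¹ := by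
  have h1 : (s * s⁻¹).1 i i = s.1 i i * (s⁻¹).1 i i := Fix_dl hs _ i i
  rw [mul_inv_cancel] at h1
  have h2 : ((1 : P m).1) i i = 1 := Matrix.one_apply_eq i
  rw [h2] at h1
  exact eq_inv_of_mul_eq_one_right h1.symm

private theorem Fix_cj {m : ℕ} {s : P m} (hs : s ∈ A m)
    (M : Matrix (Fin (2 * m + 1)) (Fin (2 * m + 1)) ℝ) (i j : Fin (2 * m + 1)) :
    (s.1 * M * (s⁻¹).1) i j = s.1 i i * M i j * (s.1 j j)⁻¹ := by
  rw [Fix_dr ((A m).inv_mem hs), Fix_dl hs, Fix_inv hs]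

private theorem Fix_sg {m k : ℕ} {s : P m} (hs : s ∈ Dp m k)
    {M : Matrix (Fin (2 * m + 1)) (Fin (2 * m + 1)) ℝ} {r : ℝ}
    (hM : ∀ i j, ¬ j < i → M i j = 0) (hr : ∀ i j, |M i j| ≤ r) (i j : Fin (2 * m + 1)) :
    |(s.1 * M * (s⁻¹).1) i j| ≤ ((2 : ℝ) ^ k)⁻¹ * r := by
  have hr0 : 0 ≤ r := (abs_nonneg _).trans (hr i j)
  rw [Fix_cj hs.1]
  by_cases h : j < i
  · have h1 := hs.2 j i h
    have h2 : 0 < s.1 i i := hs.1.2 i
    have h3 : 0 < s.1 j j := hs.1.2 j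
    have h4 : (0 : ℝ) < 2 ^ k := by positivity
    rw [abs_mul, abs_mul, abs_inv, abs_of_pos h2, abs_of_pos h3]
    have h5 : s.1 i i * (s.1 j j)⁻¹ ≤ ((2 : ℝ) ^ k)⁻¹ := by
      rw [← div_eq_mul_inv, div_le_iff₀ h3, inv_mul_eq_div, le_div_iff₀ h4, mul_comm]
      exact h1
    calc s.1 i i * |M i j| * (s.1 j j)⁻¹ = s.1 i i * (s.1 j j)⁻¹ * |M i j| := by ring
      _ ≤ ((2 : ℝ) ^ k)⁻¹ * r := mul_le_mul h5 (hr i j) (abs_nonneg _) (by positivity)
  · rw [hM i j h]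
    simp only [mul_zero, zero_mul, abs_zero]
    positivity

private theorem Fix_lolo {n : ℕ} (T : Matrix (Fin n) (Fin n) ℝ) : lo (lo T) = lo T := by
  ext i j
  simp only [lo, Matrix.of_apply]
  split_ifs <;> rfl

private theorem Fix_loup {n : ℕ} (T : Matrix (Fin n) (Fin n) ℝ) : lo T + up T = T := by
  ext i j
  simp only [lo, up, Matrix.of_apply, Matrix.add_apply]
  split_ifs <;> simp

/-- The linear map. -/
private noncomputable def FixL {n : ℕ} (F S S' X B : Matrix (Fin n) (Fin n) ℝ) :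
    Matrix (Fin n) (Fin n) ℝ →ₗ[ℝ] Matrix (Fin n) (Fin n) ℝ where
  toFun Z := F * (S * (X * lo Z) * S') * B
  map_add' Z Z' := by
    have h : lo (Z + Z') = lo Z + lo Z' := by
      ext i j
      simp only [lo, Matrix.of_apply, Matrix.add_apply]
      split_ifs <;> simp
    rw [h, Matrix.mul_add, Matrix.mul_add, Matrix.add_mul, Matrix.mul_add, Matrix.add_mul]
  map_smul' c Z := by
    have h : lo (c • Z) = c • lo Z := by
      ext i j
      simp only [lo, Matrix.of_apply, Matrix.smul_apply]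
      split_ifs <;> simp
    rw [h, Matrix.mul_smul, Matrix.mul_smul, Matrix.smul_mul, Matrix.mul_smul, Matrix.smul_mul]
    rfl

/-- The algebraic identity. -/
private theorem Fix_alg {n : ℕ} {F S S' X B T : Matrix (Fin n) (Fin n) ℝ} (hS : S * S' = 1)
    (hT : T = (F * B - 1 + F * (S * (X - 1) * S') * B) + FixL F S S' X B (lo T) - lo T * up T) :
    (1 + lo T) * (1 + up T) = F * (S * (X * (1 + lo T)) * S') * B := by
  have h1 : FixL F S S' X B (lo T) = F * (S * (X * lo T) * S') * B := by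
    show F * (S * (X * lo (lo T)) * S') * B = _
    rw [Fix_lolo]
  rw [h1] at hT
  have h2 : (1 + lo T) * (1 + up T) = 1 + T + lo T * up T := by
    have h3 : (1 + lo T) * (1 + up T) = 1 + (lo T + up T) + lo T * up T := by
      simp only [add_mul, mul_add, one_mul, mul_one]
      abel
    rw [h3, Fix_loup]
  have h3 : 1 + T + lo T * up T = F * B + F * (S * (X - 1) * S') * B +
      F * (S * (X * lo T) * S') * B := by
    conv_lhs => rw [add_assoc]
    have : T + lo T * up T = (F * B - 1 + F * (S * (X - 1) * S') * B) +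
        F * (S * (X * lo T) * S') * B := by
      exact eq_sub_iff_add_eq.1 hT
    rw [this]
    abel
  rw [h2, h3, Matrix.mul_sub, Matrix.sub_mul, Matrix.mul_one, hS, Matrix.mul_sub, Matrix.sub_mul,
    Matrix.mul_one, Matrix.mul_add, Matrix.mul_one, Matrix.mul_add, Matrix.add_mul, Matrix.mul_add,
    Matrix.add_mul]
  abel

/-- The construction of the flag for one element. -/
private theorem Fix_one {m k : ℕ} {s f x₀ b₀ : P m} (hs : s ∈ Dp m k) (hx₀ : x₀ ∈ Nm m)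
    (hb₀ : b₀ ∈ Bor m) {δ C ε : ℝ} (hC : 1 ≤ C) (hε : 0 < ε)
    (hBF : ∀ (e : Matrix (Fin (2 * m + 1)) (Fin (2 * m + 1)) ℝ)
      (Λ : Matrix (Fin (2 * m + 1)) (Fin (2 * m + 1)) ℝ →ₗ[ℝ]
        Matrix (Fin (2 * m + 1)) (Fin (2 * m + 1)) ℝ),
      (∀ i j, |e i j| ≤ δ) → (∀ X, (∀ i j, |X i j| ≤ 1) → ∀ i j, |Λ X i j| ≤ δ) →
      ∃ T, (∀ i j, |T i j| ≤ 1 / 2) ∧ T = e + Λ (lo T) - lo T * up T)
    (hCx : ∀ i j, |x₀.1 i j| ≤ C) (hCb : ∀ i j, |b₀.1 i j| ≤ C) (hCb' : ∀ i j, |(b₀⁻¹).1 i j| ≤ C)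
    (hf : ∀ i j, |f.1 i j - (1 : P m).1 i j| ≤ δ / 2) {R : ℝ} (hR : R ≤ 2 ^ k)
    (hR1 : 2 * (((2 * m + 1 : ℕ) : ℝ) * ((((2 * m + 1 : ℕ) : ℝ) * ((((2 * m + 1 : ℕ) : ℝ) *
      ((1 + δ / 2) * C)) * (((2 * m + 1 : ℕ) : ℝ) * C))) * C)) ≤ δ * R) (hδ : 0 < δ)
    (hR2 : 3 * C * C < R) (hR3 : ((2 * m + 1 : ℕ) : ℝ) * (C * 2) < ε * R) :
    ∃ x ∈ Nm m, (∀ i j, |x.1 i j - (1 : P m).1 i j| < ε) ∧ ∃ b ∈ Bor m,
      s * (x₀ * f * b₀) * x = x * b ∧ ∀ i j, i < j → b.1 j j < b.1 i i := by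
  obtain ⟨N, hN⟩ : ∃ N : ℝ, N = ((2 * m + 1 : ℕ) : ℝ) := ⟨_, rfl⟩
  have hN1 : 1 ≤ N := by
    rw [hN]
    exact_mod_cast (by omega : 1 ≤ 2 * m + 1)
  rw [← hN] at hR1 hR3
  obtain ⟨ρ, hρ⟩ : ∃ ρ : ℝ, ρ = ((2 : ℝ) ^ k)⁻¹ := ⟨_, rfl⟩
  have hk0 : (0 : ℝ) < 2 ^ k := by positivity
  have hρ0 : 0 < ρ := by
    rw [hρ]
    positivity
  have hρR : ∀ y : ℝ, 0 ≤ y → y * R * ρ ≤ y := by
    intro y hy
    rw [hρ, ← div_eq_mul_inv, div_le_iff₀ hk0]
    exact mul_le_mul_of_nonneg_left hR hy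
  have hss : s.1 * (s⁻¹).1 = 1 := by
    have : (s * s⁻¹).1 = s.1 * (s⁻¹).1 := rfl
    rw [← this, mul_inv_cancel]
    rfl
  have hbb : b₀.1 * (b₀⁻¹).1 = 1 := by
    have : (b₀ * b₀⁻¹).1 = b₀.1 * (b₀⁻¹).1 := rfl
    rw [← this, mul_inv_cancel]
    rfl
  have hFB : f.1 * b₀.1 * (b₀⁻¹).1 = f.1 := by
    rw [Matrix.mul_assoc, hbb, Matrix.mul_one]
  -- bounds
  have hF : ∀ i j, |f.1 i j| ≤ 1 + δ / 2 := by
    intro i j
    have h1 : |(1 : P m).1 i j| ≤ 1 := by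
      have : (1 : P m).1 i j = (1 : Matrix (Fin (2 * m + 1)) (Fin (2 * m + 1)) ℝ) i j := rfl
      rw [this, Matrix.one_apply]
      split_ifs <;> simp
    have h2 := hf i j
    calc |f.1 i j| = |(1 : P m).1 i j + (f.1 i j - (1 : P m).1 i j)| := by ring_nf
      _ ≤ _ := (abs_add_le _ _).trans (add_le_add h1 h2)
  have hC0 : 0 ≤ C := by linarith
  have hM0 : 0 ≤ (1 + δ / 2) * C := by positivity
  have hFb := Fix_mul (by positivity) hF hCb
  rw [← hN] at hFb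
  have hmain : ∀ M : Matrix (Fin (2 * m + 1)) (Fin (2 * m + 1)) ℝ, (∀ i j, ¬ j < i → M i j = 0) →
      (∀ i j, |M i j| ≤ N * C) → ∀ i j,
      |(f.1 * b₀.1 * (s.1 * M * (s⁻¹).1) * (b₀⁻¹).1) i j| ≤ δ / 2 := by
    intro M hM hM' i j
    have h1 := Fix_mul (by positivity) hFb (Fix_sg hs hM hM')
    have h2 := Fix_mul (by positivity) h1 hCb' i j
    rw [← hN, ← hρ] at h2
    have h3 : N * (N * (N * ((1 + δ / 2) * C) * (ρ * (N * C))) * C) =
        (N * ((N * ((N * ((1 + δ / 2) * C)) * (N * C))) * C)) * ρ := by ring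
    rw [h3] at h2
    refine h2.trans ?_
    have h4 := hρR (δ / 2) (by positivity)
    nlinarith
  obtain ⟨T, hT, hTe⟩ := hBF (f.1 * b₀.1 * (b₀⁻¹).1 - 1 +
      f.1 * b₀.1 * (s.1 * (x₀.1 - 1) * (s⁻¹).1) * (b₀⁻¹).1)
      (FixL (f.1 * b₀.1) s.1 (s⁻¹).1 x₀.1 (b₀⁻¹).1) (by
      intro i j
      rw [hFB, Matrix.add_apply, Matrix.sub_apply]
      have h1 := hmain (x₀.1 - 1) (fun i j hij => by
          rw [Matrix.sub_apply]
          rcases lt_trichotomy i j with h | h | h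
          · rw [hx₀.1 i j h, Matrix.one_apply_ne h.ne, sub_zero]
          · rw [h, hx₀.2 j, Matrix.one_apply_eq, sub_self]
          · exact absurd h hij) (fun i j => by
          rw [Matrix.sub_apply]
          have hNC : C ≤ N * C := by nlinarith
          rcases lt_trichotomy i j with h | h | h
          · rw [hx₀.1 i j h, Matrix.one_apply_ne h.ne, sub_zero, abs_zero]
            positivity
          · rw [h, hx₀.2 j, Matrix.one_apply_eq, sub_self, abs_zero]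
            positivity
          · rw [Matrix.one_apply_ne h.ne', sub_zero]
            exact (hCx i j).trans hNC) i j
      have h2 : |f.1 i j - (1 : Matrix (Fin (2 * m + 1)) (Fin (2 * m + 1)) ℝ) i j| ≤ δ / 2 := hf i j
      exact (abs_add_le _ _).trans (by linarith)) (by
      intro Z hZ i j
      refine (hmain (x₀.1 * lo Z) (fun i j hij => ?_) (fun i j => ?_) i j).trans (by linarith)
      · rw [Matrix.mul_apply]
        refine Finset.sum_eq_zero fun k _ => ?_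
        rcases lt_or_ge i k with h | h
        · rw [hx₀.1 i k h, zero_mul]
        · have : ¬ j < k := fun h' => hij (lt_of_lt_of_le h' h)
          simp only [lo, Matrix.of_apply, if_neg this, mul_zero]
      · have hl : ∀ i j, |lo Z i j| ≤ 1 := by
          intro i j
          simp only [lo, Matrix.of_apply]
          split_ifs
          · exact hZ i j
          · simp
        have := Fix_mul hC0 hCx hl i j
        rwa [← hN, mul_one] at this)
  have hid := Fix_alg hss hTe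
  -- the lower unipotent matrix
  obtain ⟨Y, hY⟩ : ∃ Y : Matrix (Fin (2 * m + 1)) (Fin (2 * m + 1)) ℝ,
    Y = x₀.1 * (1 + lo T) := ⟨_, rfl⟩
  have hl1 : ∀ i j, i < j → (1 + lo T) i j = 0 := by
    intro i j hij
    rw [Matrix.add_apply, Matrix.one_apply_ne hij.ne]
    simp only [lo, Matrix.of_apply, if_neg hij.not_gt, add_zero]
  have hl2 : ∀ i, (1 + lo T) i i = 1 := by
    intro i
    rw [Matrix.add_apply, Matrix.one_apply_eq]
    simp only [lo, Matrix.of_apply, lt_irrefl, if_false, add_zero]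
  have hYt := tri_mul (g := (1 + lo T).transpose) (h := x₀.1.transpose)
    (fun i j hij => hl1 j i hij) (fun i j hij => hx₀.1 j i hij)
  rw [← Matrix.transpose_mul, ← hY] at hYt
  have hY1 : ∀ i j, i < j → Y i j = 0 := fun i j hij => hYt.1 j i hij
  have hY2 : ∀ i, Y i i = 1 := by
    intro i
    have h2 := hYt.2 i
    simp only [Matrix.transpose_apply] at h2
    rw [h2, hl2, one_mul]
    exact hx₀.2 i
  have hYd : Y.det = 1 := by
    rw [Matrix.det_of_lowerTriangular Y (fun i j hij => hY1 i j hij)]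
    exact Finset.prod_eq_one fun i _ => hY2 i
  obtain ⟨y, hy⟩ : ∃ y : P m, y.1 = Y := ⟨⟨Y, hYd⟩, rfl⟩
  have hyC : ∀ i j, |Y i j| ≤ N * (C * 2) := by
    have h1 : ∀ i j, |(1 + lo T) i j| ≤ 2 := by
      intro i j
      rw [Matrix.add_apply]
      have h2 : |(1 : Matrix (Fin (2 * m + 1)) (Fin (2 * m + 1)) ℝ) i j| ≤ 1 := by
        rw [Matrix.one_apply]
        split_ifs <;> simp
      have h3 : |lo T i j| ≤ 1 := by
        simp only [lo, Matrix.of_apply]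
        split_ifs
        · exact (hT i j).trans (by norm_num)
        · simp
      exact (abs_add_le _ _).trans (by linarith)
    intro i j
    have := Fix_mul hC0 hCx h1 i j
    rwa [← hN, ← hY] at this
  -- the flag
  have hx : s * y * s⁻¹ ∈ Nm m := by
    refine ⟨fun i j hij => ?_, fun i => ?_⟩
    · have : (s * y * s⁻¹).1 i j = (s.1 * y.1 * (s⁻¹).1) i j := rfl
      rw [this, Fix_cj hs.1, hy, hY1 i j hij, mul_zero, zero_mul]
    · have : (s * y * s⁻¹).1 i i = (s.1 * y.1 * (s⁻¹).1) i i := rfl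
      rw [this, Fix_cj hs.1, hy, hY2 i, mul_one, mul_inv_cancel₀ (hs.1.2 i).ne']
  refine ⟨s * y * s⁻¹, hx, ?_, ?_⟩
  · intro i j
    have h0 : (1 : P m).1 i j = (1 : Matrix (Fin (2 * m + 1)) (Fin (2 * m + 1)) ℝ) i j := rfl
    rw [h0]
    rcases lt_trichotomy i j with h | h | h
    · rw [hx.1 i j h, Matrix.one_apply_ne h.ne, sub_zero, abs_zero]
      exact hε
    · rw [h, hx.2 j, Matrix.one_apply_eq, sub_self, abs_zero]
      exact hε
    · rw [Matrix.one_apply_ne h.ne', sub_zero]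
      have h1 : (s * y * s⁻¹).1 i j = (s.1 * lo Y * (s⁻¹).1) i j := by
        have : (s * y * s⁻¹).1 i j = (s.1 * y.1 * (s⁻¹).1) i j := rfl
        rw [this, Fix_cj hs.1, Fix_cj hs.1, hy]
        simp only [lo, Matrix.of_apply, if_pos h]
      rw [h1]
      have h2 := Fix_sg (M := lo Y) (r := N * (C * 2)) hs (fun i j hij => by
          simp only [lo, Matrix.of_apply, if_neg hij]) (fun i j => by
          simp only [lo, Matrix.of_apply]
          split_ifs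
          · exact hyC i j
          · rw [abs_zero]
            positivity) i j
      rw [← hρ] at h2
      refine lt_of_le_of_lt h2 ?_
      have h3 := hρR ε hε.le
      have h4 : ρ * (N * (C * 2)) < ρ * (ε * R) := mul_lt_mul_of_pos_left hR3 hρ0
      nlinarith
  · obtain ⟨b', hb'⟩ : ∃ b' : P m, b' = y⁻¹ * (x₀ * f * b₀ * (s * y * s⁻¹)) := ⟨_, rfl⟩
    have h1 : y.1 * ((1 + up T) * b₀.1) = (x₀ * f * b₀ * (s * y * s⁻¹)).1 := by
      have h2 : (x₀ * f * b₀ * (s * y * s⁻¹)).1 = x₀.1 * f.1 * b₀.1 * (s.1 * y.1 * (s⁻¹).1) := rfl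
      have h3 : y.1 * ((1 + up T) * b₀.1) = x₀.1 * ((1 + lo T) * (1 + up T)) * b₀.1 := by
        rw [hy, hY]
        simp only [Matrix.mul_assoc]
      have h4 : (b₀⁻¹).1 * b₀.1 = 1 := by
        have : (b₀⁻¹ * b₀).1 = (b₀⁻¹).1 * b₀.1 := rfl
        rw [← this, inv_mul_cancel]
        rfl
      rw [h3, hid, h2, hy, hY]
      simp only [Matrix.mul_assoc, h4, Matrix.mul_one]
    have h2 : b'.1 = (1 + up T) * b₀.1 := by
      have h3 : b'.1 = (y⁻¹).1 * (x₀ * f * b₀ * (s * y * s⁻¹)).1 := by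
        rw [hb']
        rfl
      have h4 : (y⁻¹).1 * y.1 = 1 := by
        have : (y⁻¹ * y).1 = (y⁻¹).1 * y.1 := rfl
        rw [← this, inv_mul_cancel]
        rfl
      rw [h3, ← h1, ← Matrix.mul_assoc, h4, Matrix.one_mul]
    have hu1 : ∀ i j, j < i → (1 + up T) i j = 0 := by
      intro i j hij
      rw [Matrix.add_apply, Matrix.one_apply_ne hij.ne']
      simp only [up, Matrix.of_apply, if_pos hij, add_zero]
    have hu2 : ∀ i, (1 + up T) i i = 1 + T i i := by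
      intro i
      rw [Matrix.add_apply, Matrix.one_apply_eq]
      simp only [up, Matrix.of_apply, lt_irrefl, if_false]
    have h3 := tri_mul hu1 hb₀.1
    rw [← h2] at h3
    have h4 : ∀ i, 1 / 2 ≤ 1 + T i i ∧ 1 + T i i ≤ 3 / 2 := by
      intro i
      have := abs_le.1 (hT i i)
      constructor <;> linarith
    have hb'B : b' ∈ Bor m := by
      refine ⟨h3.1, fun i => ?_⟩
      rw [h3.2 i, hu2]
      exact mul_pos (by linarith [(h4 i).1]) (hb₀.2 i)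
    have h5 : ∀ i, (s * b').1 i i = s.1 i i * ((1 + T i i) * b₀.1 i i) := by
      intro i
      have : (s * b').1 i i = (s.1 * b'.1) i i := rfl
      rw [this, Fix_dl hs.1, h3.2 i, hu2]
    refine ⟨s * b', ?_, ?_, ?_⟩
    · have h6 : s ∈ Bor m := ⟨fun i j hij => hs.1.1 i j hij.ne', hs.1.2⟩
      exact (Bor m).mul_mem h6 hb'B
    · rw [hb']
      group
    · intro i j hij
      rw [h5, h5]
      have h6 := hs.2 i j hij
      have h7 : b₀.1 j j ≤ C := (le_abs_self _).trans (hCb j j)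
      have h8 : 1 ≤ b₀.1 i i * C := by
        have h9 := (tri_inv b₀ hb₀.1).2 i
        have h10 : (b₀⁻¹).1 i i ≤ C := (le_abs_self _).trans (hCb' i i)
        exact h9.symm.le.trans (mul_le_mul_of_nonneg_left h10 (hb₀.2 i).le)
      have h11 := hs.1.2 j
      have h12 := hb₀.2 j
      have h13 := hb₀.2 i
      have h14 : 3 * C * C < 2 ^ k := lt_of_lt_of_le hR2 hR
      have h15 : (1 + T j j) * b₀.1 j j ≤ 3 / 2 * C :=
        mul_le_mul (h4 j).2 h7 h12.le (by norm_num)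
      have h16 : 1 / 2 * b₀.1 i i ≤ (1 + T i i) * b₀.1 i i :=
        mul_le_mul_of_nonneg_right (h4 i).1 h13.le
      have h17 : 3 / 2 * C < 2 ^ k * (1 / 2 * b₀.1 i i) := by
        have h18 : 3 * C * C * b₀.1 i i < 2 ^ k * b₀.1 i i := mul_lt_mul_of_pos_right h14 h13
        have h19 : 3 * C * 1 ≤ 3 * C * (b₀.1 i i * C) :=
          mul_le_mul_of_nonneg_left h8 (by positivity)
        nlinarith
      calc s.1 j j * ((1 + T j j) * b₀.1 j j) ≤ s.1 j j * (3 / 2 * C) :=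
            mul_le_mul_of_nonneg_left h15 h11.le
        _ < s.1 j j * (2 ^ k * (1 / 2 * b₀.1 i i)) := mul_lt_mul_of_pos_left h17 h11
        _ = 2 ^ k * s.1 j j * (1 / 2 * b₀.1 i i) := by ring
        _ ≤ s.1 i i * (1 / 2 * b₀.1 i i) := mul_le_mul_of_nonneg_right h6 (by positivity)
        _ ≤ s.1 i i * ((1 + T i i) * b₀.1 i i) :=
            mul_le_mul_of_nonneg_left h16 (hs.1.2 i).le

/-- The attracting flag. -/
theorem tFix (hBF : S_BF) (hLUn : S_LUn) (_hSq : S_Sq) (hNb : S_Nb) (hEl : S_El) : S_Fix := by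
  intro m q hq U hU
  obtain ⟨x₀, hx₀, α₀, hα₀, u₀, hu₀, hqe, -⟩ := (hLUn m).2 q hq
  obtain ⟨-, -, -, -, -, -, -, -, -, hAB, hNB, -⟩ := hEl m
  obtain ⟨b₀, hb₀e⟩ : ∃ b₀, b₀ = α₀ * u₀ := ⟨_, rfl⟩
  have hb₀ : b₀ ∈ Bor m := by
    rw [hb₀e]
    exact (Bor m).mul_mem (hAB hα₀) (hNB hu₀)
  have hqe' : q = x₀ * b₀ := by
    rw [hqe, hb₀e, mul_assoc]
  obtain ⟨δ, hδ, hBF'⟩ := hBF (2 * m + 1) (1 / 2) (by norm_num)
  obtain ⟨ε, hε, hεU⟩ := (hNb m).1 U hU
  obtain ⟨C', -, hCK⟩ := (hNb m).2.2 {x₀, b₀, b₀⁻¹} (Set.Finite.isCompact (by simp))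
  obtain ⟨C, hCe⟩ : ∃ C, C = max C' 1 := ⟨_, rfl⟩
  have hC : 1 ≤ C := by
    rw [hCe]
    exact le_max_right _ _
  have hC' : C' ≤ C := by
    rw [hCe]
    exact le_max_left _ _
  obtain ⟨E, hE⟩ : ∃ E : ℝ, E = 2 * (((2 * m + 1 : ℕ) : ℝ) * ((((2 * m + 1 : ℕ) : ℝ) *
    ((((2 * m + 1 : ℕ) : ℝ) * ((1 + δ / 2) * C)) * (((2 * m + 1 : ℕ) : ℝ) * C))) * C)) := ⟨_, rfl⟩
  obtain ⟨k, hk⟩ := pow_unbounded_of_one_lt (max (E / δ) (max (3 * C * C + 1)
    (((2 * m + 1 : ℕ) : ℝ) * (C * 2) / ε + 1))) (one_lt_two (α := ℝ))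
  have hcont : Continuous fun p : P m × P m => x₀⁻¹ * (p.1 * q * p.2) * b₀⁻¹ := by fun_prop
  have hpre : (fun p : P m × P m => x₀⁻¹ * (p.1 * q * p.2) * b₀⁻¹) ⁻¹'
      {g : P m | ∀ i j, |g.1 i j - (1 : P m).1 i j| < δ / 2} ∈ 𝓝 ((1, 1) : P m × P m) := by
    refine hcont.continuousAt.preimage_mem_nhds ?_
    have h2 : x₀⁻¹ * (((1, 1) : P m × P m).1 * q * ((1, 1) : P m × P m).2) * b₀⁻¹ = 1 := by
      rw [hqe']
      simp
    rw [h2]
    exact (hNb m).2.1 (δ / 2) (by positivity)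
  obtain ⟨V₁, hV₁, V₂, hV₂, hV⟩ := mem_nhds_prod_iff.1 hpre
  refine ⟨V₁ ∩ V₂, Filter.inter_mem hV₁ hV₂, k, fun s hs v hv v' hv' => ?_⟩
  have hf := hV (Set.mk_mem_prod hv.1 hv'.2)
  obtain ⟨x, hx, hxε, b, hb, he, hd⟩ := Fix_one (f := x₀⁻¹ * (v * q * v') * b₀⁻¹) (C := C)
    (ε := ε) (R := max (E / δ) (max (3 * C * C + 1) (((2 * m + 1 : ℕ) : ℝ) * (C * 2) / ε + 1)))
    hs hx₀ hb₀ hC hε hBF' (fun i j => (hCK _ (by simp) i j).trans hC')
    (fun i j => (hCK _ (by simp) i j).trans hC') (fun i j => (hCK _ (by simp) i j).trans hC')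
    (fun i j => (hf i j).le) hk.le (by
      rw [← hE]
      have h1 := le_max_left (E / δ) (max (3 * C * C + 1)
        (((2 * m + 1 : ℕ) : ℝ) * (C * 2) / ε + 1))
      rw [div_le_iff₀ hδ] at h1
      linarith) hδ (by
      have h1 := le_max_right (E / δ) (max (3 * C * C + 1)
        (((2 * m + 1 : ℕ) : ℝ) * (C * 2) / ε + 1))
      have h2 := le_max_left (3 * C * C + 1) (((2 * m + 1 : ℕ) : ℝ) * (C * 2) / ε + 1)
      linarith) (by
      have h1 := le_max_right (E / δ) (max (3 * C * C + 1)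
        (((2 * m + 1 : ℕ) : ℝ) * (C * 2) / ε + 1))
      have h2 := le_max_right (3 * C * C + 1) (((2 * m + 1 : ℕ) : ℝ) * (C * 2) / ε + 1)
      have h3 : ((2 * m + 1 : ℕ) : ℝ) * (C * 2) / ε < max (E / δ) (max (3 * C * C + 1)
        (((2 * m + 1 : ℕ) : ℝ) * (C * 2) / ε + 1)) := by linarith
      rw [div_lt_iff₀ hε] at h3
      linarith)
  refine ⟨x, hx, hεU x hxε, b, hb, ?_, hd⟩
  rw [← he]
  group

end Pool.Agent.MPEF.U.S
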