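import Pool.Agent.Lib.MP_ef3f0f_gt.U.S.Spec

/-!
# MP_ef3f0f_gt, Theorem U, `SL_n(ℝ)`: invariance of `Pos`
-/

set_option autoImplicit false

namespace Pool.Agent.MPEF.U.S

open Matrix Topology
open scoped Pointwise

private theorem invp_swap (hSwap : S_Swap) (m i : ℕ) (hi : i ≤ 2 * m + 1) (f g : Sq (2 * m + 1)) :
    D (app i f g) = D (app (2 * m + 1 - i) g f) := by
  have h := hSwap (2 * m + 1) 0 i (2 * m + 1 - i) f f g (by omega)
  rw [app_zero, app_zero] at h
  have h1 : Even (i * (2 * m + 1 - i)) := by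
    rcases Nat.even_or_odd i with h2 | h2
    · exact h2.mul_right _
    · apply Even.mul_left
      obtain ⟨r, hr⟩ := h2
      exact ⟨m - r, by omega⟩
  rw [h, h1.neg_one_pow, one_mul]

private theorem invp_rmul (hRmul : S_Rmul) (m i : ℕ) (hi : i ≤ 2 * m + 1)
    (k b : Matrix (Fin (2 * m + 1)) (Fin (2 * m + 1)) ℝ) (hb : ∀ r s, s < r → b r s = 0)
    (G : Sq (2 * m + 1)) : D (app i (cl (k * b)) G) =
      (∏ s : Fin (2 * m + 1), if (s : ℕ) < i then b s s else 1) * D (app i (cl k) G) := by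
  have h := hRmul (2 * m + 1) 0 i G G k b (by omega) hb
  rwa [app_zero, app_zero] at h

/-- The sign of the first `i` entries of `J`. -/
private def invpσ (m i : ℕ) : ℝ := ∏ s ∈ Finset.range i, (-1 : ℝ) ^ (s + m)

private theorem invp_prod (m i : ℕ) (hi : i ≤ 2 * m + 1) :
    (∏ s : Fin (2 * m + 1), if (s : ℕ) < i then (J m).1 s s else 1) = invpσ m i := by
  have h1 : ∀ s : Fin (2 * m + 1), (if (s : ℕ) < i then (J m).1 s s else 1) =
      (fun t : ℕ => if t < i then (-1 : ℝ) ^ (t + m) else 1) s := by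
    intro s
    have h2 : (J m).1 s s = (-1 : ℝ) ^ ((s : ℕ) + m) := by
      show Matrix.diagonal (fun i : Fin (2 * m + 1) => (-1 : ℝ) ^ ((i : ℕ) + m)) s s = _
      rw [Matrix.diagonal_apply_eq]
    rw [h2]
  rw [Finset.prod_congr rfl (fun s _ => h1 s),
    Fin.prod_univ_eq_prod_range (fun t : ℕ => if t < i then (-1 : ℝ) ^ (t + m) else 1) (2 * m + 1)]
  unfold invpσ
  symm
  refine Finset.prod_subset_one_on_sdiff (Finset.range_subset_range.2 hi) ?_ ?_
  · intro t ht
    rw [Finset.mem_sdiff, Finset.mem_range, Finset.mem_range] at ht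
    rw [if_neg ht.2]
  · intro t ht
    rw [Finset.mem_range] at ht
    rw [if_pos ht]

private theorem invp_sign (m i : ℕ) (hi : i ≤ 2 * m + 1) :
    invpσ m i * invpσ m (2 * m + 1 - i) = 1 := by
  induction i with
  | zero =>
    have h := prod_J m
    rw [Fin.prod_univ_eq_prod_range (fun i => (-1 : ℝ) ^ (i + m)) (2 * m + 1)] at h
    unfold invpσ
    rw [Finset.prod_range_zero, one_mul, Nat.sub_zero]
    exact h
  | succ i ih =>
    have h1 := ih (by omega)
    have h2 : invpσ m (i + 1) = invpσ m i * (-1) ^ (i + m) := Finset.prod_range_succ _ _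
    have h3 : invpσ m (2 * m + 1 - i) =
        invpσ m (2 * m + 1 - (i + 1)) * (-1) ^ (2 * m + 1 - (i + 1) + m) := by
      have h4 : 2 * m + 1 - i = (2 * m + 1 - (i + 1)) + 1 := by omega
      rw [h4]
      exact Finset.prod_range_succ _ _
    rw [h3] at h1
    have h5 : ((-1 : ℝ)) ^ (2 * m + 1 - (i + 1) + m) = (-1) ^ (i + m) := by
      rw [neg_one_pow_congr]
      rw [Nat.even_add, Nat.even_add, Nat.even_sub (by omega)]
      simp [parity_simps]
    rw [h5] at h1
    rw [h2]
    linarith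

/-- **Invariance of `Pos`.** -/
theorem tInvP (hLmul : S_Lmul) (hRmul : S_Rmul) (hSwap : S_Swap) : S_InvP := by
  intro m
  have c3' : ∀ k k' : P m, Pos k k' → Pos k' k := by
    intro k k' h i hi
    rw [invp_swap hSwap m i hi]
    exact h _ (by omega)
  have c3 : ∀ k k' : P m, Pos k k' ↔ Pos k' k := fun k k' => ⟨c3' k k', c3' k' k⟩
  have c2 : ∀ k k' : P m, ∀ b ∈ Bor m, Pos (k * b) k' ↔ Pos k k' := by
    intro k k' b hb
    have key : ∀ i, i ≤ 2 * m + 1 → (0 < D (app i (cl (k * b).1) (cl k'.1)) ↔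
        0 < D (app i (cl k.1) (cl k'.1))) := by
      intro i hi
      have h1 : D (app i (cl (k * b).1) (cl k'.1)) = _ :=
        invp_rmul hRmul m i hi k.1 b.1 (fun r s hrs => hb.1 r s hrs) (cl k'.1)
      rw [h1]
      refine mul_pos_iff_of_pos_left (Finset.prod_pos fun s _ => ?_)
      split_ifs
      · exact hb.2 s
      · exact one_pos
    exact ⟨fun h i hi => (key i hi).1 (h i hi), fun h i hi => (key i hi).2 (h i hi)⟩
  refine ⟨?_, c2, c3, ?_, ?_, ?_⟩
  · intro g k k'
    have key : ∀ i, D (app i (cl (g * k).1) (cl (g * k').1)) = D (app i (cl k.1) (cl k'.1)) := by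
      intro i
      have h1 := (hLmul (2 * m + 1)).2.2 g.1 k.1 k'.1 k'.1 i 0
      rw [app_zero, app_zero, g.2, one_mul] at h1
      exact h1
    exact ⟨fun h i hi => by rw [← key i]; exact h i hi, fun h i hi => by rw [key i]; exact h i hi⟩
  · apply c3'
    intro i hi
    have h1 : D (app i (cl (w m).1) (cl (1 : P m).1)) = 1 := D_w_one m i hi
    rw [h1]
    exact one_pos
  · intro k k'
    have hJ : ∀ r s, s < r → (J m).1 r s = 0 := by
      intro r s hrs
      exact Matrix.diagonal_apply_ne _ hrs.ne'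
    have key : ∀ i, i ≤ 2 * m + 1 → D (app i (cl (k * J m).1) (cl (k' * J m).1)) =
        D (app i (cl k.1) (cl k'.1)) := by
      intro i hi
      have h1 : D (app i (cl (k * J m).1) (cl (k' * J m).1)) = _ :=
        invp_rmul hRmul m i hi k.1 (J m).1 hJ (cl (k' * J m).1)
      have h2 : D (app (2 * m + 1 - i) (cl (k' * J m).1) (cl k.1)) = _ :=
        invp_rmul hRmul m (2 * m + 1 - i) (by omega) k'.1 (J m).1 hJ (cl k.1)
      rw [h1, invp_swap hSwap m i hi (cl k.1), h2, invp_prod m i hi, invp_prod m _ (by omega),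
        ← mul_assoc, invp_sign m i hi, one_mul, ← invp_swap hSwap m i hi]
    exact ⟨fun h i hi => by rw [← key i hi]; exact h i hi,
      fun h i hi => by rw [key i hi]; exact h i hi⟩
  · intro k k' b hb
    rw [c3, c2 k' k b hb, c3]

end Pool.Agent.MPEF.U.S
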