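import Pool.Agent.Lib.MP_ef3f0f_gt.U.S.Spec

/-!
# MP_ef3f0f_gt, Theorem U, `SL_n(ℝ)`: invariance of `Tri` (module `InvT`)
-/

set_option autoImplicit false

namespace Pool.Agent.MPEF.U.S

open Matrix Topology
open scoped Pointwise

/-- The sign of a block of length `i`. -/
noncomputable def InvT_sg (m i : ℕ) : ℝ := ∏ s ∈ Finset.range i, (-1 : ℝ) ^ (s + m)

theorem InvT_sg_add (m i j : ℕ) :
    InvT_sg m (i + j) = InvT_sg m i * InvT_sg m j * (-1) ^ (i * j) := by
  unfold InvT_sg
  rw [Finset.prod_range_add, mul_assoc]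
  congr 1
  have h : ∀ s ∈ Finset.range j, (-1 : ℝ) ^ (i + s + m) = (-1) ^ (s + m) * (-1) ^ i := by
    intro s _
    rw [← pow_add]
    congr 1
    omega
  rw [Finset.prod_congr rfl h, Finset.prod_mul_distrib, Finset.prod_const, Finset.card_range,
    ← pow_mul]

theorem InvT_sg_all (m : ℕ) : InvT_sg m (2 * m + 1) = 1 := by
  rw [← prod_J m, Fin.prod_univ_eq_prod_range (fun i => (-1 : ℝ) ^ (i + m)) (2 * m + 1)]
  rfl

theorem InvT_even {i j m : ℕ} (h : i + j = 2 * m + 1) : Even (i * j) := by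
  rcases Nat.even_or_odd i with h1 | h1
  · exact h1.mul_right j
  · refine Even.mul_left ?_ i
    obtain ⟨k, hk⟩ := h1
    exact ⟨m - k, by omega⟩

theorem InvT_sign (m i l j : ℕ) (h : i + l + j = 2 * m + 1) :
    InvT_sg m i * InvT_sg m l * InvT_sg m j * (-1) ^ (l * j) = 1 := by
  have h1 := InvT_sg_all m
  rw [← h, InvT_sg_add, InvT_sg_add] at h1
  obtain ⟨u, hu⟩ : ∃ u : ℝ, u = (-1) ^ (i * l) := ⟨_, rfl⟩
  obtain ⟨v, hv⟩ : ∃ v : ℝ, v = (-1) ^ ((i + l) * j) := ⟨_, rfl⟩
  obtain ⟨w, hw⟩ : ∃ w : ℝ, w = (-1) ^ (l * j) := ⟨_, rfl⟩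
  have hu2 : u * u = 1 := by
    rw [hu, ← pow_add]
    exact Even.neg_one_pow ⟨_, rfl⟩
  have hv2 : v * v = 1 := by
    rw [hv, ← pow_add]
    exact Even.neg_one_pow ⟨_, rfl⟩
  have huvw : u * v * w = 1 := by
    rw [hu, hv, hw, ← pow_add, ← pow_add]
    refine Even.neg_one_pow ?_
    have h2 : i * l + (i + l) * j + l * j = i * (l + j) + (l * j + l * j) := by ring
    rw [h2]
    exact (InvT_even (by omega : i + (l + j) = 2 * m + 1)).add ⟨_, rfl⟩
  rw [← hu, ← hv] at h1
  rw [← hw]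
  obtain ⟨s, hs⟩ : ∃ s : ℝ, s = InvT_sg m i * InvT_sg m l * InvT_sg m j := ⟨_, rfl⟩
  have h3 : s * (u * v) = 1 := by
    rw [hs, ← h1]
    ring
  rw [← hs]
  have h4 : s * w = s * (u * v) * (u * v * w) := by
    have h5 : s * (u * v) * (u * v * w) = s * w * (u * u) * (v * v) := by ring
    rw [h5, hu2, hv2]
    ring
  rw [h4, h3, huvw]
  norm_num

theorem InvT_J (m i : ℕ) (hi : i ≤ 2 * m + 1) :
    (∏ s : Fin (2 * m + 1), if (s : ℕ) < i then (J m).1 s s else 1) = InvT_sg m i := by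
  have h1 : ∀ s : Fin (2 * m + 1), (J m).1 s s = (-1 : ℝ) ^ ((s : ℕ) + m) := by
    intro s
    show Matrix.diagonal _ s s = _
    rw [Matrix.diagonal_apply_eq]
  have h2 : (∏ s : Fin (2 * m + 1), if (s : ℕ) < i then (J m).1 s s else 1) =
      ∏ s : Fin (2 * m + 1), (fun t : ℕ => if t < i then (-1 : ℝ) ^ (t + m) else 1) s := by
    refine Finset.prod_congr rfl fun s _ => ?_
    rw [h1]
  rw [h2, Fin.prod_univ_eq_prod_range (fun t : ℕ => if t < i then (-1 : ℝ) ^ (t + m) else 1)
    (2 * m + 1)]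
  obtain ⟨k, hk⟩ : ∃ k, 2 * m + 1 = i + k := ⟨2 * m + 1 - i, by omega⟩
  rw [hk, Finset.prod_range_add]
  have h3 : ∏ x ∈ Finset.range k, (if i + x < i then (-1 : ℝ) ^ (i + x + m) else 1) = 1 := by
    refine Finset.prod_eq_one fun x _ => ?_
    rw [if_neg (by omega)]
  rw [h3, mul_one]
  unfold InvT_sg
  refine Finset.prod_congr rfl fun s hs => ?_
  rw [if_pos (Finset.mem_range.1 hs)]

theorem InvT_Jtri (m : ℕ) : ∀ r s : Fin (2 * m + 1), s < r → (J m).1 r s = 0 := by
  intro r s h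
  show Matrix.diagonal _ r s = 0
  exact Matrix.diagonal_apply_ne _ h.ne'

/-- Invariance of `Tri`. -/
theorem tInvT (hLmul : S_Lmul) (hRmul : S_Rmul) (hSwap : S_Swap) : S_InvT := by
  intro m hm
  have hswap0 : ∀ (i l : ℕ) (g h : Sq (2 * m + 1)), i + l = 2 * m + 1 →
      D (app i g h) = D (app l h g) := by
    intro i l g h hil
    have h1 := hSwap (2 * m + 1) 0 i l g g h (by omega)
    rw [app_zero, app_zero, (InvT_even hil).neg_one_pow, one_mul] at h1
    exact h1
  refine ⟨?_, ?_, ?_, ?_, ?_, ?_⟩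
  · intro g x y z
    have h1 : ∀ i j, D (app i (cl (g * x).1) (app j (cl (g * y).1) (cl (g * z).1))) =
        D (app i (cl x.1) (app j (cl y.1) (cl z.1))) := by
      intro i j
      have h2 := (hLmul (2 * m + 1)).2.2 g.1 x.1 y.1 z.1 i j
      rw [g.2, one_mul] at h2
      exact h2
    constructor
    · intro h i j hij
      rw [← h1]
      exact h i j hij
    · intro h i j hij
      rw [h1]
      exact h i j hij
  · intro x y z b hb
    have h1 : ∀ i j, i + j ≤ 2 * m + 1 → ∃ c : ℝ, 0 < c ∧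
        D (app i (cl (x * b).1) (app j (cl y.1) (cl z.1))) =
          c * D (app i (cl x.1) (app j (cl y.1) (cl z.1))) := by
      intro i j hij
      have h2 := hRmul (2 * m + 1) 0 i (cl y.1) (app j (cl y.1) (cl z.1)) x.1 b.1 (by omega) hb.1
      rw [app_zero, app_zero] at h2
      refine ⟨_, ?_, h2⟩
      refine Finset.prod_pos fun s _ => ?_
      split_ifs
      · exact hb.2 s
      · exact one_pos
    constructor
    · intro h i j hij
      obtain ⟨c, hc, h2⟩ := h1 i j hij
      have h3 := h i j hij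
      rw [h2] at h3
      exact (pos_iff_pos_of_mul_pos h3).1 hc
    · intro h i j hij
      obtain ⟨c, hc, h2⟩ := h1 i j hij
      rw [h2]
      exact mul_pos hc (h i j hij)
  · intro x y z h i j hij
    rw [app_app, hswap0 (i + j) (2 * m + 1 - (i + j)) _ _ (by omega)]
    exact h _ _ (by omega)
  · intro x y z h h'
    have h1 := h 1 1 (by omega)
    have h2 := h' 1 (2 * m - 1) (by omega)
    have h3 := hSwap (2 * m + 1) 1 1 (2 * m - 1) (cl x.1) (cl y.1) (cl z.1) (by omega)
    have h4 : Odd (1 * (2 * m - 1)) := ⟨m - 1, by omega⟩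
    rw [h4.neg_one_pow] at h3
    rw [h3] at h1
    linarith
  · intro x y z h i hi
    have h1 : D (app i (cl x.1) (cl y.1)) =
        D (app i (cl x.1) (app (2 * m + 1 - i) (cl y.1) (cl z.1))) := by
      refine D_congr fun s hs => ?_
      rcases lt_or_ge s i with h2 | h2
      · rw [app_lt _ _ h2, app_lt _ _ h2]
      · rw [app_ge _ _ h2, app_ge _ _ h2, app_lt _ _ (by omega)]
    rw [h1]
    exact h i _ (by omega)
  · intro x y z h i l hil
    obtain ⟨j, hj⟩ : ∃ j, i + l + j = 2 * m + 1 := ⟨2 * m + 1 - (i + l), by omega⟩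
    have h1 := hRmul (2 * m + 1) 0 i (cl y.1) (app l (cl (z * J m).1) (cl (y * J m).1)) x.1 (J m).1
      (by omega) (InvT_Jtri m)
    rw [app_zero, app_zero, InvT_J m i (by omega)] at h1
    have h2 := hRmul (2 * m + 1) i l (cl x.1) (cl (y * J m).1) z.1 (J m).1 (by omega) (InvT_Jtri m)
    rw [InvT_J m l (by omega)] at h2
    have h3 := hRmul (2 * m + 1) (i + l) j (app i (cl x.1) (cl z.1)) (cl y.1) y.1 (J m).1
      (by omega) (InvT_Jtri m)
    rw [InvT_J m j (by omega)] at h3
    have h4 : ∀ k : Matrix (Fin (2 * m + 1)) (Fin (2 * m + 1)) ℝ,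
        D (app i (cl x.1) (app l (cl z.1) (cl k))) =
          D (app (i + l) (app i (cl x.1) (cl z.1)) (app j (cl k) (cl y.1))) := by
      intro k
      rw [app_app]
      refine D_congr fun s hs => ?_
      rcases lt_or_ge s (i + l) with h5 | h5
      · rw [app_lt _ _ h5, app_lt _ _ h5]
      · rw [app_ge _ _ h5, app_ge _ _ h5, app_lt _ _ (by omega)]
    have h5 := hSwap (2 * m + 1) i l j (cl x.1) (cl z.1) (cl y.1) hj
    have h6 := h i j (by omega)
    have h7 : D (app i (cl (x * J m).1) (app l (cl (z * J m).1) (cl (y * J m).1))) =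
        D (app i (cl x.1) (app j (cl y.1) (cl z.1))) := by
      calc D (app i (cl (x * J m).1) (app l (cl (z * J m).1) (cl (y * J m).1)))
          = InvT_sg m i * D (app i (cl x.1) (app l (cl (z * J m).1) (cl (y * J m).1))) := h1
        _ = InvT_sg m i * (InvT_sg m l *
              D (app i (cl x.1) (app l (cl z.1) (cl (y * J m).1)))) := congrArg _ h2
        _ = InvT_sg m i * (InvT_sg m l * (InvT_sg m j *
              D (app i (cl x.1) (app l (cl z.1) (cl y.1))))) := by
            rw [h4 (y * J m).1, h4 y.1]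
            exact congrArg _ (congrArg _ h3)
        _ = (InvT_sg m i * InvT_sg m l * InvT_sg m j * (-1) ^ (l * j)) *
              D (app i (cl x.1) (app j (cl y.1) (cl z.1))) := by
            rw [h5]
            ring
        _ = D (app i (cl x.1) (app j (cl y.1) (cl z.1))) := by
            rw [InvT_sign m i l j hj, one_mul]
    rw [h7]
    exact h6

end Pool.Agent.MPEF.U.S
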