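import Pool.Agent.Lib.MP_ef3f0f_gt.U.S.Spec

/-!
# MP_ef3f0f_gt, Theorem U, `SL_n(ℝ)`: junction
-/

set_option autoImplicit false

namespace Pool.Agent.MPEF.U.S

open Matrix Topology
open scoped Pointwise

/-- A closed neighbourhood of `1`. -/
private def JN2W (m : ℕ) : Set (P m) := {g | ∀ i j, |g.1 i j - (1 : P m).1 i j| ≤ 1}

private theorem JN2_emb (m : ℕ) : Topology.IsClosedEmbedding (fun g : P m => g.1) := by
  have h : IsClosed {M : Matrix (Fin (2 * m + 1)) (Fin (2 * m + 1)) ℝ | M.det = 1} :=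
    isClosed_eq (Continuous.matrix_det continuous_id) continuous_const
  exact h.isClosedEmbedding_subtypeVal

private theorem JN2_compact (m : ℕ) : IsCompact (JN2W m) := by
  have h1 : IsCompact (Set.pi Set.univ fun i : Fin (2 * m + 1) =>
      Set.pi Set.univ fun j : Fin (2 * m + 1) => Metric.closedBall ((1 : P m).1 i j) 1) :=
    isCompact_univ_pi fun i => isCompact_univ_pi fun j => isCompact_closedBall _ _
  have h2 := (JN2_emb m).isCompact_preimage h1
  have h3 : JN2W m = (fun g : P m => g.1) ⁻¹' (Set.pi Set.univ fun i : Fin (2 * m + 1) =>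
      Set.pi Set.univ fun j : Fin (2 * m + 1) => Metric.closedBall ((1 : P m).1 i j) 1) := by
    refine Set.ext fun g => ⟨fun hg i _ j _ => ?_, fun hg i j => ?_⟩
    · have h4 := hg i j
      rw [← Real.dist_eq] at h4
      exact h4
    · have h4 := hg i trivial j trivial
      have h5 : dist (g.1 i j) ((1 : P m).1 i j) ≤ 1 := h4
      rw [Real.dist_eq] at h5
      exact h5
  rw [h3]
  exact h2

private theorem JN2_nhds (m : ℕ) : JN2W m ∈ 𝓝 (1 : P m) := by
  have h : ∀ i j, ∀ᶠ g : P m in 𝓝 1, |g.1 i j - (1 : P m).1 i j| ≤ 1 := by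
    intro i j
    have h1 : Continuous fun g : P m => |g.1 i j - (1 : P m).1 i j| := by
      have h2 : Continuous fun g : P m => g.1 i j := (JN2_emb m).continuous.matrix_elem i j
      exact (h2.sub continuous_const).abs
    have h2 := h1.tendsto 1
    rw [sub_self, abs_zero] at h2
    exact (h2.eventually (gt_mem_nhds one_pos)).mono fun g hg => hg.le
  have h' : ∀ᶠ g : P m in 𝓝 1, ∀ i j, |g.1 i j - (1 : P m).1 i j| ≤ 1 := by
    rw [Filter.eventually_all]
    intro i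
    rw [Filter.eventually_all]
    exact h i
  exact h'

theorem tJN2 (hLUn : S_LUn) (hSq : S_Sq) (hEl : S_El) : S_JN2 := by
  intro m q hq
  have hcomm : ∀ d ∈ A m, ∀ d' ∈ A m, d * d' = d' * d := (hEl m).2.2.2.2.2.2.2.2.1
  obtain ⟨x₀, hx₀, α₀, hα₀, u₀, hu₀, -, h⟩ := (hLUn m).2 q hq
  refine ⟨α₀, hα₀, fun U hU => ?_⟩
  obtain ⟨U', hU', hUU⟩ := exists_nhds_one_split hU
  obtain ⟨V, hV, hV2⟩ := h (JN2W m ∩ U') (Filter.inter_mem (JN2_nhds m) hU')
  have hK : IsCompact ((fun x => x₀ * x) '' JN2W m) :=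
    (JN2_compact m).image (continuous_const.mul continuous_id)
  have hK' : IsCompact ((fun u => u * u₀) '' JN2W m) :=
    (JN2_compact m).image (continuous_id.mul continuous_const)
  obtain ⟨k, hk⟩ := (hSq m U' hU').2 _ hK
  obtain ⟨k', hk'⟩ := (hSq m U hU).2 _ hK'
  have hmono : ∀ l l' : ℕ, l ≤ l' → ∀ s ∈ Dp m l', s ∈ Dp m l := by
    intro l l' hll s hs
    refine ⟨hs.1, fun i j hij => le_trans ?_ (hs.2 i j hij)⟩
    exact mul_le_mul_of_nonneg_right (pow_le_pow_right₀ one_le_two hll) (hs.1.2 j).le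
  refine ⟨V, hV, max k k', fun s hs s' hs' v hv v' hv' => ?_⟩
  obtain ⟨x, hx, α, hα, u, hu, hxW, hαW, huW, he⟩ := hV2 v hv v' hv'
  have h1 : s * (x₀ * x) * s⁻¹ ∈ U' :=
    (hk s (hmono _ _ (le_max_left _ _) s hs)).1 _ (mul_mem hx₀ hx) ⟨x, hxW.1, rfl⟩
  have h2 : s'⁻¹ * (u * u₀) * s' ∈ U :=
    (hk' s' (hmono _ _ (le_max_right _ _) s' hs')).2 _ (mul_mem hu hu₀) ⟨u, huW.1, rfl⟩
  refine ⟨s * (x₀ * x) * s⁻¹ * α, hUU _ h1 _ hαW.2, s'⁻¹ * (u * u₀) * s', h2, ?_⟩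
  have h3 : s⁻¹ * (α * α₀) * s = α * α₀ := by
    rw [mul_assoc, hcomm _ (mul_mem hα hα₀) s hs.1, inv_mul_cancel_left]
  rw [he]
  calc s * (x₀ * x * (α * α₀) * (u * u₀)) * s'
      = s * (x₀ * x) * (α * α₀) * (u * u₀) * s' := by group
    _ = s * (x₀ * x) * (s⁻¹ * (α * α₀) * s) * (u * u₀) * s' := by rw [h3]
    _ = s * (x₀ * x) * s⁻¹ * α * (α₀ * s * s') * (s'⁻¹ * (u * u₀) * s') := by group

end Pool.Agent.MPEF.U.S
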