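import Pool.Agent.Lib.MP_ef3f0f_gt.U.S.Spec

/-!
# MP_ef3f0f_gt, Theorem U, `SL_n`: the set `K0` of rotations
-/

set_option autoImplicit false

namespace Pool.Agent.MPEF.U.S

open Matrix Topology

open scoped Pointwise

private theorem K0_rev {m : ℕ} (r : Fin (2 * m + 1)) : (r : ℕ) + (Fin.rev r : ℕ) = 2 * m := by
  have h1 := Fin.val_rev r
  have h2 := r.2
  omega

private theorem K0_even {m : ℕ} {r s : Fin (2 * m + 1)} (h : (r : ℕ) + s = 2 * m) :
    Even ((r : ℕ) + m) ↔ Even ((s : ℕ) + m) := by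
  have h1 : (r : ℕ) + m + (s + m) = 2 * (2 * m) := by omega
  have h2 : Even ((r : ℕ) + m + (s + m)) := by
    rw [h1]
    exact even_two_mul _
  exact Nat.even_add.1 h2

private theorem K0_diag_even {m : ℕ} {r : Fin (2 * m + 1)} (h : Even ((r : ℕ) + m)) (θ : ℝ)
    (s : Fin (2 * m + 1)) : rot m θ r s = if r = s then 1 else 0 := by
  simp only [rot, Matrix.of_apply]
  by_cases h1 : r = s
  · rw [if_pos h1, if_pos h, if_pos h1]
  · rw [if_neg h1, if_neg (fun h2 => h2.2 h), if_neg h1]

private theorem K0_odd_self {m : ℕ} {r : Fin (2 * m + 1)} (h : ¬ Even ((r : ℕ) + m)) (θ : ℝ) :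
    rot m θ r r = Real.cos θ := by
  simp only [rot, Matrix.of_apply]
  rw [if_true, if_neg h]

private theorem K0_odd_rev {m : ℕ} {r s : Fin (2 * m + 1)} (h : ¬ Even ((r : ℕ) + m))
    (hrs : (r : ℕ) + s = 2 * m) (θ : ℝ) :
    rot m θ r s = if r < s then Real.sin θ else - Real.sin θ := by
  have h1 : r ≠ s := by
    intro h1
    rw [← h1] at hrs
    apply h
    have : (r : ℕ) + m = 2 * m := by omega
    rw [this]
    exact even_two_mul m
  simp only [rot, Matrix.of_apply]
  rw [if_neg h1, if_pos ⟨hrs, h⟩]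

private theorem K0_odd_zero {m : ℕ} {r s : Fin (2 * m + 1)} (hrs : (r : ℕ) + s ≠ 2 * m)
    (h1 : r ≠ s) (θ : ℝ) : rot m θ r s = 0 := by
  simp only [rot, Matrix.of_apply]
  rw [if_neg h1, if_neg (fun h2 => hrs h2.1)]

private theorem K0_mul (m : ℕ) (θ φ : ℝ) : rot m θ * rot m φ = rot m (θ + φ) := by
  ext r s
  rw [Matrix.mul_apply]
  by_cases h : Even ((r : ℕ) + m)
  · rw [Fintype.sum_eq_single r]
    · rw [K0_diag_even h, if_pos rfl, one_mul, K0_diag_even h, K0_diag_even h]
    · intro x hx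
      rw [K0_diag_even h, if_neg (Ne.symm hx), zero_mul]
  · obtain ⟨r', hr'⟩ : ∃ r' : Fin (2 * m + 1), (r : ℕ) + r' = 2 * m := ⟨_, K0_rev r⟩
    have hne : r ≠ r' := by
      intro h1
      rw [← h1] at hr'
      apply h
      have : (r : ℕ) + m = 2 * m := by omega
      rw [this]
      exact even_two_mul m
    have h' : ¬ Even ((r' : ℕ) + m) := fun h2 => h ((K0_even hr').2 h2)
    have hr2 : (r' : ℕ) + r = 2 * m := by omega
    rw [Fintype.sum_eq_add r r' hne, K0_odd_self h, K0_odd_rev h hr']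
    · by_cases h1 : s = r
      · rw [h1, K0_odd_self h, K0_odd_rev h' hr2, K0_odd_self h, Real.cos_add]
        rcases lt_or_gt_of_ne hne with h2 | h2
        · rw [if_pos h2, if_neg (not_lt.2 h2.le)]
          ring
        · rw [if_neg (not_lt.2 h2.le), if_pos h2]
          ring
      · by_cases h3 : s = r'
        · rw [h3, K0_odd_self h', K0_odd_rev h hr', K0_odd_rev h hr', Real.sin_add]
          split_ifs <;> ring
        · rw [K0_odd_zero (r := r) (s := s) (fun h4 => h3 (Fin.ext (by omega))) (Ne.symm h1),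
            K0_odd_zero (r := r') (s := s) (fun h4 => h1 (Fin.ext (by omega))) (Ne.symm h3),
            K0_odd_zero (r := r) (s := s) (fun h4 => h3 (Fin.ext (by omega))) (Ne.symm h1)]
          ring
    · intro x hx
      rw [K0_odd_zero (r := r) (s := x) (fun h4 => hx.2 (Fin.ext (by omega))) (Ne.symm hx.1),
        zero_mul]

private theorem K0_zero (m : ℕ) : rot m 0 = 1 := by
  ext r s
  simp only [rot, Matrix.of_apply, Real.cos_zero, Real.sin_zero, neg_zero, ite_self]
  rw [Matrix.one_apply]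

private theorem K0_transpose (m : ℕ) (θ : ℝ) : (rot m θ).transpose = rot m (-θ) := by
  ext r s
  rw [Matrix.transpose_apply]
  by_cases h1 : r = s
  · rw [h1]
    simp only [rot, Matrix.of_apply, Real.cos_neg, if_true]
  · by_cases h2 : (r : ℕ) + s = 2 * m
    · by_cases h : Even ((r : ℕ) + m)
      · rw [K0_diag_even h, K0_diag_even ((K0_even h2).1 h), if_neg h1, if_neg (Ne.symm h1)]
      · have h' : ¬ Even ((s : ℕ) + m) := fun h3 => h ((K0_even h2).2 h3)
        rw [K0_odd_rev h h2, K0_odd_rev h' (by omega), Real.sin_neg, neg_neg]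
        rcases lt_or_gt_of_ne h1 with h3 | h3
        · rw [if_neg (not_lt.2 h3.le), if_pos h3]
        · rw [if_pos h3, if_neg (not_lt.2 h3.le)]
    · rw [K0_odd_zero h2 h1, K0_odd_zero (by omega) (Ne.symm h1)]

private theorem K0_orth (m : ℕ) (θ : ℝ) : rot m θ * (rot m θ).transpose = 1 := by
  rw [K0_transpose, K0_mul, add_neg_cancel, K0_zero]

private theorem K0_det (m : ℕ) (θ : ℝ) : (rot m θ).det = 1 := by
  have h1 : rot m θ = rot m (θ / 2) * rot m (θ / 2) := by
    rw [K0_mul]
    congr 1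
    ring
  have h2 := congrArg Matrix.det (K0_orth m (θ / 2))
  rw [Matrix.det_mul, Matrix.det_transpose, Matrix.det_one] at h2
  rw [h1, Matrix.det_mul, h2]

/-- **The set `K0`.** -/
theorem tK0 : S_K0 := by
  intro m
  refine ⟨?_, ⟨0, (K0_zero m).symm⟩, ⟨Real.pi, ?_⟩, ?_⟩
  · have h1 : K0 m = Set.range (fun θ : ℝ => (⟨rot m θ, K0_det m θ⟩ : P m)) := by
      ext k
      constructor
      · rintro ⟨θ, hθ⟩
        exact ⟨θ, Subtype.ext hθ.symm⟩
      · rintro ⟨θ, rfl⟩
        exact ⟨θ, rfl⟩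
    rw [h1]
    refine isPreconnected_range (Continuous.subtype_mk ?_ _)
    refine continuous_matrix fun r s => ?_
    simp only [rot, Matrix.of_apply]
    split_ifs
    · exact continuous_const
    · exact Real.continuous_cos
    · exact Real.continuous_sin
    · exact Real.continuous_sin.neg
    · exact continuous_const
  · ext r s
    show Matrix.diagonal _ r s = _
    rw [Matrix.diagonal_apply]
    simp only [rot, Matrix.of_apply, Real.cos_pi, Real.sin_pi, neg_zero, ite_self]
    by_cases h1 : r = s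
    · rw [if_pos h1, if_pos h1]
      by_cases h : Even ((r : ℕ) + m)
      · rw [if_pos h, h.neg_one_pow]
      · rw [if_neg h, (Nat.not_even_iff_odd.1 h).neg_one_pow]
    · rw [if_neg h1, if_neg h1]
  · rintro k ⟨θ, hθ⟩
    rw [hθ]
    exact K0_orth m θ

end Pool.Agent.MPEF.U.S
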