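import Pool.Agent.Lib.MP_ef3f0f_gt.U.S.Spec

/-!
# MP_ef3f0f_gt, Theorem U, `SL_n(ℝ)`: the LU decomposition (helper26)
-/

set_option autoImplicit false

namespace Pool.Agent.MPEF.U.S

open Matrix Topology
open scoped Pointwise

/-- The upper triangular factor (a formula for every matrix). -/
private noncomputable def LU_X {n : ℕ} (q : Matrix (Fin n) (Fin n) ℝ) : Matrix (Fin n) (Fin n) ℝ :=
  Matrix.of fun s j => if h : (s : ℕ) < j + 1 then
    (lead q (j + 1)).adjugate ⟨s, h⟩ (Fin.last j) / (lead q (j + 1)).det else 0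

private theorem LU_X_gt {n : ℕ} (q : Matrix (Fin n) (Fin n) ℝ) (s j : Fin n) (h : j < s) :
    LU_X q s j = 0 := by
  unfold LU_X
  rw [Matrix.of_apply, dif_neg]
  have h1 : (j : ℕ) < s := h
  omega

private theorem LU_X_diag {n : ℕ} (q : Matrix (Fin n) (Fin n) ℝ) (j : Fin n) :
    LU_X q j j = (lead q j).det / (lead q (j + 1)).det := by
  unfold LU_X
  rw [Matrix.of_apply, dif_pos (Nat.lt_succ_self (j : ℕ))]
  congr 1
  have h1 : (⟨(j : ℕ), Nat.lt_succ_self (j : ℕ)⟩ : Fin ((j : ℕ) + 1)) = Fin.last j := rfl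
  rw [h1, Matrix.adjugate_fin_succ_eq_det_submatrix, ← two_mul, pow_mul, neg_one_sq, one_pow,
    one_mul]
  congr 1
  ext r s
  rw [Matrix.submatrix_apply, Fin.succAbove_last]
  rfl

private theorem LU_N {n : ℕ} (q : Matrix (Fin n) (Fin n) ℝ) (r j : Fin n)
    (hr : (r : ℕ) ≤ j) (hd : (lead q (j + 1)).det ≠ 0) :
    (q * LU_X q) r j = if r = j then 1 else 0 := by
  obtain ⟨F, hF⟩ : ∃ F : ℕ → ℝ, F = fun s => if h : s < (j : ℕ) + 1 then
    ent q r s * (lead q (j + 1)).adjugate ⟨s, h⟩ (Fin.last j) / (lead q (j + 1)).det else 0 :=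
    ⟨_, rfl⟩
  have h1 : (q * LU_X q) r j = ∑ s : Fin n, F s := by
    rw [Matrix.mul_apply]
    refine Finset.sum_congr rfl fun s _ => ?_
    rw [hF]
    unfold LU_X
    rw [Matrix.of_apply]
    by_cases h : (s : ℕ) < j + 1
    · rw [dif_pos h]
      simp only [dif_pos h]
      have h2 : ent q r s = q r s := by
        unfold ent
        rw [dif_pos ⟨r.2, s.2⟩]
      rw [h2]
      ring
    · rw [dif_neg h]
      simp only [dif_neg h]
      rw [mul_zero]
  have h2 : ∑ s : Fin n, F s = ∑ s : Fin ((j : ℕ) + 1), F s := by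
    rw [Fin.sum_univ_eq_sum_range, Fin.sum_univ_eq_sum_range]
    symm
    apply Finset.sum_subset
    · intro x hx
      rw [Finset.mem_range] at hx ⊢
      have := j.2
      omega
    · intro x _ hx
      rw [Finset.mem_range] at hx
      rw [hF]
      exact dif_neg hx
  have h3 : ∑ s : Fin ((j : ℕ) + 1), F s =
      (lead q (j + 1) * (lead q (j + 1)).adjugate) ⟨r, Nat.lt_succ_of_le hr⟩ (Fin.last j) /
        (lead q (j + 1)).det := by
    rw [Matrix.mul_apply, Finset.sum_div]
    refine Finset.sum_congr rfl fun s _ => ?_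
    rw [hF]
    simp only [dif_pos s.2]
    rfl
  rw [h1, h2, h3, Matrix.mul_adjugate, Matrix.smul_apply, smul_eq_mul, mul_div_assoc,
    mul_comm, div_mul_cancel₀ _ hd, Matrix.one_apply]
  have h4 : ((⟨r, Nat.lt_succ_of_le hr⟩ : Fin ((j : ℕ) + 1)) = Fin.last j) ↔ r = j := by
    rw [Fin.ext_iff, Fin.ext_iff]
    rfl
  by_cases h5 : r = j
  · rw [if_pos h5, if_pos (h4.2 h5)]
  · rw [if_neg h5, if_neg (fun h => h5 (h4.1 h))]

private theorem LU_det {n : ℕ} (q : Matrix (Fin n) (Fin n) ℝ)
    (hd : ∀ j : Fin n, (lead q (j + 1)).det ≠ 0) : (q * LU_X q).det = 1 := by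
  rw [Matrix.det_of_isLowerTriangular]
  · apply Finset.prod_eq_one
    intro i _
    rw [LU_N q i i le_rfl (hd i), if_pos rfl]
  · intro i j hij
    have h1 : (i : ℕ) < j := hij
    rw [LU_N q i j h1.le (hd j), if_neg]
    intro h2
    rw [h2] at h1
    exact lt_irrefl _ h1

private theorem LU_ent {n : ℕ} (r s : ℕ) :
    Continuous fun q : Matrix (Fin n) (Fin n) ℝ => ent q r s := by
  unfold ent
  by_cases h : r < n ∧ s < n
  · simp only [dif_pos h]
    exact continuous_id.matrix_elem _ _
  · simp only [dif_neg h]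
    exact continuous_const

private theorem LU_lead {n : ℕ} (k : ℕ) :
    Continuous fun q : Matrix (Fin n) (Fin n) ℝ => lead q k := by
  apply continuous_matrix
  intro i j
  exact LU_ent i j

theorem tLU (hMin : S_Min) : S_LU := by
  classical
  intro m
  have hpos : ∀ q : P m, Pos (w m) q → ∀ j : Fin (2 * m + 1), 0 < (lead q.1 (j + 1)).det := by
    intro q hq j
    have := j.2
    exact (hMin m q).2.1 hq _ (by omega)
  have hpos' : ∀ q : P m, Pos (w m) q → ∀ j : Fin (2 * m + 1), 0 < (lead q.1 j).det := by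
    intro q hq j
    have := j.2
    exact (hMin m q).2.1 hq _ (by omega)
  have hdN : ∀ q : P m, Pos (w m) q → (q.1 * LU_X q.1).det = 1 := fun q hq =>
    LU_det q.1 fun j => (hpos q hq j).ne'
  have hdX : ∀ q : P m, Pos (w m) q → (LU_X q.1).det = 1 := by
    intro q hq
    have h := hdN q hq
    rw [Matrix.det_mul, q.2, one_mul] at h
    exact h
  refine ⟨fun q => if h : (LU_X q.1).det = 1 then q * ⟨LU_X q.1, h⟩ else 1, ?_, ?_⟩
  · have hind : Topology.IsInducing (fun q : P m => q.1) := Topology.IsInducing.subtypeVal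
    rw [hind.continuousOn_iff]
    have h1 : ContinuousOn (fun q : P m => q.1 * LU_X q.1) {q | Pos (w m) q} := by
      apply continuousOn_pi.2
      intro r
      apply continuousOn_pi.2
      intro j
      have h2 : ∀ q : P m, (q.1 * LU_X q.1) r j = ∑ s, q.1 r s * LU_X q.1 s j := fun q =>
        Matrix.mul_apply
      simp only [h2]
      apply continuousOn_finsetSum
      intro s _
      apply ContinuousOn.mul
      · exact (continuous_subtype_val.matrix_elem r s).continuousOn
      · unfold LU_X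
        simp only [Matrix.of_apply]
        by_cases h : (s : ℕ) < j + 1
        · simp only [dif_pos h]
          have h3 : Continuous fun q : P m => lead q.1 (j + 1) :=
            (LU_lead _).comp continuous_subtype_val
          apply ContinuousOn.div
          · exact (h3.matrix_adjugate.matrix_elem _ _).continuousOn
          · exact h3.matrix_det.continuousOn
          · intro q hq
            exact (hpos q hq j).ne'
        · simp only [dif_neg h]
          exact continuousOn_const
    refine h1.congr fun q hq => ?_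
    have hq' : Pos (w m) q := hq
    simp only [Function.comp_apply, dif_pos (hdX q hq')]
    rfl
  · intro q hq
    have h1 := hdX q hq
    simp only [dif_pos h1]
    refine ⟨⟨fun i j hij => ?_, fun i => ?_⟩, ?_⟩
    · have h2 : (i : ℕ) < j := hij
      change (q.1 * LU_X q.1) i j = 0
      rw [LU_N q.1 i j h2.le (hpos q hq j).ne', if_neg (ne_of_lt hij)]
    · change (q.1 * LU_X q.1) i i = 1
      rw [LU_N q.1 i i le_rfl (hpos q hq i).ne', if_pos rfl]
    · have h2 : (⟨LU_X q.1, h1⟩ : P m) ∈ Bor m := by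
        refine ⟨fun i j hij => LU_X_gt q.1 i j hij, fun i => ?_⟩
        change 0 < LU_X q.1 i i
        rw [LU_X_diag]
        exact div_pos (hpos' q hq i) (hpos q hq i)
      have h3 : ∀ Y : P m, Y ∈ Bor m → (q * Y)⁻¹ * q ∈ Bor m := by
        intro Y hY
        have h4 : (q * Y)⁻¹ * q = Y⁻¹ := by group
        rw [h4]
        exact (Bor m).inv_mem hY
      exact h3 _ h2

end Pool.Agent.MPEF.U.S
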