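import Pool.Agent.Lib.MP_ef3f0f_gt.U.S.Spec

/-!
# MP_ef3f0f_gt, Theorem U, `SL_n(ℝ)`: the converse of LU (helper26)
-/

set_option autoImplicit false

namespace Pool.Agent.MPEF.U.S

open Matrix Topology
open scoped Pointwise

theorem tLUi (hInvP : S_InvP) (hEl : S_El) : S_LUi := by
  intro m
  obtain ⟨p1, p2, p3, p4, _, p6⟩ := hInvP m
  obtain ⟨e1, _, _, e4, _, _, _, _, _, e10, e11, _, e13, e14, _, _, _, _⟩ := hEl m
  have key : ∀ x ∈ Nm m, ∀ b ∈ Bor m, Pos (w m) (x * b) := by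
    intro x hx b hb
    rw [p6 _ _ b hb, ← p1 x⁻¹, inv_mul_cancel]
    have h1 : x⁻¹ * w m = w m * (w m * x⁻¹ * w m) := by
      rw [← mul_assoc, ← mul_assoc, e1, one_mul]
    rw [h1, p2 _ _ _ (e11 (e13 _ ((Nm m).inv_mem hx))), p3]
    exact p4
  refine ⟨key, ?_⟩
  intro x hx d hd u hu
  have h1 : w m * (x * d * u)⁻¹ * w m =
      (w m * u⁻¹ * w m) * ((w m * d⁻¹ * w m) * (w m * x⁻¹ * w m)) := by
    calc w m * (x * d * u)⁻¹ * w m
        = w m * u⁻¹ * 1 * d⁻¹ * 1 * x⁻¹ * w m := by group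
      _ = w m * u⁻¹ * (w m * w m) * d⁻¹ * (w m * w m) * x⁻¹ * w m := by rw [e1]
      _ = (w m * u⁻¹ * w m) * ((w m * d⁻¹ * w m) * (w m * x⁻¹ * w m)) := by
          simp only [mul_assoc]
  rw [h1]
  exact key _ (e14 _ ((Np m).inv_mem hu)) _
    ((Bor m).mul_mem (e10 (e4 _ ((A m).inv_mem hd))) (e11 (e13 _ ((Nm m).inv_mem hx))))

end Pool.Agent.MPEF.U.S
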