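import Pool.Agent.Lib.MP_ef3f0f_gt.U.S.Spec

/-!
# MP_ef3f0f_gt, Theorem U, `SL_n(ℝ)`: LU decomposition near a point (helper26)
-/

set_option autoImplicit false
set_option linter.unusedSectionVars false

namespace Pool.Agent.MPEF.U.S

open Matrix Topology
open scoped Pointwise

section gen

variable {G : Type} [Group G] [TopologicalSpace G] [IsTopologicalGroup G]

private theorem LUn_div (U : Set G) (hU : U ∈ 𝓝 (1 : G)) :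
    ∃ V ∈ 𝓝 (1 : G), ∀ a ∈ V, ∀ b ∈ V, a⁻¹ * b ∈ U := by
  have h1 : Continuous fun p : G × G => p.1⁻¹ * p.2 := by fun_prop
  have h2 : Filter.Tendsto (fun p : G × G => p.1⁻¹ * p.2) (𝓝 (1, 1)) (𝓝 1) := by
    have h3 := h1.tendsto (1, 1)
    simpa using h3
  obtain ⟨U1, hU1, U2, hU2, h12⟩ := mem_nhds_prod_iff.1 (h2 hU)
  exact ⟨U1 ∩ U2, Filter.inter_mem hU1 hU2, fun a ha b hb => h12 (Set.mk_mem_prod ha.1 hb.2)⟩

private theorem LUn_conj2 (x c : G) (U : Set G) (hU : U ∈ 𝓝 (1 : G)) :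
    ∃ V ∈ 𝓝 (1 : G), ∀ v ∈ V, ∀ v' ∈ V, (x⁻¹ * v * x) * (c * v' * c⁻¹) ∈ U := by
  have h1 : Continuous fun p : G × G => (x⁻¹ * p.1 * x) * (c * p.2 * c⁻¹) := by fun_prop
  have h2 : Filter.Tendsto (fun p : G × G => (x⁻¹ * p.1 * x) * (c * p.2 * c⁻¹))
      (𝓝 (1, 1)) (𝓝 1) := by
    have h3 := h1.tendsto (1, 1)
    simpa using h3
  obtain ⟨U1, hU1, U2, hU2, h12⟩ := mem_nhds_prod_iff.1 (h2 hU)
  exact ⟨U1 ∩ U2, Filter.inter_mem hU1 hU2, fun a ha b hb => h12 (Set.mk_mem_prod ha.1 hb.2)⟩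

private theorem LUn_conj (a : G) (U : Set G) (hU : U ∈ 𝓝 (1 : G)) :
    ∃ V ∈ 𝓝 (1 : G), ∀ u ∈ V, a⁻¹ * u * a ∈ U := by
  have h1 : Continuous fun u : G => a⁻¹ * u * a := by fun_prop
  have h2 : Filter.Tendsto (fun u : G => a⁻¹ * u * a) (𝓝 1) (𝓝 1) := by
    have h3 := h1.tendsto 1
    simpa using h3
  exact ⟨_, h2 hU, fun u hu => hu⟩

private theorem LUn_f (f : G → G) (hf : ContinuousAt f 1) (hf1 : f 1 = 1) (U W : Set G)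
    (hU : U ∈ 𝓝 (1 : G)) (hW : W ∈ 𝓝 (1 : G)) :
    {g : G | f g ∈ U ∧ (f g)⁻¹ * g ∈ W} ∈ 𝓝 (1 : G) := by
  have h2 : Filter.Tendsto f (𝓝 1) (𝓝 1) := by
    have h := hf.tendsto
    rwa [hf1] at h
  have h3 : Filter.Tendsto (fun g => (f g)⁻¹ * g) (𝓝 1) (𝓝 1) := by
    have h := (h2.inv).mul (Filter.tendsto_id (α := G) (x := 𝓝 1))
    rw [inv_one, mul_one] at h
    exact h
  exact Filter.inter_mem (h2 hU) (h3 hW)

private theorem LUn_grp1 (x v y c q v' : G) (hq : q = x * c) :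
    v * q * v' = x * ((x⁻¹ * v * x) * (c * v' * c⁻¹)) * c ∧ y * (y⁻¹ * v) = v := by
  refine ⟨?_, by group⟩
  rw [hq]
  group

private theorem LUn_grp2 (x₀ x α α₀ u' u₀ : G) :
    x₀ * (x * α * u') * (α₀ * u₀) = (x₀ * x) * (α * α₀) * (α₀⁻¹ * u' * α₀ * u₀) := by
  group

private theorem LUn_grp3 (b d u : G) (h : b = d * u) : u = d⁻¹ * b := by
  rw [h]
  group

end gen

theorem tLUn (hLU : S_LU) (hEl : S_El) (hNb : S_Nb) (hInvP : S_InvP) (hOp : S_Op) : S_LUn := by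
  intro m
  obtain ⟨f, hf1, hf2⟩ := hLU m
  obtain ⟨_, _, p3, p4, _, _⟩ := hInvP m
  obtain ⟨_, _, _, _, _, _, _, _, _, _, _, _, _, _, _, e16, e17, e18⟩ := hEl m
  obtain ⟨n1, n2, _⟩ := hNb m
  have hw1 : Pos (w m) 1 := (p3 _ _).1 p4
  have hopen : IsOpen {q : P m | Pos (w m) q} :=
    (hOp m).1.preimage (Continuous.prodMk continuous_const continuous_id)
  have hfc : ContinuousAt f 1 := hf1.continuousAt (hopen.mem_nhds hw1)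
  have hf11 : f 1 = 1 := by
    obtain ⟨h1, h2⟩ := hf2 1 hw1
    refine e17 _ h1 ?_
    rw [mul_one] at h2
    have h3 := (Bor m).inv_mem h2
    rwa [inv_inv] at h3
  -- the diagonal part of a small element is small
  have hdiag : ∀ U ∈ 𝓝 (1 : P m), ∃ W ∈ 𝓝 (1 : P m), ∀ b ∈ W, ∀ d ∈ A m,
      (∀ i, d.1 i i = b.1 i i) → d ∈ U := by
    intro U hU
    obtain ⟨ε, hε, h1⟩ := n1 U hU
    refine ⟨_, n2 ε hε, fun b hb d hd hdb => h1 d fun i j => ?_⟩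
    by_cases hij : i = j
    · subst hij
      rw [hdb i]
      exact hb i i
    · rw [hd.1 i j hij]
      have h2 : (1 : P m).1 i j = 0 := Matrix.one_apply_ne hij
      rw [h2, sub_zero, abs_zero]
      exact hε
  have hone : ∀ U ∈ 𝓝 (1 : P m), ∃ V ∈ 𝓝 (1 : P m), ∀ g ∈ V, ∃ x ∈ Nm m, ∃ α ∈ A m,
      ∃ u ∈ Np m, x ∈ U ∧ α ∈ U ∧ u ∈ U ∧ g = x * α * u := by
    intro U hU
    obtain ⟨U1, hU1, h12⟩ := LUn_div U hU
    obtain ⟨W, hW, hWd⟩ := hdiag (U ∩ U1) (Filter.inter_mem hU hU1)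
    have hV := LUn_f f hfc hf11 U (W ∩ U1) hU (Filter.inter_mem hW hU1)
    refine ⟨_, Filter.inter_mem (hopen.mem_nhds hw1) hV, ?_⟩
    rintro g ⟨hg1, hg2⟩
    obtain ⟨hg2, hg3⟩ : f g ∈ U ∧ (f g)⁻¹ * g ∈ W ∩ U1 := hg2
    obtain ⟨h1, h2⟩ := hf2 g hg1
    obtain ⟨d, hd, u, hu, hdu, hdd⟩ := e18 _ h2
    obtain ⟨b, hb⟩ : ∃ b, b = (f g)⁻¹ * g := ⟨_, rfl⟩
    have hgb : f g * b = g := by
      rw [hb]
      exact (LUn_grp1 1 g (f g) 1 1 1 (mul_one _).symm).2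
    rw [← hb] at hg3 hdu hdd
    have hdU : d ∈ U ∩ U1 := hWd b hg3.1 d hd hdd
    have hu' : u = d⁻¹ * b := LUn_grp3 b d u hdu
    refine ⟨f g, h1, d, hd, u, hu, hg2, hdU.1, ?_, ?_⟩
    · rw [hu']
      exact h12 d hdU.2 b hg3.2
    · rw [mul_assoc, ← hdu, hgb]
  refine ⟨hone, ?_⟩
  intro q hq
  obtain ⟨hx0, hb0⟩ := hf2 q hq
  obtain ⟨α₀, hα₀, u₀, hu₀, hb, _⟩ := e18 _ hb0
  obtain ⟨x₀, hx₀⟩ : ∃ x₀, x₀ = f q := ⟨_, rfl⟩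
  rw [← hx₀] at hx0 hb
  have hq1 : q = x₀ * (α₀ * u₀) := by
    rw [← hb]
    exact (LUn_grp1 1 q x₀ 1 1 1 (mul_one _).symm).2.symm
  have hq0 : q = x₀ * α₀ * u₀ := by
    rw [mul_assoc]
    exact hq1
  refine ⟨x₀, hx0, α₀, hα₀, u₀, hu₀, hq0, ?_⟩
  intro U hU
  obtain ⟨U2, hU2, hU2'⟩ := LUn_conj α₀ U hU
  obtain ⟨V1, hV1, hV1'⟩ := hone (U ∩ U2) (Filter.inter_mem hU hU2)
  obtain ⟨V2, hV2, hV2'⟩ := LUn_conj2 x₀ (α₀ * u₀) V1 hV1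
  refine ⟨V2, hV2, fun v hv v' hv' => ?_⟩
  obtain ⟨x, hx, α, hα, u', hu', hxU, hαU, huU, hg⟩ := hV1' _ (hV2' v hv v' hv')
  refine ⟨x, hx, α, hα, α₀⁻¹ * u' * α₀, ?_, hxU.1, hαU.1, hU2' u' huU.2, ?_⟩
  · have hαi := (A m).inv_mem hα₀
    have h1 := e16 _ hαi u'
    rw [inv_inv] at h1
    refine ⟨fun i j hij => ?_, fun i => ?_⟩
    · rw [h1, hu'.1 i j hij, mul_zero, zero_mul]
    · rw [h1, hu'.2 i, mul_one]
      exact mul_inv_cancel₀ (hαi.2 i).ne'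
  · rw [(LUn_grp1 x₀ v 1 (α₀ * u₀) q v' hq1).1, hg]
    exact LUn_grp2 x₀ x α α₀ u' u₀

end Pool.Agent.MPEF.U.S
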