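import Pool.Agent.Lib.MP_ef3f0f_gt.U.S.Spec

/-!
# MP_ef3f0f_gt, Theorem U: eigenframes (`S_LX`)
-/

set_option autoImplicit false

namespace Pool.Agent.MPEF.U.S

open Matrix Topology
open scoped Pointwise

private theorem LX_Dp {m k l : ℕ} (h : l ≤ k) {s : P m} (hs : s ∈ Dp m k) : s ∈ Dp m l := by
  refine ⟨hs.1, fun i j hij => le_trans ?_ (hs.2 i j hij)⟩
  exact mul_le_mul_of_nonneg_right (pow_le_pow_right₀ (by norm_num) h) (hs.1.2 j).le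

private theorem LX_nhds {m : ℕ} {α : Type} [TopologicalSpace α]
    (Φ : P m × P m × P m × P m → α) (hΦ : Continuous Φ) {N : Set α} (hN : N ∈ 𝓝 (Φ (1, 1, 1, 1))) :
    ∃ U ∈ 𝓝 (1 : P m), ∀ x ∈ U, ∀ x' ∈ U, ∀ v ∈ U, ∀ v' ∈ U, Φ (x, x', v, v') ∈ N := by
  have h1 := hΦ.continuousAt.preimage_mem_nhds hN
  obtain ⟨U₁, hU₁, W₁, hW₁, h2⟩ := mem_nhds_prod_iff.1 h1
  obtain ⟨U₂, hU₂, W₂, hW₂, h3⟩ := mem_nhds_prod_iff.1 hW₁
  obtain ⟨U₃, hU₃, U₄, hU₄, h4⟩ := mem_nhds_prod_iff.1 hW₂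
  refine ⟨U₁ ∩ U₂ ∩ (U₃ ∩ U₄), Filter.inter_mem (Filter.inter_mem hU₁ hU₂)
    (Filter.inter_mem hU₃ hU₄), fun x hx x' hx' v hv v' hv' => ?_⟩
  exact h2 (Set.mk_mem_prod hx.1.1 (h3 (Set.mk_mem_prod hx'.1.2 (h4
    (Set.mk_mem_prod hv.2.1 hv'.2.2)))))

private theorem LX_c1 {m : ℕ} (a b c d : P m) : Continuous fun p : P m × P m × P m × P m =>
    p.2.2.2⁻¹ * a * p.2.2.1⁻¹ * b * p.2.1 * c * d := by
  have c2 : Continuous fun p : P m × P m × P m × P m => p.2.1 := continuous_fst.comp continuous_snd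
  have c3 : Continuous fun p : P m × P m × P m × P m => p.2.2.1 :=
    continuous_fst.comp (continuous_snd.comp continuous_snd)
  have c4 : Continuous fun p : P m × P m × P m × P m => p.2.2.2 :=
    continuous_snd.comp (continuous_snd.comp continuous_snd)
  exact (((((c4.inv.mul continuous_const).mul c3.inv).mul continuous_const).mul c2).mul
    continuous_const).mul continuous_const

private theorem LX_c2 {m : ℕ} (a b c : P m) : Continuous fun p : P m × P m × P m × P m =>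
    a * p.1⁻¹ * p.2.2.2⁻¹ * b * p.2.2.1⁻¹ * c * p.2.1 := by
  have c1 : Continuous fun p : P m × P m × P m × P m => p.1 := continuous_fst
  have c2 : Continuous fun p : P m × P m × P m × P m => p.2.1 := continuous_fst.comp continuous_snd
  have c3 : Continuous fun p : P m × P m × P m × P m => p.2.2.1 :=
    continuous_fst.comp (continuous_snd.comp continuous_snd)
  have c4 : Continuous fun p : P m × P m × P m × P m => p.2.2.2 :=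
    continuous_snd.comp (continuous_snd.comp continuous_snd)
  exact (((((continuous_const.mul c1.inv).mul c4.inv).mul continuous_const).mul c3.inv).mul
    continuous_const).mul c2

/-- The construction. -/
private theorem LX_one {m : ℕ} {f : P m → P m}
    (hf : ∀ q, Pos (w m) q → f q ∈ Nm m ∧ (f q)⁻¹ * q ∈ Bor m) (hww : w m * w m = 1)
    (hwx : ∀ x : P m, ∀ i j, (w m * x * w m).1 i j = (-1) ^ ((i : ℕ) + j) * x.1 i.rev j.rev)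
    (hwN : ∀ x ∈ Nm m, w m * x * w m ∈ Np m) (hNB : Np m ≤ Bor m)
    {s q v v' x₁ x₂ b₁ b₂ : P m} (hb₁ : b₁ ∈ Bor m) (hb₂ : b₂ ∈ Bor m)
    (h1 : s * (v * q * v') * x₁ = x₁ * b₁) (h1d : ∀ i j, i < j → b₁.1 j j < b₁.1 i i)
    (h2 : w m * s⁻¹ * w m * (w m * v'⁻¹ * w m * (w m * q⁻¹ * w m) * (w m * v⁻¹ * w m)) * x₂ =
      x₂ * b₂) (hP : Pos (w m) (w m * x₁⁻¹ * v'⁻¹ * q⁻¹ * v⁻¹ * w m * x₂)) :
    ∃ z : P m, z⁻¹ * (s * (v * q * v')) * z ∈ App m ∧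
      (∃ b ∈ Bor m, z = x₁ * b) ∧
      ∃ b ∈ Bor m, z * w m = (v'⁻¹ * q⁻¹ * v⁻¹ * w m * x₂ * w m * q) * (q⁻¹ * w m) * b := by
  have hc : ∀ x, w m * (w m * x) = x := fun x => by rw [← mul_assoc, hww, one_mul]
  obtain ⟨L, hL⟩ : ∃ L, L = s * (v * q * v') := ⟨_, rfl⟩
  rw [← hL] at h1 ⊢
  obtain ⟨y, hy⟩ : ∃ y, y = v'⁻¹ * q⁻¹ * v⁻¹ * w m * x₂ := ⟨_, rfl⟩
  obtain ⟨t, ht⟩ : ∃ t, t = x₁⁻¹ * y := ⟨_, rfl⟩
  have hwt : w m * t = w m * x₁⁻¹ * v'⁻¹ * q⁻¹ * v⁻¹ * w m * x₂ := by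
    rw [ht, hy]
    group
  rw [← hwt] at hP
  obtain ⟨x, hx⟩ : ∃ x, x = f (w m * t) := ⟨_, rfl⟩
  obtain ⟨b₃, hb₃e⟩ : ∃ b₃, b₃ = x⁻¹ * (w m * t) := ⟨_, rfl⟩
  have hxN : x ∈ Nm m := by
    rw [hx]
    exact (hf _ hP).1
  have hb₃ : b₃ ∈ Bor m := by
    rw [hb₃e, hx]
    exact (hf _ hP).2
  obtain ⟨u, hu⟩ : ∃ u, u = w m * x * w m := ⟨_, rfl⟩
  have huN : u ∈ Np m := by
    rw [hu]
    exact hwN x hxN
  have htu : t = u * w m * b₃ := by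
    rw [hu, hb₃e]
    simp only [mul_assoc, hc, mul_inv_cancel_left]
  have hLy : L * y * b₂ = y := by
    have h3 : w m * x₂ * b₂ = s⁻¹ * (v'⁻¹ * q⁻¹ * v⁻¹ * w m * x₂) := by
      rw [mul_assoc, ← h2]
      simp only [mul_assoc, hc]
    rw [hy, hL]
    have h4 : s * (v * q * v') * (v'⁻¹ * q⁻¹ * v⁻¹ * w m * x₂) * b₂ = s * (w m * x₂ * b₂) := by
      group
    rw [h4, h3]
    group
  have hzy : x₁ * u * w m * b₃ = y := by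
    have : x₁ * t = y := by
      rw [ht]
      group
    rw [← this, htu]
    group
  have hA1 : (x₁ * u)⁻¹ * L * (x₁ * u) = u⁻¹ * b₁ * u := by
    have : L = x₁ * b₁ * x₁⁻¹ := by
      rw [← h1]
      group
    rw [this]
    group
  have hA2 : (x₁ * u)⁻¹ * L * (x₁ * u) = w m * (b₃ * b₂⁻¹ * b₃⁻¹) * w m := by
    have h3 : x₁ * u = y * b₃⁻¹ * (w m)⁻¹ := by
      rw [← hzy]
      group
    have h4 : L * y = y * b₂⁻¹ := by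
      rw [eq_mul_inv_iff_mul_eq]
      exact hLy
    have h5 : (w m)⁻¹ = w m := inv_eq_of_mul_eq_one_left hww
    calc (x₁ * u)⁻¹ * L * (x₁ * u) = (y * b₃⁻¹ * (w m)⁻¹)⁻¹ * (L * y) * (b₃⁻¹ * (w m)⁻¹) := by
          rw [h3]
          group
      _ = w m * (b₃ * b₂⁻¹ * b₃⁻¹) * (w m)⁻¹ := by
          rw [h4]
          group
      _ = _ := by rw [h5]
  have hBA : u⁻¹ * b₁ * u ∈ Bor m :=
    (Bor m).mul_mem ((Bor m).mul_mem ((Bor m).inv_mem (hNB huN)) hb₁) (hNB huN)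
  have hdiag : ∀ i, (u⁻¹ * b₁ * u).1 i i = b₁.1 i i := by
    intro i
    have h3 := (Np m).inv_mem huN
    have h4 := tri_mul h3.1 hb₁.1
    have h5 := tri_mul h4.1 huN.1
    have h6 : (u⁻¹ * b₁ * u).1 i i = ((u⁻¹).1 * b₁.1 * u.1) i i := rfl
    rw [h6, h5.2, h4.2, huN.2 i, h3.2 i, mul_one, one_mul]
  have hB4 : b₃ * b₂⁻¹ * b₃⁻¹ ∈ Bor m :=
    (Bor m).mul_mem ((Bor m).mul_mem hb₃ ((Bor m).inv_mem hb₂)) ((Bor m).inv_mem hb₃)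
  refine ⟨x₁ * u, ?_, ⟨u, hNB huN, rfl⟩, ⟨b₃⁻¹, (Bor m).inv_mem hb₃, ?_⟩⟩
  · rw [hA1]
    refine ⟨⟨fun i j hij => ?_, hBA.2⟩, fun i j hij => ?_⟩
    · rcases lt_or_gt_of_ne hij with h | h
      · rw [← hA1, hA2, hwx, hB4.1 i.rev j.rev (Fin.rev_lt_rev.2 h), mul_zero]
      · exact hBA.1 i j h
    · rw [hdiag, hdiag]
      exact h1d i j hij
  · rw [← hy]
    have h5 : y * w m * q * (q⁻¹ * w m) = y := by
      simp only [mul_assoc, mul_inv_cancel_left, hww, mul_one]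
    rw [h5, ← hzy]
    group

/-- Eigenframes. -/
theorem tLX (hFix : S_Fix) (hLU : S_LU) (hLUi : S_LUi) (hLUn : S_LUn) (hOp : S_Op) (hEl : S_El)
    (_hDp : S_Dp) : S_LX := by
  intro m q hq U hU
  obtain ⟨hww, hwx, -, -, -, -, -, -, -, hAB, hNB, -, hwN, -⟩ := hEl m
  obtain ⟨x₀, hx₀, α₀, hα₀, u₀, hu₀, hqe, -⟩ := (hLUn m).2 q hq
  have hq' : Pos (w m) (w m * q⁻¹ * w m) := by
    rw [hqe]
    exact (hLUi m).2 x₀ hx₀ α₀ hα₀ u₀ hu₀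
  obtain ⟨f, -, hf⟩ := hLU m
  obtain ⟨U₁, hU₁, h1⟩ := LX_nhds (m := m) (N := U)
    (fun p => p.2.2.2⁻¹ * q⁻¹ * p.2.2.1⁻¹ * w m * p.2.1 * w m * q) (LX_c1 _ _ _ _) (by
      have : ((1 : P m)⁻¹ * q⁻¹ * (1 : P m)⁻¹ * w m * 1 * w m * q) = 1 := by
        simp only [inv_one, one_mul, mul_one, mul_assoc]
        rw [← mul_assoc (w m), hww]
        simp
      show U ∈ 𝓝 ((1 : P m)⁻¹ * q⁻¹ * (1 : P m)⁻¹ * w m * 1 * w m * q)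
      rw [this]
      exact hU)
  obtain ⟨U₂, hU₂, h2⟩ := LX_nhds (m := m) (N := {g | Pos (w m) g})
    (fun p => w m * p.1⁻¹ * p.2.2.2⁻¹ * q⁻¹ * p.2.2.1⁻¹ * w m * p.2.1) (LX_c2 _ _ _) (by
      have h3 : w m * (1 : P m)⁻¹ * (1 : P m)⁻¹ * q⁻¹ * (1 : P m)⁻¹ * w m * 1 =
          w m * q⁻¹ * w m := by
        simp
      show {g | Pos (w m) g} ∈ 𝓝 (w m * (1 : P m)⁻¹ * (1 : P m)⁻¹ * q⁻¹ * (1 : P m)⁻¹ * w m * 1)
      rw [h3]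
      have h4 : IsOpen {g | Pos (w m) g} := (hOp m).1.preimage (Continuous.prodMk_right (w m))
      exact h4.mem_nhds hq')
  obtain ⟨V₁, hV₁, k₁, hF₁⟩ := hFix m q hq (U ∩ (U₁ ∩ U₂))
    (Filter.inter_mem hU (Filter.inter_mem hU₁ hU₂))
  obtain ⟨V₂, hV₂, k₂, hF₂⟩ := hFix m _ hq' (U ∩ (U₁ ∩ U₂))
    (Filter.inter_mem hU (Filter.inter_mem hU₁ hU₂))
  have hV₃ : (fun v : P m => w m * v⁻¹ * w m) ⁻¹' V₂ ∈ 𝓝 (1 : P m) := by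
    have h3 : Continuous fun v : P m => w m * v⁻¹ * w m :=
      (continuous_const.mul continuous_id.inv).mul continuous_const
    refine h3.continuousAt.preimage_mem_nhds ?_
    have h4 : w m * (1 : P m)⁻¹ * w m = 1 := by simp [hww]
    rw [h4]
    exact hV₂
  refine ⟨(U₁ ∩ U₂) ∩ (V₁ ∩ (fun v : P m => w m * v⁻¹ * w m) ⁻¹' V₂), Filter.inter_mem
    (Filter.inter_mem hU₁ hU₂) (Filter.inter_mem hV₁ hV₃), max k₁ k₂, fun s hs v hv v' hv' => ?_⟩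
  obtain ⟨x₁, hx₁, hx₁U, b₁, hb₁, he₁, hd₁⟩ := hF₁ s (LX_Dp (le_max_left _ _) hs) v hv.2.1 v' hv'.2.1
  have hsw : w m * s⁻¹ * w m ∈ Dp m k₂ := (_hDp m).2.2.2.2.1 k₂ s (LX_Dp (le_max_right _ _) hs)
  obtain ⟨x₂, hx₂, hx₂U, b₂, hb₂, he₂, -⟩ := hF₂ _ hsw (w m * v'⁻¹ * w m) hv'.2.2
    (w m * v⁻¹ * w m) hv.2.2
  obtain ⟨z, hz1, ⟨b, hb, hz2⟩, b', hb', hz3⟩ := LX_one hf hww hwx hwN hNB hb₁ hb₂ he₁ hd₁ he₂
    (h2 x₁ hx₁U.2.2 x₂ hx₂U.2.2 v hv.1.2 v' hv'.1.2)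
  exact ⟨z, hz1, ⟨x₁, hx₁U.1, b, hb, hz2⟩, _, h1 x₁ hx₁U.2.1 x₂ hx₂U.2.1 v hv.1.1 v' hv'.1.1, b',
    hb', hz3⟩

end Pool.Agent.MPEF.U.S
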