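import Pool.Agent.Lib.MP_ef3f0f_gt.U.S.Spec

set_option autoImplicit false

/-!
# MP_ef3f0f_gt, Theorem U, package `U/S`, module `Lmul`: multiplication from the left
-/

namespace Pool.Agent.MPEF.U.S

open Matrix Topology

open scoped Pointwise

theorem Lmul_det {n : ℕ} (C : Matrix (Fin n) (Fin n) ℝ) (f g : Sq n)
    (h : ∀ s < n, f s = C.mulVec (g s)) : D f = C.det * D g := by
  unfold D
  rw [← Matrix.det_transpose C, mul_comm, ← Matrix.det_mul]
  congr 1
  ext s r
  rw [Matrix.of_apply, h s s.2, Matrix.mul_apply]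
  simp only [Matrix.mulVec, dotProduct, Matrix.of_apply, Matrix.transpose_apply]
  exact Finset.sum_congr rfl fun t _ => mul_comm _ _

theorem Lmul_cl {n : ℕ} (C k : Matrix (Fin n) (Fin n) ℝ) (s : ℕ) :
    cl (C * k) s = C.mulVec (cl k s) := by
  by_cases h : s < n
  · funext r
    rw [cl_lt _ h, Matrix.mul_apply]
    simp only [Matrix.mulVec, dotProduct]
    exact Finset.sum_congr rfl fun t _ => by rw [cl_lt _ h]
  · have e : ∀ k' : Matrix (Fin n) (Fin n) ℝ, cl k' s = 0 := fun k' => by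
      funext r
      exact dif_neg h
    rw [e, e, Matrix.mulVec_zero]

theorem tLmul : S_Lmul := by
  intro n
  refine ⟨Lmul_det, Lmul_cl, fun C k k' k'' i j => Lmul_det C _ _ fun s _ => ?_⟩
  rcases lt_or_ge s i with h1 | h1
  · rw [app_lt _ _ h1, app_lt _ _ h1, Lmul_cl]
  rw [app_ge _ _ h1, app_ge _ _ h1]
  rcases lt_or_ge (s - i) j with h2 | h2
  · rw [app_lt _ _ h2, app_lt _ _ h2, Lmul_cl]
  · rw [app_ge _ _ h2, app_ge _ _ h2, Lmul_cl]

end Pool.Agent.MPEF.U.S
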