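import Pool.Agent.Lib.MP_ef3f0f_gt.U.S.Spec

/-!
# MP_ef3f0f_gt, Theorem U: leading minors
-/

set_option autoImplicit false

namespace Pool.Agent.MPEF.U.S

open Matrix Topology
open scoped Pointwise

/-- columns of `q` (the first `j`), then unit vectors -/
private def Min_C {n : ℕ} (q : Matrix (Fin n) (Fin n) ℝ) (j : ℕ) : Matrix (Fin n) (Fin n) ℝ :=
  Matrix.of fun r s => if (s : ℕ) < j then q r s else (1 : Matrix (Fin n) (Fin n) ℝ) r s

private theorem Min_det (hBlk : S_Blk) {n : ℕ} (q : Matrix (Fin n) (Fin n) ℝ) (j : ℕ)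
    (hj : j ≤ n) : (Min_C q j).det = (lead q j).det := by
  have h := hBlk n 0 j (cl q) (by omega)
  rw [app_zero] at h
  rw [← D_cl]
  have h1 : D (cl (Min_C q j)) =
      D (app j (cl q) fun s => cl (1 : Matrix (Fin n) (Fin n) ℝ) (s + 0 + j)) := by
    refine D_congr fun s hs => ?_
    funext r
    rw [cl_lt _ hs, Min_C, Matrix.of_apply]
    rcases lt_or_ge s j with h2 | h2
    · rw [if_pos h2, app_lt _ _ h2, cl_lt _ hs]
    · rw [if_neg (not_lt.2 h2), app_ge _ _ h2]
      have e : s - j + 0 + j = s := by omega
      rw [e, cl_lt _ hs]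
  rw [h1, h]
  congr 1
  ext r s
  have hr : 0 + (r : ℕ) < n := by have := r.2; omega
  have hr' : (r : ℕ) < n := by have := r.2; omega
  have hs : (s : ℕ) < n := by have := s.2; omega
  rw [Matrix.of_apply, dif_pos hr, cl_lt _ hs, lead, Matrix.of_apply, ent, dif_pos ⟨hr', hs⟩]
  congr 1
  exact Fin.ext (Nat.zero_add _)

theorem tMin (hLmul : S_Lmul) (hBlk : S_Blk) : S_Min := by
  intro m q
  have key : ∀ i, i ≤ 2 * m + 1 →
      D (app i (cl (w m).1) (cl q.1)) = (lead q.1 (2 * m + 1 - i)).det := by
    intro i hi
    rw [← Min_det hBlk q.1 (2 * m + 1 - i) (by omega)]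
    have h1 := (hLmul (2 * m + 1)).1 (Min_C q.1 (2 * m + 1 - i))
      (app i (cl (wM m)) (cl q.1))
      (app i (cl (wM m)) (cl (1 : Matrix (Fin (2 * m + 1)) (Fin (2 * m + 1)) ℝ))) (by
        intro s hs
        funext r
        rcases lt_or_ge s i with h2 | h2
        · rw [app_lt _ _ h2, app_lt _ _ h2, Matrix.mulVec, dotProduct]
          rw [Finset.sum_eq_single (⟨2 * m - s, by omega⟩ : Fin (2 * m + 1))]
          · rw [cl_lt _ hs, cl_lt _ hs, Min_C, Matrix.of_apply, if_neg (by simp only; omega), wM,
              Matrix.of_apply, Matrix.of_apply]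
            rw [if_pos (show (2 * m - s) + s = 2 * m by omega), Matrix.one_apply]
            by_cases h3 : (r : ℕ) + s = 2 * m
            · rw [if_pos h3, if_pos (Fin.ext (by simp only; omega)), one_mul]
            · rw [if_neg h3, if_neg, zero_mul]
              intro h4
              have h5 := congrArg Fin.val h4
              simp only at h5
              omega
          · intro t _ ht
            rw [cl_lt _ hs, wM, Matrix.of_apply, if_neg, mul_zero]
            intro h3
            simp only at h3
            exact ht (Fin.ext (by simp only; omega))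
          · intro h3
            exact absurd (Finset.mem_univ _) h3
        · rw [app_ge _ _ h2, app_ge _ _ h2, Matrix.mulVec, dotProduct]
          have hsi : s - i < 2 * m + 1 := by omega
          rw [Finset.sum_eq_single (⟨s - i, hsi⟩ : Fin (2 * m + 1))]
          · rw [cl_lt _ hsi, cl_lt _ hsi, Min_C, Matrix.of_apply, if_pos (by simp only; omega),
              Matrix.one_apply_eq, mul_one]
          · intro t _ ht
            rw [cl_lt _ hsi, Matrix.one_apply_ne ht, mul_zero]
          · intro h3
            exact absurd (Finset.mem_univ _) h3)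
    rw [D_w_one m i hi, mul_one] at h1
    exact h1
  refine ⟨key, ?_⟩
  constructor
  · intro h j hj
    have h1 := h (2 * m + 1 - j) (by omega)
    rw [key _ (by omega)] at h1
    have e : 2 * m + 1 - (2 * m + 1 - j) = j := by omega
    rwa [e] at h1
  · intro h i hi
    rw [key i hi]
    exact h _ (by omega)

end Pool.Agent.MPEF.U.S
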