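import Pool.Agent.Lib.MP_ef3f0f_gt.U.S.Spec

/-!
# MP_ef3f0f_gt, Theorem U, the group `SL_n(ℝ)`, module NT: next to
-/

set_option autoImplicit false

namespace Pool.Agent.MPEF.U.S

open Matrix Topology
open scoped Pointwise

private theorem NT_a (m k : ℕ) : a m ^ k ∈ Dp m k := by
  have h1 : (a m ^ k).1 = Matrix.diagonal (fun i : Fin (2 * m + 1) =>
      ((2 : ℝ) ^ ((m : ℤ) - ((i : ℕ) : ℤ))) ^ k) := by
    rw [Matrix.SpecialLinearGroup.coe_pow]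
    show (Matrix.diagonal (fun i : Fin (2 * m + 1) => (2 : ℝ) ^ ((m : ℤ) - ((i : ℕ) : ℤ)))) ^ k = _
    rw [Matrix.diagonal_pow]
    rfl
  refine ⟨⟨fun i j hij => ?_, fun i => ?_⟩, fun i j hij => ?_⟩
  · rw [h1, Matrix.diagonal_apply_ne _ hij]
  · rw [h1, Matrix.diagonal_apply_eq]
    positivity
  · rw [h1, Matrix.diagonal_apply_eq, Matrix.diagonal_apply_eq, ← mul_pow]
    refine pow_le_pow_left₀ (by positivity) ?_ k
    have h2 : (2 : ℝ) * 2 ^ ((m : ℤ) - ((j : ℕ) : ℤ)) = 2 ^ (1 + ((m : ℤ) - ((j : ℕ) : ℤ))) := by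
      rw [zpow_add₀ (by norm_num), zpow_one]
    rw [h2]
    refine zpow_le_zpow_right₀ (by norm_num) ?_
    have h3 : (i : ℕ) < (j : ℕ) := hij
    omega

private theorem NT_one (hTw : S_Tw) (hLU : S_LU) (hSq : S_Sq) (hOp : S_Op) (hInvP : S_InvP)
    (hInvT : S_InvT) (hEl : S_El) (m : ℕ) (hm : 1 ≤ m) (C : Set (P m)) (hC : IsCompact C)
    (hpos : ∀ k ∈ C, Pos 1 k) : ∃ c, ∀ k ∈ C, Tri 1 c k := by
  obtain ⟨c0, hc0⟩ := hTw m
  obtain ⟨f, hfc, hf⟩ := hLU m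
  obtain ⟨t1, t2, t3, -, -, -⟩ := hInvT m hm
  obtain ⟨e1, -, -, e4, -, -, -, -, -, e10, -, -, e13, -⟩ := hEl m
  have r3 : ∀ x y z : P m, ∀ b ∈ Bor m, Tri x y z → Tri x y (z * b) := fun x y z b hb h =>
    t3 _ _ _ ((t2 z x y b hb).2 (t3 _ _ _ (t3 _ _ _ h)))
  have r2 : ∀ x y z : P m, ∀ b ∈ Bor m, Tri x y z → Tri x (y * b) z := fun x y z b hb h =>
    t3 _ _ _ (t3 _ _ _ ((t2 y z x b hb).2 (t3 _ _ _ h)))
  have hU : {y : P m | Tri 1 c0 (y * w m)} ∈ 𝓝 (1 : P m) := by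
    have h1 : IsOpen {y : P m | Tri 1 c0 (y * w m)} :=
      (hOp m).2.preimage (f := fun y : P m => ((1 : P m), c0, y * w m)) (by fun_prop)
    refine h1.mem_nhds ?_
    show Tri 1 c0 (1 * w m)
    rw [one_mul]
    exact hc0
  have hw : ∀ k ∈ C, Pos (w m) (w m * k) := fun k hk => by
    have := ((hInvP m).1 (w m) 1 k).2 (hpos k hk)
    rwa [mul_one] at this
  have hK : IsCompact ((fun k => w m * f (w m * k) * w m) '' C) := by
    refine hC.image_of_continuousOn ?_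
    have h1 : ContinuousOn (fun k : P m => f (w m * k)) C :=
      hfc.comp (f := fun k : P m => w m * k) (by fun_prop) fun k hk => hw k hk
    exact (continuousOn_const.mul h1).mul continuousOn_const
  obtain ⟨k0, hk0⟩ := (hSq m _ hU).2 _ hK
  obtain ⟨s, hs⟩ : ∃ s, s = a m ^ k0 := ⟨_, rfl⟩
  have hsD : s ∈ Dp m k0 := by
    rw [hs]
    exact NT_a m k0
  have hsA : s ∈ A m := hsD.1
  have hsi : s⁻¹ ∈ A m := (A m).inv_mem hsA
  refine ⟨s * c0 * s⁻¹, fun k hk => ?_⟩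
  obtain ⟨g1, g2⟩ := hf (w m * k) (hw k hk)
  have hu := (hk0 s hsD).2 _ (e13 _ g1) ⟨k, hk, rfl⟩
  have h2 : Tri 1 c0 (s⁻¹ * (w m * f (w m * k) * w m) * s * w m) := hu
  have h3 : Tri (1 * s⁻¹) (c0 * s⁻¹) (s⁻¹ * (w m * f (w m * k) * w m) * s * w m *
      ((w m * s⁻¹ * w m) * ((f (w m * k))⁻¹ * (w m * k)))) :=
    (t2 _ _ _ _ (e10 hsi)).2 (r2 _ _ _ _ (e10 hsi)
      (r3 _ _ _ _ ((Bor m).mul_mem (e10 (e4 _ hsi)) g2) h2))
  have h4 : s⁻¹ * (w m * f (w m * k) * w m) * s * w m *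
      ((w m * s⁻¹ * w m) * ((f (w m * k))⁻¹ * (w m * k))) = s⁻¹ * k := by
    have h5 : s⁻¹ * (w m * f (w m * k) * w m) * s * w m *
        ((w m * s⁻¹ * w m) * ((f (w m * k))⁻¹ * (w m * k))) =
        s⁻¹ * (w m * f (w m * k) * w m) * s * (w m * w m) * s⁻¹ * w m * (f (w m * k))⁻¹ *
          (w m * k) := by
      group
    rw [h5, e1]
    have h6 : s⁻¹ * (w m * f (w m * k) * w m) * s * 1 * s⁻¹ * w m * (f (w m * k))⁻¹ * (w m * k) =
        s⁻¹ * (w m * f (w m * k) * (w m * w m) * (f (w m * k))⁻¹ * (w m * k)) := by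
      group
    rw [h6, e1]
    have h7 : s⁻¹ * (w m * f (w m * k) * 1 * (f (w m * k))⁻¹ * (w m * k)) =
        s⁻¹ * ((w m * w m) * k) := by
      group
    rw [h7, e1, one_mul]
  rw [h4] at h3
  have h8 := (t1 s _ _ _).2 h3
  have h9 : s * (1 * s⁻¹) = 1 := by group
  have h10 : s * (c0 * s⁻¹) = s * c0 * s⁻¹ := by group
  have h11 : s * (s⁻¹ * k) = k := by group
  rwa [h9, h10, h11] at h8

/-- **Next to.** -/
theorem tNT (hTw : S_Tw) (hLU : S_LU) (hSq : S_Sq) (hOp : S_Op) (hInvP : S_InvP)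
    (hInvT : S_InvT) (hEl : S_El) : S_NT := by
  intro m hm C hC hpos
  obtain ⟨t1, -, t3, -, -, t6⟩ := hInvT m hm
  obtain ⟨p1, -, -, -, p5, -⟩ := hInvP m
  have hJ : J m * J m = 1 := (hEl m).2.2.2.2.1
  have hC' : IsCompact ((fun k => J m * k * J m) '' C) := hC.image (by fun_prop)
  obtain ⟨c, hc⟩ := NT_one hTw hLU hSq hOp hInvP hInvT hEl m hm _ hC' (by
    rintro _ ⟨k, hk, rfl⟩
    have h1 := (p1 (J m) 1 k).2 (hpos k hk)
    have h2 := (p5 _ _).2 h1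
    rw [mul_one, hJ] at h2
    exact h2)
  refine ⟨J m * c * J m, fun k hk => ?_⟩
  have h1 := t6 _ _ _ (hc _ ⟨k, hk, rfl⟩)
  have h2 := (t1 (J m) _ _ _).2 h1
  have h3 : J m * (1 * J m) = 1 := by rw [one_mul, hJ]
  have h4 : J m * (J m * k * J m * J m) = k := by
    have : J m * (J m * k * J m * J m) = (J m * J m) * k * (J m * J m) := by group
    rw [this, hJ, one_mul, mul_one]
  have h5 : J m * (c * J m) = J m * c * J m := by group
  simp only [h3, h4, h5] at h2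
  exact t3 _ _ _ (t3 _ _ _ h2)

end Pool.Agent.MPEF.U.S
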