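import Pool.Agent.Lib.MP_ef3f0f_gt.U.S.Spec

set_option autoImplicit false

/-!
# MP_ef3f0f_gt, Theorem U, `SL_n(ℝ)`: neighbourhoods of `1` (`S_Nb`)
-/

namespace Pool.Agent.MPEF.U.S

open Matrix Topology
open scoped Pointwise

/-- The entries of an element of `P m`. -/
private def Nb_e {m : ℕ} (g : P m) : Fin (2 * m + 1) → Fin (2 * m + 1) → ℝ := fun i j => g.1 i j

private lemma Nb_ind (m : ℕ) : IsInducing (Nb_e (m := m)) := IsInducing.subtypeVal

private lemma Nb_ball {m : ℕ} {ε : ℝ} (hε : 0 < ε) (g h : P m) :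
    Nb_e g ∈ Metric.ball (Nb_e h) ε ↔ ∀ i j, |g.1 i j - h.1 i j| < ε := by
  rw [Metric.mem_ball, dist_pi_lt_iff hε]
  refine forall_congr' fun i => ?_
  rw [dist_pi_lt_iff hε]
  exact forall_congr' fun j => by rw [Real.dist_eq]; rfl

theorem tNb : S_Nb := by
  intro m
  refine ⟨fun U hU => ?_, fun ε hε => ?_, fun K hK => ?_⟩
  · rw [(Nb_ind m).nhds_eq_comap, Filter.mem_comap] at hU
    obtain ⟨t, ht, htU⟩ := hU
    obtain ⟨ε, hε, hb⟩ := Metric.mem_nhds_iff.1 ht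
    exact ⟨ε, hε, fun g hg => htU (hb ((Nb_ball hε g 1).2 hg))⟩
  · have h : Nb_e ⁻¹' Metric.ball (Nb_e (1 : P m)) ε ∈ 𝓝 (1 : P m) :=
      (Nb_ind m).continuous.continuousAt.preimage_mem_nhds (Metric.ball_mem_nhds _ hε)
    filter_upwards [h] with g hg
    exact (Nb_ball hε g 1).1 hg
  · obtain ⟨C, hC⟩ := hK.exists_bound_of_continuousOn (Nb_ind m).continuous.continuousOn
    refine ⟨max C 1, lt_of_lt_of_le one_pos (le_max_right _ _), fun g hg i j => ?_⟩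
    have h1 : ‖Nb_e g i j‖ ≤ ‖Nb_e g i‖ := norm_le_pi_norm _ j
    have h2 : ‖Nb_e g i‖ ≤ ‖Nb_e g‖ := norm_le_pi_norm _ i
    exact (h1.trans (h2.trans (hC g hg))).trans (le_max_left _ _)

end Pool.Agent.MPEF.U.S
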