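import Pool.Agent.Lib.MP_ef3f0f_gt.U.S.Spec

/-!
# MP_ef3f0f_gt, Theorem U: `SL_n(ℝ)` is a positive structure (assembly)
-/

set_option autoImplicit false

namespace Pool.Agent.MPEF.U.S

open Matrix Topology
open scoped Pointwise

/-- `SL_n(ℝ)`, `n = 2 m + 1`, is a positive structure. -/
theorem tOk (hInvP : S_InvP) (hInvT : S_InvT) (hTt : S_Tt) (hOp : S_Op) (hEl : S_El) (hD1 : S_D1)
    (hDp : S_Dp) (hK0 : S_K0) (hPD : S_PD) (hJN1 : S_JN1) (hJN2 : S_JN2) (hCT : S_CT) (hLX : S_LX)
    (hUQ : S_UQ) (hNT : S_NT) : S_Ok := by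
  intro m hm
  obtain ⟨p1, p2, p3, p4, p5, -⟩ := hInvP m
  obtain ⟨t1, t2, t3, t4, t5, t6⟩ := hInvT m hm
  obtain ⟨e1, -, e3, e4, e5, e6, e7, e8, e9, e10, -, e12, -⟩ := hEl m
  obtain ⟨d1, d2, d3, d4, d5, d6, d7⟩ := hD1 m
  obtain ⟨s1, s2, s3, s4, s5, s6, s7⟩ := hDp m
  obtain ⟨k1, k2, k3, -⟩ := hK0 m
  exact
    { ww := e1
      wa := e3
      wA := e4
      JJ := e5
      Jw := e6
      JA := e7
      aA := e8
      comm := e9
      AB := e10
      D1A := d1
      D1c := d2
      D11 := d3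
      D1i := d4
      D1w := d5
      D1e := d6
      D1n := d7
      DpA := s1
      Dp1 := s2
      Dps := s3
      Dpm := s4
      Dpw := s5
      Dpa := s6
      Dpd := s7
      AppA := fun g hg => hg.1
      Appw := e12
      Pl := p1
      Pr := p2
      Ps := p3
      P1 := p4
      PJ := p5
      Po := (hOp m).1
      Tl := t1
      Tr := t2
      Tc := t3
      Ta := t4
      Tt := fun x y z t => hTt m x y z t
      TP := t5
      TJ := t6
      To := (hOp m).2
      NT := hNT m hm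
      JN1 := hJN1 m
      JN2 := hJN2 m
      CT := hCT m
      LX := hLX m
      UQ := fun l z z' h h' => hUQ m l z z' h h'
      K0c := k1
      K01 := k2
      K0J := k3
      PD := fun k hk d hd => hPD m k hk d hd }

end Pool.Agent.MPEF.U.S
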