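import Pool.Agent.Lib.MP_ef3f0f_gt.U.S.Spec

set_option autoImplicit false

/-!
# MP_ef3f0f_gt, Theorem U, package `U/S`, module `Op`: `Pos` and `Tri` are open
-/

namespace Pool.Agent.MPEF.U.S

open Matrix Topology

open scoped Pointwise

theorem Op_cl {X : Type} [TopologicalSpace X] {m : ℕ} (k : X → P m) (hk : Continuous k) (s : ℕ)
    (r : Fin (2 * m + 1)) : Continuous fun x => cl (k x).1 s r := by
  by_cases h : s < 2 * m + 1
  · have e : (fun x => cl (k x).1 s r) = fun x => (k x).1 r ⟨s, h⟩ := by
      funext x
      rw [cl_lt _ h]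
    rw [e]
    exact (continuous_subtype_val.comp hk).matrix_elem r ⟨s, h⟩
  · have e : (fun x => cl (k x).1 s r) = fun _ => 0 := by
      funext x
      exact dif_neg h
    rw [e]
    exact continuous_const

theorem Op_app {X : Type} [TopologicalSpace X] {n : ℕ} (i : ℕ) (f g : X → Sq n)
    (hf : ∀ s r, Continuous fun x => f x s r) (hg : ∀ s r, Continuous fun x => g x s r) (s : ℕ)
    (r : Fin n) : Continuous fun x => app i (f x) (g x) s r := by
  rcases lt_or_ge s i with h | h
  · have e : (fun x => app i (f x) (g x) s r) = fun x => f x s r := by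
      funext x
      rw [app_lt _ _ h]
    rw [e]
    exact hf s r
  · have e : (fun x => app i (f x) (g x) s r) = fun x => g x (s - i) r := by
      funext x
      rw [app_ge _ _ h]
    rw [e]
    exact hg (s - i) r

theorem Op_D {X : Type} [TopologicalSpace X] {n : ℕ} (f : X → Sq n)
    (hf : ∀ s r, Continuous fun x => f x s r) : Continuous fun x => D (f x) := by
  unfold D
  refine Continuous.matrix_det ?_
  exact continuous_matrix fun s r => hf s r

theorem tOp : S_Op := by
  intro m
  constructor
  · have e : {q : P m × P m | Pos q.1 q.2} = ⋂ i ∈ Finset.range (2 * m + 2),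
        {q : P m × P m | 0 < D (app i (cl q.1.1) (cl q.2.1))} := by
      ext q
      simp only [Set.mem_ofPred_eq, Set.mem_iInter, Finset.mem_range, Pos]
      exact ⟨fun h i hi => h i (by omega), fun h i hi => h i (by omega)⟩
    rw [e]
    refine isOpen_biInter_finset fun i _ => ?_
    refine isOpen_lt continuous_const (Op_D _ (Op_app i _ _ ?_ ?_))
    · exact Op_cl _ continuous_fst
    · exact Op_cl _ continuous_snd
  · have e : {q : P m × P m × P m | Tri q.1 q.2.1 q.2.2} = ⋂ i ∈ Finset.range (2 * m + 2),
        ⋂ j ∈ Finset.range (2 * m + 2 - i),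
        {q : P m × P m × P m | 0 < D (app i (cl q.1.1) (app j (cl q.2.1.1) (cl q.2.2.1)))} := by
      ext q
      simp only [Set.mem_ofPred_eq, Set.mem_iInter, Finset.mem_range, Tri]
      exact ⟨fun h i hi j hj => h i j (by omega), fun h i j hij => h i (by omega) j (by omega)⟩
    rw [e]
    refine isOpen_biInter_finset fun i _ => isOpen_biInter_finset fun j _ => ?_
    refine isOpen_lt continuous_const (Op_D _ (Op_app i _ _ ?_ (Op_app j _ _ ?_ ?_)))
    · exact Op_cl _ continuous_fst
    · exact Op_cl _ (continuous_fst.comp continuous_snd)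
    · exact Op_cl _ (continuous_snd.comp continuous_snd)

end Pool.Agent.MPEF.U.S
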