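import Pool.Agent.Lib.MP_ef3f0f_gt.U.S.Spec

/-!
# MP_ef3f0f_gt, Theorem U, package U/S, module PD: positive definite matrices
-/

set_option autoImplicit false

namespace Pool.Agent.MPEF.U.S

open Matrix Topology
open scoped Pointwise

/-- the inverse of an orthogonal matrix -/
private theorem inv_eq {m : ℕ} (k : P m) (hk : k.1 * k.1.transpose = 1) : (k⁻¹).1 = k.1ᵀ := by
  have h1 : (k⁻¹).1 * k.1 = 1 := by
    have : (k⁻¹).1 * k.1 = (k⁻¹ * k).1 := rfl
    rw [this, inv_mul_cancel]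
    rfl
  calc (k⁻¹).1 = (k⁻¹).1 * (k.1 * k.1ᵀ) := by rw [hk, mul_one]
    _ = k.1ᵀ := by rw [← mul_assoc, h1, one_mul]

private theorem posDef {m : ℕ} (k d : P m) (hk : k.1 * k.1.transpose = 1) (hd : d ∈ A m) :
    (k⁻¹ * d * k).1.PosDef := by
  have h1 : d.1 = Matrix.diagonal fun i => d.1 i i := by
    ext i j
    by_cases h : i = j
    · rw [h, Matrix.diagonal_apply_eq]
    · rw [Matrix.diagonal_apply_ne _ h, hd.1 i j h]
  have h2 : d.1.PosDef := by
    rw [h1]
    exact Matrix.PosDef.diagonal fun i => hd.2 i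
  have h3 : Function.Injective k.1.mulVec := by
    rw [Matrix.mulVec_injective_iff_isUnit, Matrix.isUnit_iff_isUnit_det, k.2]
    exact isUnit_one
  have h4 := h2.conjTranspose_mul_mul_same h3
  rw [Matrix.conjTranspose_eq_transpose_of_trivial, ← inv_eq k hk] at h4
  exact h4

private theorem minor_pos {m : ℕ} (S : P m) (hS : S.1.PosDef) (hLmul : S_Lmul) (hBlk : S_Blk) (i : ℕ)
    (hi : i ≤ 2 * m + 1) : 0 < D (app i (cl (S * w m).1) (cl (1 : P m).1)) := by
  obtain ⟨C, hC⟩ : ∃ C : Matrix (Fin (2 * m + 1)) (Fin (2 * m + 1)) ℝ,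
    C = Matrix.of fun r s : Fin (2 * m + 1) =>
      if (s : ℕ) < 2 * m + 1 - i then (if r = s then 1 else 0) else S.1 r s := ⟨_, rfl⟩
  have hC1 : ∀ (r : Fin (2 * m + 1)) (s : ℕ) (hs : s < 2 * m + 1), s < 2 * m + 1 - i →
      C r ⟨s, hs⟩ = if (r : ℕ) = s then (1 : ℝ) else 0 := by
    intro r s hs h
    rw [hC, Matrix.of_apply, if_pos h]
    by_cases h' : (r : ℕ) = s
    · rw [if_pos h', if_pos (Fin.ext h')]
    · rw [if_neg h', if_neg (fun h2 => h' (congrArg Fin.val h2))]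
  have hC2 : ∀ (r : Fin (2 * m + 1)) (s : ℕ) (hs : s < 2 * m + 1), ¬ s < 2 * m + 1 - i →
      C r ⟨s, hs⟩ = S.1 r ⟨s, hs⟩ := by
    intro r s hs h
    rw [hC, Matrix.of_apply, if_neg h]
  obtain ⟨hL1, hL2, -⟩ := hLmul (2 * m + 1)
  have hCe : ∀ s (hs : s < 2 * m + 1) (c : ℝ),
      C.mulVec (fun r => if (r : ℕ) = s then c else 0) = fun r => C r ⟨s, hs⟩ * c := by
    intro s hs c
    funext r
    rw [Matrix.mulVec, dotProduct, Finset.sum_eq_single ⟨s, hs⟩]
    · rw [if_pos rfl]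
    · intro b _ hb
      rw [if_neg (fun h => hb (Fin.ext h)), mul_zero]
    · intro h
      exact absurd (Finset.mem_univ _) h
  have hSe : ∀ s (hs : s < 2 * m + 1) (c : ℝ),
      S.1.mulVec (fun r => if (r : ℕ) = s then c else 0) = fun r => S.1 r ⟨s, hs⟩ * c := by
    intro s hs c
    funext r
    rw [Matrix.mulVec, dotProduct, Finset.sum_eq_single ⟨s, hs⟩]
    · rw [if_pos rfl]
    · intro b _ hb
      rw [if_neg (fun h => hb (Fin.ext h)), mul_zero]
    · intro h
      exact absurd (Finset.mem_univ _) h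
  have hw : ∀ s, s < 2 * m + 1 →
      cl (w m).1 s = fun r : Fin (2 * m + 1) => if (r : ℕ) = 2 * m - s then (-1 : ℝ) ^ s else 0 := by
    intro s hs
    funext r
    rw [cl_lt _ hs]
    show wM m r ⟨s, hs⟩ = _
    rw [wM, Matrix.of_apply]
    by_cases h : (r : ℕ) = 2 * m - s
    · rw [if_pos h, if_pos (show (r : ℕ) + s = 2 * m by omega)]
    · rw [if_neg h, if_neg (show ¬ (r : ℕ) + s = 2 * m by omega)]
  have hone : ∀ s, s < 2 * m + 1 → cl (1 : Matrix (Fin (2 * m + 1)) (Fin (2 * m + 1)) ℝ) s =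
      fun r : Fin (2 * m + 1) => if (r : ℕ) = s then (1 : ℝ) else 0 := by
    intro s hs
    funext r
    rw [cl_lt _ hs, Matrix.one_apply]
    by_cases h : (r : ℕ) = s
    · rw [if_pos h, if_pos (Fin.ext h)]
    · rw [if_neg h, if_neg (fun h' => h (congrArg Fin.val h'))]
  have h1 : D (app i (cl (S * w m).1) (cl (1 : P m).1)) =
      C.det * D (app i (cl (w m).1) (cl (1 : P m).1)) := by
    refine hL1 C _ _ fun s hs => ?_
    rcases lt_or_ge s i with h | h
    · rw [app_lt _ _ h, app_lt _ _ h]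
      have e1 : cl (S * w m).1 s = S.1.mulVec (cl (w m).1 s) := hL2 S.1 (w m).1 s
      rw [e1, hw s hs, hSe (2 * m - s) (by omega), hCe (2 * m - s) (by omega)]
      funext r
      rw [hC2 _ _ _ (by omega)]
    · rw [app_ge _ _ h, app_ge _ _ h]
      show cl 1 (s - i) = C.mulVec (cl 1 (s - i))
      rw [hone (s - i) (by omega), hCe (s - i) (by omega)]
      funext r
      rw [hC1 _ _ _ (by omega), mul_one]
  have h2 : D (app i (cl (w m).1) (cl (1 : P m).1)) = 1 := D_w_one m i hi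
  rw [h1, h2, mul_one]
  have h3 := hBlk (2 * m + 1) (2 * m + 1 - i) i (fun s => cl S.1 (2 * m + 1 - i + s)) (by omega)
  have h4 : C.det = D (app (2 * m + 1 - i) (cl (1 : Matrix (Fin (2 * m + 1)) (Fin (2 * m + 1)) ℝ))
      (app i (fun s => cl S.1 (2 * m + 1 - i + s)) fun s =>
        cl (1 : Matrix (Fin (2 * m + 1)) (Fin (2 * m + 1)) ℝ) (s + (2 * m + 1 - i) + i))) := by
    rw [← D_cl]
    refine D_congr fun s hs => ?_
    rcases lt_or_ge s (2 * m + 1 - i) with h | h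
    · rw [app_lt _ _ h, hone s hs]
      funext r
      rw [cl_lt _ hs, hC1 _ _ _ h]
    · rw [app_ge _ _ h, app_lt _ _ (by omega)]
      funext r
      rw [cl_lt _ hs, hC2 _ _ _ (by omega)]
      have e : 2 * m + 1 - i + (s - (2 * m + 1 - i)) = s := by omega
      rw [e, cl_lt _ hs]
  rw [h4, h3]
  have h5 : (Matrix.of fun r s : Fin i => if h : 2 * m + 1 - i + r < 2 * m + 1 then
      cl S.1 (2 * m + 1 - i + s) ⟨2 * m + 1 - i + r, h⟩ else 0) =
      S.1.submatrix (fun r : Fin i => (⟨2 * m + 1 - i + r, by omega⟩ : Fin (2 * m + 1)))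
        (fun r : Fin i => (⟨2 * m + 1 - i + r, by omega⟩ : Fin (2 * m + 1))) := by
    ext r s
    rw [Matrix.of_apply, dif_pos (show 2 * m + 1 - i + (r : ℕ) < 2 * m + 1 by omega),
      cl_lt _ (show 2 * m + 1 - i + (s : ℕ) < 2 * m + 1 by omega), Matrix.submatrix_apply]
  rw [h5]
  apply Matrix.PosDef.det_pos
  apply hS.submatrix
  intro r s h
  have := congrArg Fin.val h
  simp only at this
  exact Fin.ext (by omega)

theorem tPD (hLmul : S_Lmul) (hBlk : S_Blk) (hInvP : S_InvP) (hK0 : S_K0) (_hEl : S_El) : S_PD := by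
  intro m k hk d hd
  have h1 := (hInvP m).1 k⁻¹ (d * k * w m) k
  rw [← h1, inv_mul_cancel]
  have h2 : k⁻¹ * (d * k * w m) = k⁻¹ * d * k * w m := by group
  rw [h2]
  exact fun i hi => minor_pos (k⁻¹ * d * k) (posDef k d ((hK0 m).2.2.2 k hk) hd) hLmul hBlk i hi

end Pool.Agent.MPEF.U.S
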