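import Pool.Agent.Lib.MP_ef3f0f_gt.U.S.Spec

set_option autoImplicit false

namespace Pool.Agent.MPEF.U.S

open Matrix Topology
open scoped Pointwise

theorem Rmul_prod (n i j : ℕ) (h : i + j ≤ n) (c : ℕ → ℝ) :
    ∏ t : Fin n, (if i ≤ (t : ℕ) ∧ (t : ℕ) < i + j then c (t - i) else 1) =
      ∏ s ∈ Finset.range j, c s := by
  rw [Fin.prod_univ_eq_prod_range (fun t => if i ≤ t ∧ t < i + j then c (t - i) else 1) n,
    ← Finset.prod_filter]
  refine Finset.prod_nbij' (fun t => t - i) (fun s => s + i) ?_ ?_ ?_ ?_ ?_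
  · intro t ht
    rw [Finset.mem_filter, Finset.mem_range] at ht
    rw [Finset.mem_range]
    omega
  · intro s hs
    rw [Finset.mem_range] at hs
    rw [Finset.mem_filter, Finset.mem_range]
    omega
  · intro t ht
    rw [Finset.mem_filter, Finset.mem_range] at ht
    omega
  · intro s _
    omega
  · intro t _
    rfl

theorem Rmul_sum (n i j : ℕ) (h : i + j ≤ n) (c : ℕ → ℝ) :
    ∑ t : Fin n, (if i ≤ (t : ℕ) ∧ (t : ℕ) < i + j then c (t - i) else 0) =
      ∑ s ∈ Finset.range j, c s := by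
  rw [Fin.sum_univ_eq_sum_range (fun t => if i ≤ t ∧ t < i + j then c (t - i) else 0) n,
    ← Finset.sum_filter]
  refine Finset.sum_nbij' (fun t => t - i) (fun s => s + i) ?_ ?_ ?_ ?_ ?_
  · intro t ht
    rw [Finset.mem_filter, Finset.mem_range] at ht
    rw [Finset.mem_range]
    omega
  · intro s hs
    rw [Finset.mem_range] at hs
    rw [Finset.mem_filter, Finset.mem_range]
    omega
  · intro t ht
    rw [Finset.mem_filter, Finset.mem_range] at ht
    omega
  · intro s _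
    omega
  · intro t _
    rfl

/-- The matrix of the change of the block. -/
noncomputable def Rmul_U (n i j : ℕ) (b : Matrix (Fin n) (Fin n) ℝ) : Matrix (Fin n) (Fin n) ℝ :=
  Matrix.of fun s t => if i ≤ (s : ℕ) ∧ (s : ℕ) < i + j ∧ i ≤ (t : ℕ) ∧ (t : ℕ) < i + j then
    b ⟨t - i, by omega⟩ ⟨s - i, by omega⟩ else if s = t then 1 else 0

theorem Rmul_det (n i j : ℕ) (b : Matrix (Fin n) (Fin n) ℝ) (h : i + j ≤ n)
    (hb : ∀ r s, s < r → b r s = 0) :
    (Rmul_U n i j b).det = ∏ s : Fin n, if (s : ℕ) < j then b s s else 1 := by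
  rw [Matrix.det_of_lowerTriangular]
  · obtain ⟨c, hc⟩ : ∃ c : ℕ → ℝ, c = fun s => if h : s < n then b ⟨s, h⟩ ⟨s, h⟩ else 1 := ⟨_, rfl⟩
    have e1 : ∏ s : Fin n, Rmul_U n i j b s s =
        ∏ t : Fin n, (if i ≤ (t : ℕ) ∧ (t : ℕ) < i + j then c (t - i) else 1) := by
      refine Finset.prod_congr rfl fun s _ => ?_
      rw [Rmul_U, Matrix.of_apply]
      by_cases hs : i ≤ (s : ℕ) ∧ (s : ℕ) < i + j
      · rw [if_pos ⟨hs.1, hs.2, hs.1, hs.2⟩, if_pos hs, hc]
        simp only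
        rw [dif_pos (by omega)]
      · rw [if_neg (fun h' => hs ⟨h'.1, h'.2.1⟩), if_neg hs, if_pos rfl]
    have e2 : ∏ s : Fin n, (if (s : ℕ) < j then b s s else 1) =
        ∏ t : Fin n, (if 0 ≤ (t : ℕ) ∧ (t : ℕ) < 0 + j then c (t - 0) else 1) := by
      refine Finset.prod_congr rfl fun s _ => ?_
      by_cases hs : (s : ℕ) < j
      · rw [if_pos hs, if_pos ⟨Nat.zero_le _, by omega⟩, hc]
        simp only [Nat.sub_zero]
        rw [dif_pos s.2]
      · rw [if_neg hs, if_neg (by omega)]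
    rw [e1, e2, Rmul_prod n i j h, Rmul_prod n 0 j (by omega)]
  · intro s t hst
    have hst' : (s : ℕ) < t := hst
    rw [Rmul_U, Matrix.of_apply]
    by_cases hs : i ≤ (s : ℕ) ∧ (s : ℕ) < i + j ∧ i ≤ (t : ℕ) ∧ (t : ℕ) < i + j
    · rw [if_pos hs]
      refine hb _ _ ?_
      rw [Fin.lt_def]
      simp only
      omega
    · rw [if_neg hs, if_neg]
      rintro rfl
      exact lt_irrefl _ hst'

theorem Rmul_row (n i j : ℕ) (f G : Sq n) (k b : Matrix (Fin n) (Fin n) ℝ) (h : i + j ≤ n)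
    (hb : ∀ r s, s < r → b r s = 0) (s r : Fin n) :
    app i f (app j (cl (k * b)) G) s r =
      ∑ t : Fin n, Rmul_U n i j b s t * app i f (app j (cl k) G) t r := by
  by_cases hs : i ≤ (s : ℕ) ∧ (s : ℕ) < i + j
  · have hsn : (s : ℕ) - i < n := by omega
    obtain ⟨β, hβ⟩ : ∃ β : ℕ → ℝ, β = fun q => if hq : q < n then
      b ⟨q, hq⟩ ⟨s - i, hsn⟩ * k r ⟨q, hq⟩ else 0 := ⟨_, rfl⟩
    have e1 : app i f (app j (cl (k * b)) G) s r = ∑ q : Fin n, β q := by
      rw [app_ge _ _ hs.1, app_lt _ _ (by omega), cl_lt _ hsn, Matrix.mul_apply]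
      refine Finset.sum_congr rfl fun q _ => ?_
      rw [hβ]
      simp only
      rw [dif_pos q.2, mul_comm]
    have e2 : ∑ q : Fin n, β q = ∑ q ∈ Finset.range j, β q := by
      rw [Fin.sum_univ_eq_sum_range β n]
      refine (Finset.sum_subset ?_ ?_).symm
      · intro q hq
        rw [Finset.mem_range] at hq ⊢
        omega
      · intro q hq hq'
        rw [Finset.mem_range] at hq hq'
        rw [hβ]
        simp only
        rw [dif_pos hq, hb, zero_mul]
        rw [Fin.lt_def]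
        simp only
        omega
    rw [e1, e2, ← Rmul_sum n i j h β]
    refine Finset.sum_congr rfl fun t _ => ?_
    rw [Rmul_U, Matrix.of_apply]
    by_cases ht : i ≤ (t : ℕ) ∧ (t : ℕ) < i + j
    · rw [if_pos ht, if_pos ⟨hs.1, hs.2, ht.1, ht.2⟩, app_ge _ _ ht.1, app_lt _ _ (by omega),
        cl_lt _ (show (t : ℕ) - i < n by omega), hβ]
      simp only
      rw [dif_pos (by omega)]
    · rw [if_neg ht, if_neg (fun h' => ht ⟨h'.2.2.1, h'.2.2.2⟩), if_neg, zero_mul]
      rintro rfl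
      exact ht hs
  · have e3 : ∀ t : Fin n, Rmul_U n i j b s t = if s = t then 1 else 0 := by
      intro t
      rw [Rmul_U, Matrix.of_apply, if_neg (fun h' => hs ⟨h'.1, h'.2.1⟩)]
    simp only [e3, ite_mul, one_mul, zero_mul]
    rw [Finset.sum_ite_eq Finset.univ s, if_pos (Finset.mem_univ s)]
    rcases lt_or_ge (s : ℕ) i with h1 | h1
    · rw [app_lt _ _ h1, app_lt _ _ h1]
    · rw [app_ge _ _ h1, app_ge _ _ h1, app_ge _ _ (show j ≤ (s : ℕ) - i by omega),
        app_ge _ _ (show j ≤ (s : ℕ) - i by omega)]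

theorem tRmul : S_Rmul := by
  intro n i j f G k b h hb
  rw [← Rmul_det n i j b h hb]
  unfold D
  rw [← Matrix.det_mul]
  congr 1
  ext s r
  rw [Matrix.mul_apply, Matrix.of_apply, Rmul_row n i j f G k b h hb s r]
  rfl

end Pool.Agent.MPEF.U.S
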