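import Pool.Agent.Lib.MP_ef3f0f_gt.U.S.Spec

/-!
# MP_ef3f0f_gt, Theorem U, module U/S/Sq: squeezing by deep elements (helper11)
-/

set_option autoImplicit false

namespace Pool.Agent.MPEF.U.S

open Matrix Topology
open scoped Pointwise

private theorem Sq_le {si sj x : ℝ} {k : ℕ} (hi : 0 < si) (hj : 0 < sj) (h : 2 ^ k * si ≤ sj) :
    |si * x * sj⁻¹| ≤ |x| / 2 ^ k := by
  have h2 : (0 : ℝ) < 2 ^ k := by positivity
  rw [le_div_iff₀ h2, abs_mul, abs_mul, abs_of_pos hi, abs_of_pos (inv_pos.2 hj)]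
  have h3 : 2 ^ k * si * sj⁻¹ ≤ 1 := by
    rw [← div_eq_mul_inv, div_le_one hj]
    exact h
  calc si * |x| * sj⁻¹ * 2 ^ k = |x| * (2 ^ k * si * sj⁻¹) := by ring
    _ ≤ |x| * 1 := mul_le_mul_of_nonneg_left h3 (abs_nonneg x)
    _ = |x| := mul_one _

private theorem Sq_low (hEl : S_El) {m k : ℕ} {s x : P m} (hs : s ∈ Dp m k) (hx : x ∈ Nm m)
    (i j : Fin (2 * m + 1)) :
    |(s * x * s⁻¹).1 i j - (1 : P m).1 i j| ≤ |x.1 i j - (1 : P m).1 i j| / 2 ^ k := by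
  obtain ⟨-, -, -, -, -, -, -, -, -, -, -, -, -, -, -, h16, -, -⟩ := hEl m
  have h0 : ∀ i j, (1 : P m).1 i j = (1 : Matrix (Fin (2 * m + 1)) (Fin (2 * m + 1)) ℝ) i j :=
    fun _ _ => rfl
  rw [h16 s hs.1 x i j, h0]
  rcases lt_trichotomy i j with h | h | h
  · rw [hx.1 i j h, Matrix.one_apply_ne h.ne]
    simp
  · subst h
    rw [hx.2 i, Matrix.one_apply_eq, mul_one, mul_inv_cancel₀ (hs.1.2 i).ne']
    simp
  · rw [Matrix.one_apply_ne h.ne', sub_zero, sub_zero]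
    exact Sq_le (hs.1.2 i) (hs.1.2 j) (hs.2 j i h)

private theorem Sq_upp (hEl : S_El) {m k : ℕ} {s x : P m} (hs : s ∈ Dp m k) (hx : x ∈ Np m)
    (i j : Fin (2 * m + 1)) :
    |(s⁻¹ * x * s).1 i j - (1 : P m).1 i j| ≤ |x.1 i j - (1 : P m).1 i j| / 2 ^ k := by
  obtain ⟨-, -, -, -, -, -, -, -, -, -, -, -, -, -, h15, h16, -, -⟩ := hEl m
  have h0 : ∀ i j, (1 : P m).1 i j = (1 : Matrix (Fin (2 * m + 1)) (Fin (2 * m + 1)) ℝ) i j :=
    fun _ _ => rfl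
  have h1 := h16 s⁻¹ ((A m).inv_mem hs.1) x i j
  rw [inv_inv, h15 s hs.1, h15 s hs.1, inv_inv] at h1
  rw [h1, h0]
  rcases lt_trichotomy i j with h | h | h
  · rw [Matrix.one_apply_ne h.ne, sub_zero, sub_zero]
    have h2 := Sq_le (x := x.1 i j) (hs.1.2 j) (hs.1.2 i) (hs.2 i j h)
    have h3 : (s.1 i i)⁻¹ * x.1 i j * s.1 j j = s.1 j j * x.1 i j * (s.1 i i)⁻¹ := by ring
    rw [h3]
    exact h2
  · subst h
    rw [hx.2 i, Matrix.one_apply_eq, mul_one, inv_mul_cancel₀ (hs.1.2 i).ne']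
    simp
  · rw [hx.1 i j h, Matrix.one_apply_ne h.ne']
    simp

theorem tSq (hEl : S_El) (hNb : S_Nb) : S_Sq := by
  intro m U hU
  obtain ⟨n1, n2, n3⟩ := hNb m
  obtain ⟨ε, hε, hε2⟩ := n1 U hU
  constructor
  · refine ⟨_, n2 ε hε, fun s hs => ⟨fun x hx hxV => hε2 _ fun i j => ?_,
      fun x hx hxV => hε2 _ fun i j => ?_⟩⟩
    · have h := Sq_low hEl hs hx i j
      rw [pow_zero, div_one] at h
      exact h.trans_lt (hxV i j)
    · have h := Sq_upp hEl hs hx i j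
      rw [pow_zero, div_one] at h
      exact h.trans_lt (hxV i j)
  · intro K hK
    obtain ⟨C, hC, hC2⟩ := n3 K hK
    obtain ⟨k, hk⟩ := pow_unbounded_of_one_lt (C / ε) (by norm_num : (1 : ℝ) < 2)
    have h2 : (0 : ℝ) < 2 ^ k := by positivity
    have hk2 : C / 2 ^ k < ε := by
      rw [div_lt_iff₀ h2]
      rw [div_lt_iff₀ hε] at hk
      linarith
    have h0 : ∀ i j, (1 : P m).1 i j = (1 : Matrix (Fin (2 * m + 1)) (Fin (2 * m + 1)) ℝ) i j :=
      fun _ _ => rfl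
    have hb : ∀ x ∈ K, (∀ i, x.1 i i = 1) → ∀ i j, |x.1 i j - (1 : P m).1 i j| ≤ C := by
      intro x hx h1 i j
      rw [h0]
      by_cases hij : i = j
      · subst hij
        rw [h1 i, Matrix.one_apply_eq, sub_self, abs_zero]
        exact hC.le
      · rw [Matrix.one_apply_ne hij, sub_zero]
        exact hC2 x hx i j
    refine ⟨k, fun s hs => ⟨fun x hx hxK => hε2 _ fun i j => ?_,
      fun x hx hxK => hε2 _ fun i j => ?_⟩⟩
    · exact (Sq_low hEl hs hx i j).trans_lt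
        ((div_le_div_of_nonneg_right (hb x hxK hx.2 i j) h2.le).trans_lt hk2)
    · exact (Sq_upp hEl hs hx i j).trans_lt
        ((div_le_div_of_nonneg_right (hb x hxK hx.2 i j) h2.le).trans_lt hk2)

end Pool.Agent.MPEF.U.S
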