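import Pool.Agent.Lib.MP_ef3f0f_gt.U.S.Spec

/-!
# MP_ef3f0f_gt, Theorem U, `SL_n(ℝ)`: exchange of two blocks (task 20594)
-/

set_option autoImplicit false

namespace Pool.Agent.MPEF.U.S

open Matrix Topology
open scoped Pointwise

private theorem Swap_ins {n : ℕ} (i : ℕ) (x : Fin n → ℝ) (f G : Sq n) :
    ins 0 x (app i f G) = app (i + 1) (ins 0 x f) G := by
  funext s
  rcases Nat.eq_zero_or_pos s with h | h
  · rw [h, ins_eq, app_lt _ _ (Nat.succ_pos i), ins_eq]
  · rw [ins_gt _ _ h]
    rcases lt_or_ge (s - 1) i with h1 | h1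
    · rw [app_lt _ _ h1, app_lt _ _ (by omega), ins_gt _ _ h]
    · rw [app_ge _ _ h1, app_ge _ _ (by omega)]
      congr 1
      omega

theorem tSwap : S_Swap := by
  intro n i j l f g h hn
  induction j generalizing i f with
  | zero =>
    rw [app_zero, Nat.zero_mul, pow_zero, one_mul]
    refine D_congr fun s hs => ?_
    rcases lt_or_ge s i with h1 | h1
    · rw [app_lt _ _ h1, app_lt _ _ h1]
    · rw [app_ge _ _ h1, app_ge _ _ h1, app_lt _ _ (by omega)]
  | succ j ih =>
    have hL : D (app i f (app (j + 1) g h)) =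
        (-1) ^ (i + j) * ((-1) ^ (j * l) * D (ins 0 (g j) (app i f (app l h g)))) := by
      rw [app_succ, app_ins, D_ins _ (by omega), Swap_ins, ih (i + 1) (ins 0 (g j) f) (by omega),
        ← Swap_ins]
    have hR : D (app i f (app l h g)) =
        (-1) ^ (i + j + l) * D (ins 0 (g j) (app i f (app l h g))) := by
      rw [← D_ins (i + j + l) (by omega)]
      refine D_congr fun s hs => ?_
      rcases lt_or_eq_of_le (show s ≤ i + j + l by omega) with h1 | h1
      · rw [ins_lt _ _ h1]
      · rw [h1, ins_eq, app_ge _ _ (by omega), app_ge _ _ (by omega)]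
        congr 1
        omega
    rw [hL, hR]
    have h2 : ((-1 : ℝ) ^ l) * (-1) ^ l = 1 := by
      rw [← mul_pow]
      simp
    have h3 : (-1 : ℝ) ^ ((j + 1) * l) = (-1) ^ (j * l) * (-1) ^ l := by
      rw [← pow_add]
      congr 1
      ring
    have h4 : (-1 : ℝ) ^ (i + j + l) = (-1) ^ (i + j) * (-1) ^ l := pow_add _ _ _
    rw [h3, h4]
    linear_combination (-((-1 : ℝ) ^ (j * l)) * (-1) ^ (i + j) *
      D (ins 0 (g j) (app i f (app l h g)))) * h2

end Pool.Agent.MPEF.U.S
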