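import Pool.Agent.Lib.MP_ef3f0f_gt.U.S.Spec

set_option autoImplicit false

/-!
# MP_ef3f0f_gt, Theorem U, module Tt: transitivity of the cyclic order on frames
-/

namespace Pool.Agent.MPEF.U.S

open Matrix Topology
open scoped Pointwise

theorem tTt (hQuad : S_Quad) : S_Tt := by
  intro m x y z t h1 h2
  have key := hQuad (2 * m + 1) (cl x.1) (cl y.1) (cl z.1) (cl t.1)
    (fun i j k h => h1 i j (by omega)) (fun i k l h => h2 i k (by omega))
  constructor
  · intro i j hij
    have h := key i j 0 (2 * m + 1 - i - j) (by omega)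
    rwa [app_zero] at h
  · intro j k hjk
    have h := key 0 j k (2 * m + 1 - j - k) (by omega)
    rwa [app_zero] at h

end Pool.Agent.MPEF.U.S
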