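import Pool.Agent.Lib.MP_ef3f0f_gt.U.S.Spec

/-!
# MP_ef3f0f_gt, Theorem U, `SL_n(ℝ)`: a positive triple (Vandermonde matrices)
-/

set_option autoImplicit false

namespace Pool.Agent.MPEF.U.S

open Matrix Topology
open scoped Pointwise

/-- The transposed Vandermonde matrix with nodes `1, 2, 3, ...`. -/
private noncomputable def TwQ (n : ℕ) : Matrix (Fin n) (Fin n) ℝ :=
  Matrix.of fun r s => (((s : ℕ) : ℝ) + 1) ^ (r : ℕ)

private theorem Tw_vdm (n : ℕ) : 0 < (TwQ n).det := by
  have h : TwQ n = (Matrix.vandermonde (fun s : Fin n => ((s : ℕ) : ℝ) + 1)).transpose := by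
    ext r s
    rfl
  rw [h, Matrix.det_transpose, Matrix.det_vandermonde]
  refine Finset.prod_pos fun i _ => Finset.prod_pos fun k hk => ?_
  have h1 : ((i : ℕ) : ℝ) < ((k : ℕ) : ℝ) := by
    exact_mod_cast Finset.mem_Ioi.1 hk
  linarith

/-- The normalising factors. -/
private noncomputable def TwV (n : ℕ) (s : ℕ) : ℝ := if s = 0 then (TwQ n).det⁻¹ else 1

private theorem TwV_pos (n s : ℕ) : 0 < TwV n s := by
  unfold TwV
  split_ifs
  · exact inv_pos.2 (Tw_vdm n)
  · exact one_pos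

/-- The matrix `c`. -/
private noncomputable def TwC (n : ℕ) : Matrix (Fin n) (Fin n) ℝ :=
  Matrix.of fun r s => TwV n s * TwQ n r s

private theorem TwC_det (n : ℕ) (hn : 0 < n) : (TwC n).det = 1 := by
  unfold TwC
  rw [Matrix.det_mul_row]
  obtain ⟨k, rfl⟩ : ∃ k, n = k + 1 := ⟨n - 1, by omega⟩
  have h0 := (Tw_vdm (k + 1)).ne'
  rw [Fin.prod_univ_succ]
  have h1 : ∏ i : Fin k, TwV (k + 1) ((i.succ : Fin (k + 1)) : ℕ) = 1 := by
    refine Finset.prod_eq_one fun i _ => ?_
    unfold TwV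
    rw [if_neg (by simp)]
  have h2 : TwV (k + 1) (((0 : Fin (k + 1)) : ℕ)) = (TwQ (k + 1)).det⁻¹ := by
    unfold TwV
    rw [if_pos (by simp)]
  rw [h1, h2, mul_one, inv_mul_cancel₀ h0]

/-- The minors of `c` in the rows `i, ..., i + j - 1` and the first `j` columns. -/
private theorem Tw_minor (n i j : ℕ) (hij : i + j ≤ n) :
    0 < Matrix.det (Matrix.of fun r s : Fin j =>
      if h : i + r < n then cl (TwC n) s ⟨i + r, h⟩ else 0) := by
  have h : (Matrix.of fun r s : Fin j =>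
      if h : i + (r : ℕ) < n then cl (TwC n) s ⟨i + r, h⟩ else 0) =
      Matrix.of fun r s : Fin j =>
        (fun s : Fin j => TwV n s * (((s : ℕ) : ℝ) + 1) ^ i) s * TwQ j r s := by
    ext r s
    simp only [Matrix.of_apply]
    have hr : i + (r : ℕ) < n := by have := r.2; omega
    have hs : (s : ℕ) < n := by have := s.2; omega
    rw [dif_pos hr, cl_lt _ hs]
    simp only [TwC, TwQ, Matrix.of_apply]
    rw [pow_add]
    ring
  rw [h, Matrix.det_mul_row]
  refine mul_pos (Finset.prod_pos fun s _ => ?_) (Tw_vdm j)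
  exact mul_pos (TwV_pos n s) (by positivity)

/-- **A positive triple.** -/
theorem tTw (hLmul : S_Lmul) (hBlk : S_Blk) (hRmul : S_Rmul) (hInvP : S_InvP) : S_Tw := by
  intro m
  have _ := hRmul
  have hw : Pos 1 (w m) := (hInvP m).2.2.2.1
  refine ⟨⟨TwC (2 * m + 1), TwC_det _ (by omega)⟩, ?_⟩
  intro i j hij
  -- the matrix `C`
  obtain ⟨f, hf⟩ : ∃ f : Sq (2 * m + 1), f = app i (cl 1) (app j (cl (TwC (2 * m + 1)))
      fun s => cl (1 : Matrix (Fin (2 * m + 1)) (Fin (2 * m + 1)) ℝ) (s + i + j)) := ⟨_, rfl⟩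
  obtain ⟨C, hC⟩ : ∃ C : Matrix (Fin (2 * m + 1)) (Fin (2 * m + 1)) ℝ,
      C = Matrix.of fun r s : Fin (2 * m + 1) => f s r := ⟨_, rfl⟩
  have hCd : C.det = D f := by
    rw [hC, ← Matrix.det_transpose]
    rfl
  have hCpos : 0 < C.det := by
    rw [hCd, hf, hBlk _ i j _ hij]
    exact Tw_minor _ i j hij
  -- the images of the unit vectors
  have hCe : ∀ (s : ℕ) (_ : s < 2 * m + 1), C.mulVec (cl 1 s) = f s := by
    intro s hs
    funext r
    rw [Matrix.mulVec, dotProduct, Finset.sum_eq_single ⟨s, hs⟩]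
    · rw [cl_lt _ hs, Matrix.one_apply_eq, mul_one, hC]
      rfl
    · intro t _ ht
      rw [cl_lt _ hs, Matrix.one_apply_ne ht, mul_zero]
    · intro h
      exact absurd (Finset.mem_univ _) h
  have hw' : ∀ (t : ℕ) (_ : t < 2 * m + 1), cl (wM m) t =
      ((-1 : ℝ) ^ t) • cl (1 : Matrix (Fin (2 * m + 1)) (Fin (2 * m + 1)) ℝ) (2 * m - t) := by
    intro t ht
    funext r
    rw [Pi.smul_apply, cl_lt _ ht, cl_lt _ (show 2 * m - t < 2 * m + 1 by omega), wM,
      Matrix.of_apply, Matrix.one_apply, smul_eq_mul]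
    by_cases hr : (r : ℕ) + t = 2 * m
    · rw [if_pos (by simpa using hr), if_pos (Fin.ext (by simp only; omega)), mul_one]
    · rw [if_neg (by simpa using hr), if_neg, mul_zero]
      intro h4
      have := congrArg Fin.val h4
      simp only at this
      omega
  have key : ∀ s < 2 * m + 1, app i (cl (1 : P m).1)
      (app j (cl (TwC (2 * m + 1))) (cl (w m).1)) s =
      C.mulVec (app (i + j) (cl (1 : P m).1) (cl (w m).1) s) := by
    intro s hs
    have h1 : (1 : P m).1 = (1 : Matrix (Fin (2 * m + 1)) (Fin (2 * m + 1)) ℝ) := rfl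
    have h2 : (w m).1 = wM m := rfl
    rw [h1, h2]
    rcases lt_or_ge s (i + j) with h | h
    · rw [app_lt (i := i + j) _ _ h, hCe s hs, hf]
      rcases lt_or_ge s i with h' | h'
      · rw [app_lt _ _ h', app_lt _ _ h']
      · rw [app_ge _ _ h', app_ge _ _ h', app_lt _ _ (by omega), app_lt _ _ (by omega)]
    · rw [app_ge (i := i + j) _ _ h, app_ge _ _ (by omega), app_ge _ _ (by omega),
        show s - i - j = s - (i + j) by omega, hw' _ (by omega), Matrix.mulVec_smul,
        hCe _ (by omega), hf, app_ge _ _ (by omega), app_ge _ _ (by omega)]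
      congr 2
      omega
  have h3 := (hLmul (2 * m + 1)).1 C _ _ key
  rw [h3]
  exact mul_pos hCpos (hw (i + j) hij)

end Pool.Agent.MPEF.U.S
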