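import Pool.Agent.Lib.MP_ef3f0f_gt.U.S.Spec

/-!
# MP_ef3f0f_gt, Theorem U, `SL_n(ℝ)`: uniqueness of eigenframes
-/

set_option autoImplicit false

namespace Pool.Agent.MPEF.U.S

open Matrix Topology
open scoped Pointwise

/-- A matrix with determinant `1` has a nonzero term in the Leibniz formula. -/
private theorem UQ_perm {n : ℕ} (y : Matrix (Fin n) (Fin n) ℝ) (hy : y.det = 1) :
    ∃ σ : Equiv.Perm (Fin n), ∀ i, y (σ i) i ≠ 0 := by
  by_contra hcon
  push Not at hcon
  have h0 : y.det = 0 := by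
    rw [Matrix.det_apply]
    refine Finset.sum_eq_zero fun σ _ => ?_
    obtain ⟨i, hi⟩ := hcon σ
    have h1 : ∏ i, y (σ i) i = 0 := Finset.prod_eq_zero (Finset.mem_univ i) hi
    rw [h1, smul_zero]
  rw [h0] at hy
  exact zero_ne_one hy

/-- A permutation of `Fin n` which is strictly monotone is the identity. -/
private theorem UQ_mono {n : ℕ} (σ : Equiv.Perm (Fin n)) (h : StrictMono σ) (i : Fin n) :
    σ i = i := by
  have h1 : (σ : Fin n → Fin n) = id :=
    (h.range_inj strictMono_id).1 (by rw [Set.range_id, σ.surjective.range_eq])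
  exact congrFun h1 i

/-- The intertwiner of two diagonal matrices with strictly decreasing entries is diagonal. -/
private theorem UQ_diag {n : ℕ} (y : Matrix (Fin n) (Fin n) ℝ) (hy : y.det = 1) (t t' : Fin n → ℝ)
    (ht : ∀ i j, i < j → t j < t i) (ht' : ∀ i j, i < j → t' j < t' i)
    (h : ∀ i j, t i * y i j = y i j * t' j) (i j : Fin n) (hij : i ≠ j) : y i j = 0 := by
  obtain ⟨σ, hσ⟩ := UQ_perm y hy
  have h1 : ∀ i, t (σ i) = t' i := by
    intro i
    have h2 := h (σ i) i
    rw [mul_comm] at h2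
    exact mul_left_cancel₀ (hσ i) h2
  have h3 : StrictMono σ := by
    intro i j hij
    have h4 := ht' i j hij
    rw [← h1, ← h1] at h4
    by_contra hcon
    rcases lt_or_eq_of_le (not_lt.1 hcon) with h5 | h5
    · exact absurd (ht _ _ h5) (not_lt.2 h4.le)
    · rw [h5] at h4
      exact lt_irrefl _ h4
  have h6 : ∀ i, t i = t' i := fun i => by
    have := h1 i
    rwa [UQ_mono σ h3 i] at this
  by_contra hne
  have h7 := h i j
  rw [mul_comm] at h7
  have h8 := mul_left_cancel₀ hne h7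
  rw [← h6 j] at h8
  rcases lt_or_gt_of_ne hij with h9 | h9
  · exact absurd h8 (ht _ _ h9).ne'
  · exact absurd h8 (ht _ _ h9).ne

/-- The products of the first diagonal entries. -/
private theorem UQ_prod {n : ℕ} (b : Fin n → ℝ)
    (h : ∀ j, j ≤ n → 0 < ∏ s : Fin n, (if (s : ℕ) < j then b s else 1)) (i : Fin n) : 0 < b i := by
  have h1 := h i i.2.le
  have h2 := h (i + 1) i.2
  rw [← Finset.mul_prod_erase _ _ (Finset.mem_univ i)] at h1 h2
  rw [if_neg (lt_irrefl _), one_mul] at h1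
  rw [if_pos (Nat.lt_succ_self _)] at h2
  have h3 : ∏ s ∈ Finset.univ.erase i, (if (s : ℕ) < (i : ℕ) + 1 then b s else 1) =
      ∏ s ∈ Finset.univ.erase i, (if (s : ℕ) < (i : ℕ) then b s else 1) := by
    refine Finset.prod_congr rfl fun s hs => ?_
    have h4 : (s : ℕ) ≠ i := fun h5 => Finset.ne_of_mem_erase hs (Fin.ext h5)
    by_cases h5 : (s : ℕ) < i
    · rw [if_pos h5, if_pos (by omega)]
    · rw [if_neg h5, if_neg (by omega)]
  rw [h3] at h2
  exact (pos_iff_pos_of_mul_pos h2).2 h1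

theorem tUQ (hInvP : S_InvP) (hRmul : S_Rmul) (hEl : S_El) : S_UQ := by
  intro m l z z' hz hz'
  have _ := hInvP
  obtain ⟨t, ht⟩ : ∃ t : P m, t = z⁻¹ * l * z := ⟨_, rfl⟩
  obtain ⟨t', ht'⟩ : ∃ t' : P m, t' = z'⁻¹ * l * z' := ⟨_, rfl⟩
  obtain ⟨y, hy⟩ : ∃ y : P m, y = z⁻¹ * z' := ⟨_, rfl⟩
  rw [← ht] at hz
  rw [← ht'] at hz'
  have h1 : t * y = y * t' := by
    rw [ht, ht', hy]
    group
  have h2 : ∀ i j, t.1 i i * y.1 i j = y.1 i j * t'.1 j j := by
    intro i j
    have e1 : (t * y).1 i j = t.1 i i * y.1 i j := by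
      rw [Matrix.SpecialLinearGroup.coe_mul, Matrix.mul_apply]
      refine Finset.sum_eq_single i (fun k _ hk => ?_) (fun hi => absurd (Finset.mem_univ i) hi)
      rw [hz.1.1 i k (Ne.symm hk), zero_mul]
    have e2 : (y * t').1 i j = y.1 i j * t'.1 j j := by
      rw [Matrix.SpecialLinearGroup.coe_mul, Matrix.mul_apply]
      refine Finset.sum_eq_single j (fun k _ hk => ?_) (fun hi => absurd (Finset.mem_univ j) hi)
      rw [hz'.1.1 k j hk, mul_zero]
    rw [← e1, ← e2, h1]
  have h3 : ∀ i j, i ≠ j → y.1 i j = 0 :=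
    UQ_diag y.1 y.2 (fun i => t.1 i i) (fun i => t'.1 i i) hz.2 hz'.2 h2
  have hzz : z' = z * y := by
    rw [hy]
    group
  refine ⟨?_, fun k hk hk' => ?_⟩
  · have h4 : J m * y = y * J m := by
      apply Subtype.ext
      ext i j
      obtain ⟨d, hd⟩ : ∃ d : Fin (2 * m + 1) → ℝ, (J m).1 = Matrix.diagonal d := ⟨_, rfl⟩
      rw [Matrix.SpecialLinearGroup.coe_mul, Matrix.SpecialLinearGroup.coe_mul, hd,
        Matrix.diagonal_mul, Matrix.mul_diagonal]
      by_cases hij : i = j
      · rw [hij, mul_comm]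
      · rw [h3 i j hij, mul_zero, zero_mul]
    rw [hzz, _root_.mul_inv_rev]
    calc z * J m * z⁻¹ = z * (J m * y) * y⁻¹ * z⁻¹ := by group
      _ = z * (y * J m) * y⁻¹ * z⁻¹ := by rw [h4]
      _ = _ := by group
  · rw [← hy]
    obtain ⟨hww, hwx, -⟩ := hEl m
    obtain ⟨b, hb⟩ : ∃ b : P m, b = w m * y * w m := ⟨_, rfl⟩
    have hbe : ∀ i j, b.1 i j = (-1) ^ ((i : ℕ) + j) * y.1 i.rev j.rev := by
      intro i j
      rw [hb]
      exact hwx y i j
    have hb0 : ∀ r s, s < r → b.1 r s = 0 := by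
      intro r s hrs
      rw [hbe, h3 _ _ (fun h => hrs.ne' (Fin.rev_injective h)), mul_zero]
    have hzw : z' * w m = z * w m * b := by
      rw [hb, hzz]
      calc z * y * w m = z * 1 * y * w m := by rw [mul_one]
        _ = z * (w m * w m) * y * w m := by rw [hww]
        _ = _ := by group
    have key : ∀ i, i ≤ 2 * m + 1 → D (app i (cl k.1) (cl (z' * w m).1)) =
        (∏ s : Fin (2 * m + 1), if (s : ℕ) < 2 * m + 1 - i then b.1 s s else 1) *
          D (app i (cl k.1) (cl (z * w m).1)) := by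
      intro i hi
      have e0 : ∀ X : P m, D (app i (cl k.1) (cl X.1)) =
          D (app i (cl k.1) (app (2 * m + 1 - i) (cl X.1) (cl X.1))) := by
        intro X
        refine D_congr fun s hs => ?_
        rcases lt_or_ge s i with h | h
        · rw [app_lt _ _ h, app_lt _ _ h]
        · rw [app_ge _ _ h, app_ge _ _ h, app_lt _ _ (by omega)]
      rw [e0, e0 (z * w m), hzw]
      have e1 : D (app i (cl k.1) (app (2 * m + 1 - i) (cl (z * w m * b).1) (cl (z * w m * b).1))) =
          D (app i (cl k.1) (app (2 * m + 1 - i) (cl (z * w m * b).1) (cl (z * w m).1))) := by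
        refine D_congr fun s hs => ?_
        rcases lt_or_ge s i with h | h
        · rw [app_lt _ _ h, app_lt _ _ h]
        · rw [app_ge _ _ h, app_ge _ _ h, app_lt _ _ (by omega), app_lt _ _ (by omega)]
      rw [e1]
      exact hRmul (2 * m + 1) i (2 * m + 1 - i) (cl k.1) (cl (z * w m).1) (z * w m).1 b.1
        (by omega) hb0
    have hpos : ∀ i, 0 < b.1 i i := by
      refine UQ_prod (fun s => b.1 s s) fun j hj => ?_
      have e1 := key (2 * m + 1 - j) (by omega)
      rw [show 2 * m + 1 - (2 * m + 1 - j) = j by omega] at e1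
      have e2 := hk' (2 * m + 1 - j) (by omega)
      have e3 := hk (2 * m + 1 - j) (by omega)
      rw [e1] at e2
      exact (pos_iff_pos_of_mul_pos e2).2 e3
    refine ⟨h3, fun i => ?_⟩
    have e1 := hpos i.rev
    rw [hbe, Fin.rev_rev, ← two_mul, pow_mul] at e1
    simpa using e1

end Pool.Agent.MPEF.U.S
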