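import Pool.Agent.Lib.MP_ef3f0f_gt.U.S.Quad
import Pool.Agent.Lib.MP_ef3f0f_gt.U.S.Swap
import Pool.Agent.Lib.MP_ef3f0f_gt.U.S.Lmul
import Pool.Agent.Lib.MP_ef3f0f_gt.U.S.Rmul
import Pool.Agent.Lib.MP_ef3f0f_gt.U.S.Blk
import Pool.Agent.Lib.MP_ef3f0f_gt.U.S.InvP
import Pool.Agent.Lib.MP_ef3f0f_gt.U.S.InvT
import Pool.Agent.Lib.MP_ef3f0f_gt.U.S.Tt
import Pool.Agent.Lib.MP_ef3f0f_gt.U.S.Op
import Pool.Agent.Lib.MP_ef3f0f_gt.U.S.El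
import Pool.Agent.Lib.MP_ef3f0f_gt.U.S.Nb
import Pool.Agent.Lib.MP_ef3f0f_gt.U.S.D1
import Pool.Agent.Lib.MP_ef3f0f_gt.U.S.Dp
import Pool.Agent.Lib.MP_ef3f0f_gt.U.S.K0
import Pool.Agent.Lib.MP_ef3f0f_gt.U.S.PD
import Pool.Agent.Lib.MP_ef3f0f_gt.U.S.Min
import Pool.Agent.Lib.MP_ef3f0f_gt.U.S.LU
import Pool.Agent.Lib.MP_ef3f0f_gt.U.S.LUi
import Pool.Agent.Lib.MP_ef3f0f_gt.U.S.LUn
import Pool.Agent.Lib.MP_ef3f0f_gt.U.S.Sq
import Pool.Agent.Lib.MP_ef3f0f_gt.U.S.JN1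
import Pool.Agent.Lib.MP_ef3f0f_gt.U.S.JN2
import Pool.Agent.Lib.MP_ef3f0f_gt.U.S.CT
import Pool.Agent.Lib.MP_ef3f0f_gt.U.S.BF
import Pool.Agent.Lib.MP_ef3f0f_gt.U.S.Fix
import Pool.Agent.Lib.MP_ef3f0f_gt.U.S.LX
import Pool.Agent.Lib.MP_ef3f0f_gt.U.S.UQ
import Pool.Agent.Lib.MP_ef3f0f_gt.U.S.Tw
import Pool.Agent.Lib.MP_ef3f0f_gt.U.S.NT
import Pool.Agent.Lib.MP_ef3f0f_gt.U.S.Ok

/-!
# MP_ef3f0f_gt, Theorem U: `SL_n(ℝ)`, `n` odd, is a positive structure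
-/

set_option autoImplicit false

namespace Pool.Agent.MPEF.U.S

private theorem aInvP : S_InvP := tInvP tLmul tRmul tSwap
private theorem aInvT : S_InvT := tInvT tLmul tRmul tSwap
private theorem aTt : S_Tt := tTt tQuad
private theorem aD1 : S_D1 := tD1 tEl
private theorem aDp : S_Dp := tDp tEl aD1
private theorem aPD : S_PD := tPD tLmul tBlk aInvP tK0 tEl
private theorem aMin : S_Min := tMin tLmul tBlk
private theorem aLU : S_LU := tLU aMin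
private theorem aLUi : S_LUi := tLUi aInvP tEl
private theorem aLUn : S_LUn := tLUn aLU tEl tNb aInvP tOp
private theorem aSq : S_Sq := tSq tEl tNb
private theorem aJN1 : S_JN1 := tJN1 aLUn aSq tEl
private theorem aJN2 : S_JN2 := tJN2 aLUn aSq tEl
private theorem aCT : S_CT := tCT aLUn aSq tEl
private theorem aFix : S_Fix := tFix tBF aLUn aSq tNb tEl
private theorem aLX : S_LX := tLX aFix aLU aLUi aLUn tOp tEl aDp
private theorem aUQ : S_UQ := tUQ aInvP tRmul tEl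
private theorem aTw : S_Tw := tTw tLmul tBlk tRmul aInvP
private theorem aNT : S_NT := tNT aTw aLU aSq tOp aInvP aInvT tEl

/-- **`SL_n(ℝ)`, `n = 2 m + 1 ≥ 3`, is a positive structure.** -/
theorem gS_Ok (m : ℕ) (hm : 1 ≤ m) : (gS m).Ok :=
  tOk aInvP aInvT aTt tOp tEl aD1 aDp tK0 aPD aJN1 aJN2 aCT aLX aUQ aNT m hm

end Pool.Agent.MPEF.U.S
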