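import Pool.Agent.Lib.MP_ef3f0f_gt.U.S.Spec

/-!
# MP_ef3f0f_gt, Theorem U, package S, module El: algebra of `w`, `J`, `A`
-/

set_option autoImplicit false

namespace Pool.Agent.MPEF.U.S

open Matrix Topology
open scoped Pointwise

variable {m : ℕ}

private lemma El_sg (i : Fin (2 * m + 1)) : (-1 : ℝ) ^ (i.rev : ℕ) = (-1) ^ (i : ℕ) := by
  apply neg_one_pow_congr
  have := i.2
  rw [Fin.val_rev, Nat.even_iff, Nat.even_iff]
  omega

private lemma El_wl (x : Matrix (Fin (2 * m + 1)) (Fin (2 * m + 1)) ℝ) (i j : Fin (2 * m + 1)) :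
    (wM m * x) i j = (-1) ^ (i : ℕ) * x i.rev j := by
  rw [Matrix.mul_apply, Finset.sum_eq_single i.rev]
  · unfold wM
    rw [Matrix.of_apply, if_pos, El_sg]
    have := i.2
    rw [Fin.val_rev]
    omega
  · intro s _ hs
    unfold wM
    rw [Matrix.of_apply, if_neg, zero_mul]
    intro h
    apply hs
    apply Fin.ext
    rw [Fin.val_rev]
    omega
  · intro h
    exact absurd (Finset.mem_univ _) h

private lemma El_wr (x : Matrix (Fin (2 * m + 1)) (Fin (2 * m + 1)) ℝ) (i j : Fin (2 * m + 1)) :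
    (x * wM m) i j = x i j.rev * (-1) ^ (j : ℕ) := by
  rw [Matrix.mul_apply, Finset.sum_eq_single j.rev]
  · unfold wM
    rw [Matrix.of_apply, if_pos]
    have := j.2
    rw [Fin.val_rev]
    omega
  · intro s _ hs
    unfold wM
    rw [Matrix.of_apply, if_neg, mul_zero]
    intro h
    apply hs
    apply Fin.ext
    rw [Fin.val_rev]
    omega
  · intro h
    exact absurd (Finset.mem_univ _) h

private lemma El_ww : wM m * wM m = 1 := by
  ext i j
  rw [El_wl]
  unfold wM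
  rw [Matrix.of_apply, Matrix.one_apply]
  by_cases h : i = j
  · rw [if_pos h, if_pos, h, ← pow_add, ← two_mul, pow_mul]
    · norm_num
    · have := i.2
      rw [Fin.val_rev, h]
      omega
  · rw [if_neg h, if_neg, mul_zero]
    intro h1
    apply h
    apply Fin.ext
    have := i.2
    rw [Fin.val_rev] at h1
    omega

private lemma El_wxw (x : P m) (i j : Fin (2 * m + 1)) :
    (w m * x * w m).1 i j = (-1) ^ ((i : ℕ) + j) * x.1 i.rev j.rev := by
  have h : (w m * x * w m).1 = wM m * x.1 * wM m := rfl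
  rw [h, El_wr, El_wl, pow_add]
  ring

private lemma El_dl {d : Matrix (Fin (2 * m + 1)) (Fin (2 * m + 1)) ℝ}
    (hd : ∀ i j, i ≠ j → d i j = 0) (x : Matrix (Fin (2 * m + 1)) (Fin (2 * m + 1)) ℝ)
    (i j : Fin (2 * m + 1)) : (d * x) i j = d i i * x i j := by
  rw [Matrix.mul_apply]
  refine Finset.sum_eq_single i (fun k _ hk => ?_) (fun hi => absurd (Finset.mem_univ i) hi)
  rw [hd i k (Ne.symm hk), zero_mul]

private lemma El_dr {d : Matrix (Fin (2 * m + 1)) (Fin (2 * m + 1)) ℝ}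
    (hd : ∀ i j, i ≠ j → d i j = 0) (x : Matrix (Fin (2 * m + 1)) (Fin (2 * m + 1)) ℝ)
    (i j : Fin (2 * m + 1)) : (x * d) i j = x i j * d j j := by
  rw [Matrix.mul_apply]
  refine Finset.sum_eq_single j (fun k _ hk => ?_) (fun hi => absurd (Finset.mem_univ j) hi)
  rw [hd k j hk, mul_zero]

private lemma El_ext {x y : P m} (h : ∀ i j, x.1 i j = y.1 i j) : x = y :=
  Subtype.ext (Matrix.ext h)

private lemma El_inv {d : P m} (hd : d ∈ A m) (i : Fin (2 * m + 1)) :
    (d⁻¹).1 i i = (d.1 i i)⁻¹ := by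
  have h1 : (d * d⁻¹).1 i i = d.1 i i * (d⁻¹).1 i i := El_dl hd.1 _ i i
  rw [mul_inv_cancel] at h1
  have h2 : (1 : P m).1 i i = 1 := Matrix.one_apply_eq i
  rw [h2] at h1
  exact eq_inv_of_mul_eq_one_right h1.symm

private lemma El_wdw {d : P m} (hd : d ∈ A m) : w m * d * w m ∈ A m := by
  refine ⟨fun i j hij => ?_, fun i => ?_⟩
  · rw [El_wxw, hd.1 _ _ (fun h => hij (Fin.rev_injective h)), mul_zero]
  · rw [El_wxw, ← two_mul, pow_mul]
    have := hd.2 i.rev
    norm_num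
    exact this

private lemma El_wdwi (d : P m) (i : Fin (2 * m + 1)) :
    (w m * d * w m).1 i i = d.1 i.rev i.rev := by
  rw [El_wxw, ← two_mul, pow_mul]
  norm_num

private lemma El_diag (d : Fin (2 * m + 1) → ℝ) (h : ∏ i, d i = 1) (i j : Fin (2 * m + 1)) :
    (dg m d h).1 i j = if i = j then d i else 0 := by
  unfold dg
  show Matrix.diagonal d i j = _
  rw [Matrix.diagonal_apply]

private lemma El_dg_off (d : Fin (2 * m + 1) → ℝ) (h : ∏ i, d i = 1) (i j : Fin (2 * m + 1))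
    (hij : i ≠ j) : (dg m d h).1 i j = 0 := by
  rw [El_diag, if_neg hij]

private lemma El_dg_mem (d : Fin (2 * m + 1) → ℝ) (h : ∏ i, d i = 1) (h0 : ∀ i, 0 < d i) :
    dg m d h ∈ A m :=
  ⟨El_dg_off d h, fun i => by rw [El_diag, if_pos rfl]; exact h0 i⟩

private lemma El_a_mem : a m ∈ A m := El_dg_mem _ _ fun i => by positivity

private lemma El_waw : w m * a m * w m = (a m)⁻¹ := by
  apply El_ext
  intro i j
  have h1 := El_wdw (El_a_mem (m := m))
  have h2 := (A m).inv_mem (El_a_mem (m := m))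
  by_cases h : i = j
  · subst h
    rw [El_wdwi, El_inv El_a_mem]
    unfold a
    rw [El_diag, El_diag, if_pos rfl, if_pos rfl, ← _root_.zpow_neg]
    have hv : ((i.rev : ℕ) : ℤ) = 2 * m - (i : ℕ) := by
      have := i.2
      rw [Fin.val_rev]
      omega
    rw [hv]
    congr 1
    ring
  · rw [h1.1 i j h, h2.1 i j h]

private lemma El_JJ : J m * J m = 1 := by
  apply El_ext
  intro i j
  have h : (J m * J m).1 = (J m).1 * (J m).1 := rfl
  rw [h]
  unfold J
  rw [El_dl (El_dg_off _ _), El_diag, El_diag, if_pos rfl]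
  by_cases h1 : i = j
  · subst h1
    rw [if_pos rfl, ← pow_add, ← two_mul, pow_mul]
    norm_num
  · rw [if_neg h1, mul_zero]
    exact (Matrix.one_apply_ne h1).symm

private lemma El_Jw : J m * w m = w m * J m := by
  apply El_ext
  intro i j
  have h1 : (J m * w m).1 = (J m).1 * wM m := rfl
  have h2 : (w m * J m).1 = wM m * (J m).1 := rfl
  rw [h1, h2]
  unfold J
  rw [El_dl (El_dg_off _ _), El_dr (El_dg_off _ _), El_diag, El_diag, if_pos rfl, if_pos rfl]
  unfold wM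
  rw [Matrix.of_apply]
  by_cases h : (i : ℕ) + j = 2 * m
  · rw [if_pos h, mul_comm]
    congr 1
    apply neg_one_pow_congr
    rw [Nat.even_iff, Nat.even_iff]
    omega
  · rw [if_neg h, mul_zero, zero_mul]

private lemma El_Jd {d : P m} (hd : d ∈ A m) : J m * d = d * J m := by
  apply El_ext
  intro i j
  have h1 : (J m * d).1 = (J m).1 * d.1 := rfl
  have h2 : (d * J m).1 = d.1 * (J m).1 := rfl
  rw [h1, h2, El_dr hd.1, El_dl hd.1]
  by_cases h : i = j
  · subst h
    ring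
  · unfold J
    rw [El_dg_off _ _ i j h, mul_zero, zero_mul]

private lemma El_comm {d d' : P m} (hd : d ∈ A m) (hd' : d' ∈ A m) : d * d' = d' * d := by
  apply El_ext
  intro i j
  have h1 : (d * d').1 = d.1 * d'.1 := rfl
  have h2 : (d' * d).1 = d'.1 * d.1 := rfl
  rw [h1, h2, El_dl hd.1, El_dr hd.1]
  by_cases h : i = j
  · subst h
    ring
  · rw [hd'.1 i j h, mul_zero, zero_mul]

private lemma El_A_Bor : A m ≤ Bor m := fun _ hd => ⟨fun i j hij => hd.1 i j hij.ne', hd.2⟩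

private lemma El_Np_Bor : Np m ≤ Bor m := fun _ hd =>
  ⟨hd.1, fun i => by rw [hd.2 i]; exact one_pos⟩

private lemma El_conj {d : P m} (hd : d ∈ A m) (x : P m) (i j : Fin (2 * m + 1)) :
    (d * x * d⁻¹).1 i j = d.1 i i * x.1 i j * (d.1 j j)⁻¹ := by
  have h1 : (d * x * d⁻¹).1 = d.1 * x.1 * (d⁻¹).1 := rfl
  rw [h1, El_dr ((A m).inv_mem hd).1, El_dl hd.1, El_inv hd]

private lemma El_App {d : P m} (hd : d ∈ App m) : w m * d⁻¹ * w m ∈ App m := by
  refine ⟨El_wdw ((A m).inv_mem hd.1), fun i j hij => ?_⟩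
  rw [El_wdwi, El_wdwi, El_inv hd.1, El_inv hd.1]
  exact inv_strictAnti₀ (hd.1.2 _) (hd.2 _ _ (Fin.rev_lt_rev.2 hij))

private lemma El_Nm {x : P m} (hx : x ∈ Nm m) : w m * x * w m ∈ Np m := by
  refine ⟨fun i j hij => ?_, fun i => ?_⟩
  · rw [El_wxw, hx.1 _ _ (Fin.rev_lt_rev.2 hij), mul_zero]
  · rw [El_wdwi, hx.2]

private lemma El_Np {x : P m} (hx : x ∈ Np m) : w m * x * w m ∈ Nm m := by
  refine ⟨fun i j hij => ?_, fun i => ?_⟩
  · rw [El_wxw, hx.1 _ _ (Fin.rev_lt_rev.2 hij), mul_zero]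
  · rw [El_wdwi, hx.2]

private lemma El_one {x : P m} (hx : x ∈ Nm m) (hb : x ∈ Bor m) : x = 1 := by
  apply El_ext
  intro i j
  rcases lt_trichotomy i j with h | h | h
  · rw [hx.1 i j h]
    exact (Matrix.one_apply_ne h.ne).symm
  · subst h
    rw [hx.2 i]
    exact (Matrix.one_apply_eq i).symm
  · rw [hb.1 i j h]
    exact (Matrix.one_apply_ne h.ne').symm

private lemma El_dec {b : P m} (hb : b ∈ Bor m) :
    ∃ d ∈ A m, ∃ u ∈ Np m, b = d * u ∧ ∀ i, d.1 i i = b.1 i i := by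
  have h1 : b.1.det = ∏ i, b.1 i i := Matrix.det_of_isUpperTriangular fun i j hij => hb.1 i j hij
  have h2 : ∏ i, b.1 i i = 1 := by
    rw [← h1]
    exact b.2
  have hd := El_dg_mem (m := m) (fun i => b.1 i i) h2 hb.2
  have hdi : ∀ i, (dg m (fun i => b.1 i i) h2).1 i i = b.1 i i := fun i => by
    rw [El_diag, if_pos rfl]
  have hdm := (A m).inv_mem hd
  refine ⟨_, hd, (dg m (fun i => b.1 i i) h2)⁻¹ * b, ?_, ?_, hdi⟩
  · have h3 : ((dg m (fun i => b.1 i i) h2)⁻¹ * b).1 =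
        ((dg m (fun i => b.1 i i) h2)⁻¹).1 * b.1 := rfl
    refine ⟨fun i j hij => ?_, fun i => ?_⟩
    · rw [h3, El_dl hdm.1, hb.1 i j hij, mul_zero]
    · rw [h3, El_dl hdm.1, El_inv hd, hdi]
      exact inv_mul_cancel₀ (hb.2 i).ne'
  · rw [mul_inv_cancel_left]

theorem tEl : S_El := by
  intro m
  exact ⟨Subtype.ext El_ww, El_wxw, El_waw, fun d hd => El_wdw hd, El_JJ, El_Jw,
    fun d hd => El_Jd hd, El_a_mem, fun d hd d' hd' => El_comm hd hd', El_A_Bor, El_Np_Bor,
    fun d hd => El_App hd, fun x hx => El_Nm hx, fun x hx => El_Np hx, fun d hd i => El_inv hd i,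
    fun d hd x i j => El_conj hd x i j, fun x hx hb => El_one hx hb, fun b hb => El_dec hb⟩

end Pool.Agent.MPEF.U.S
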