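import Pool.Agent.Lib.MP_ef3f0f_gt.U.S.Spec

set_option autoImplicit false

/-! Junction near `1`. -/

namespace Pool.Agent.MPEF.U.S

open Matrix Topology
open scoped Pointwise

theorem tJN1 (hLUn : S_LUn) (hSq : S_Sq) (hEl : S_El) : S_JN1 := by
  intro m U hU
  obtain ⟨V₁, hV₁, hV₁s⟩ := (hSq m U hU).1
  obtain ⟨V, hV, hVx⟩ := (hLUn m).1 (U ∩ V₁) (Filter.inter_mem hU hV₁)
  obtain ⟨-, -, -, -, -, -, -, -, hcomm, -⟩ := hEl m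
  refine ⟨V, hV, fun s hs s' hs' q hq => ?_⟩
  obtain ⟨x, hx, α, hα, u, hu, hxU, hαU, huU, hqe⟩ := hVx q hq
  refine ⟨s * x * s⁻¹, (hV₁s s hs).1 x hx hxU.2, s'⁻¹ * u * s', (hV₁s s' hs').2 u hu huU.2,
    α, hα, hαU.1, ?_⟩
  have h1 : α * s = s * α := hcomm α hα s hs.1
  rw [hqe, h1]
  group

end Pool.Agent.MPEF.U.S
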