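import Pool.Agent.Lib.MP_ef3f0f_gt.U.S.Spec

/-!
# MP_ef3f0f_gt, Theorem U: octahedron recurrence (`S_Quad`)
-/

set_option autoImplicit false

namespace Pool.Agent.MPEF.U.S

/-- Two inserted vectors. -/
private theorem Quad_two {n : ℕ} (p q : ℕ) (hp : p < n) (hq : q + 1 < n) (x y : Fin n → ℝ)
    (F : Sq n) : D (ins p x (ins q y F)) = (-1) ^ p * ((-1) ^ q * D (ins 0 x (ins 0 y F))) := by
  rw [D_ins p hp, D_ins_ins q hq]

/-- The last vector may be inserted. -/
private theorem Quad_last {n : ℕ} (p : ℕ) (hp : p < n) (hn : 2 ≤ n) (x : Fin n → ℝ) (F : Sq n) :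
    D (ins p x F) = D (ins p x (ins (n - 2) (F (n - 2)) F)) := by
  refine D_congr fun s hs => ?_
  have h1 : ∀ t, t < n - 1 → ins (n - 2) (F (n - 2)) F t = F t := by
    intro t ht
    rcases lt_or_eq_of_le (show t ≤ n - 2 by omega) with h | h
    · exact ins_lt _ _ h
    · rw [h]
      exact ins_eq _ _ _
  rcases lt_trichotomy s p with h | h | h
  · rw [ins_lt _ _ h, ins_lt _ _ h, h1 s (by omega)]
  · rw [h, ins_eq, ins_eq]
  · rw [ins_gt _ _ h, ins_gt _ _ h, h1 (s - 1) (by omega)]

private theorem Quad_step {n i j k l : ℕ} (a b c d : Sq n) (h : i + j + k + l + 2 = n) :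
    D (app (i + 1) a (app j b (app (k + 1) c d))) * D (app i a (app (j + 1) b (app k c d))) =
      D (app (i + 1) a (app (j + 1) b (app k c d))) * D (app i a (app j b (app (k + 1) c d))) +
        D (app (i + 1) a (app j b (app k c d))) *
          D (app i a (app (j + 1) b (app (k + 1) c d))) := by
  obtain ⟨F, hF⟩ : ∃ F : Sq n, F = app i a (app j b (app k c d)) := ⟨_, rfl⟩
  have hFd : F (n - 2) = d l := by
    rw [hF, app_ge _ _ (by omega), app_ge _ _ (by omega), app_ge _ _ (by omega)]
    congr 1
    omega
  have e1 : app (i + 1) a (app j b (app (k + 1) c d)) = ins i (a i) (ins (i + (j + k)) (c k) F) := by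
    rw [hF, app_succ i a, app_succ k c, app_ins, app_ins]
  have e2 : D (app i a (app (j + 1) b (app k c d))) =
      D (ins (i + j) (b j) (ins (n - 2) (d l) F)) := by
    rw [app_succ j b, app_ins, ← hF, Quad_last (i + j) (by omega) (by omega), hFd]
  have e3 : app (i + 1) a (app (j + 1) b (app k c d)) = ins i (a i) (ins (i + j) (b j) F) := by
    rw [hF, app_succ i a, app_succ j b, app_ins]
  have e4 : D (app i a (app j b (app (k + 1) c d))) =
      D (ins (i + (j + k)) (c k) (ins (n - 2) (d l) F)) := by
    rw [app_succ k c, app_ins, app_ins, ← hF, Quad_last (i + (j + k)) (by omega) (by omega), hFd]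
  have e5 : D (app (i + 1) a (app j b (app k c d))) = D (ins i (a i) (ins (n - 2) (d l) F)) := by
    rw [app_succ i a, ← hF, Quad_last i (by omega) (by omega), hFd]
  have e6 : app i a (app (j + 1) b (app (k + 1) c d)) =
      ins (i + j) (b j) (ins (i + (j + k)) (c k) F) := by
    rw [hF, app_succ j b, app_succ k c, app_ins, app_ins, app_ins]
  rw [e1, e2, e3, e4, e5, e6, Quad_two i (i + (j + k)) (by omega) (by omega),
    Quad_two (i + j) (n - 2) (by omega) (by omega), Quad_two i (i + j) (by omega) (by omega),
    Quad_two (i + (j + k)) (n - 2) (by omega) (by omega), Quad_two i (n - 2) (by omega) (by omega),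
    Quad_two (i + j) (i + (j + k)) (by omega) (by omega)]
  have h5 := pluecker (show 2 ≤ n by omega) (a i) (b j) (c k) (d l) F
  linear_combination ((-1) ^ i * (-1) ^ (i + (j + k)) * (-1) ^ (i + j) * (-1) ^ (n - 2)) * h5

/-- Octahedron recurrence. -/
theorem tQuad : S_Quad := by
  intro n a b c d h1 h2
  have key : ∀ s i j k l : ℕ, j + l ≤ s → i + j + k + l = n →
      0 < D (app i a (app j b (app k c d))) := by
    intro s
    induction s with
    | zero =>
      intro i j k l h3 h4
      obtain rfl : j = 0 := by omega
      rw [app_zero]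
      exact h2 i k l (by omega)
    | succ s ih =>
      intro i j k l h3 h4
      rcases j with _ | j
      · rw [app_zero]
        exact h2 i k l (by omega)
      rcases l with _ | l
      · have h5 : D (app i a (app (j + 1) b (app k c d))) = D (app i a (app (j + 1) b c)) := by
          refine D_congr fun t ht => ?_
          rcases lt_or_ge t i with h6 | h6
          · rw [app_lt _ _ h6, app_lt _ _ h6]
          rw [app_ge _ _ h6, app_ge _ _ h6]
          rcases lt_or_ge (t - i) (j + 1) with h7 | h7
          · rw [app_lt _ _ h7, app_lt _ _ h7]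
          rw [app_ge _ _ h7, app_ge _ _ h7, app_lt _ _ (by omega)]
        rw [h5]
        exact h1 i (j + 1) k (by omega)
      · have h5 := Quad_step (i := i) (j := j) (k := k) (l := l) a b c d (by omega)
        have p1 := ih (i + 1) j (k + 1) l (by omega) (by omega)
        have p2 := ih (i + 1) (j + 1) k l (by omega) (by omega)
        have p3 := ih i j (k + 1) (l + 1) (by omega) (by omega)
        have p4 := ih (i + 1) j k (l + 1) (by omega) (by omega)
        have p5 := ih i (j + 1) (k + 1) l (by omega) (by omega)
        by_contra hc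
        have h6 := mul_nonpos_of_nonneg_of_nonpos p1.le (not_lt.1 hc)
        have h7 := mul_pos p2 p3
        have h8 := mul_pos p4 p5
        linarith
  intro i j k l h
  exact key (j + l) i j k l le_rfl h

end Pool.Agent.MPEF.U.S
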