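import Mathlib

/-!
# MP_ef3f0f_gt, Theorem U, order on the frames of `SL_n(ℝ)`, `n` odd: sequences of vectors

`D f` is the determinant of the first `n` vectors of the sequence `f`. Sequences are built from
blocks by `app`, a vector is inserted by `ins`.
-/

set_option autoImplicit false

namespace Pool.Agent.MPEF.U.S

/-- Sequences of vectors. -/
abbrev Sq (n : ℕ) : Type := ℕ → Fin n → ℝ

variable {n : ℕ}

/-- The determinant of the first `n` vectors. -/
noncomputable def D (f : Sq n) : ℝ := Matrix.det (Matrix.of fun s r : Fin n => f s r)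

/-- First `i` vectors of `f`, then `g`. -/
def app (i : ℕ) (f g : Sq n) : Sq n := fun s => if s < i then f s else g (s - i)

/-- The vector `x` inserted at the position `p`. -/
def ins (p : ℕ) (x : Fin n → ℝ) (f : Sq n) : Sq n := fun s =>
  if s < p then f s else if s = p then x else f (s - 1)

theorem D_congr {f g : Sq n} (h : ∀ s < n, f s = g s) : D f = D g := by
  unfold D
  congr 1
  ext s r
  exact congrFun (h s s.2) r

@[simp] theorem app_zero (f g : Sq n) : app 0 f g = g := by
  funext s
  simp [app]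

theorem app_lt {i s : ℕ} (f g : Sq n) (h : s < i) : app i f g s = f s := if_pos h

theorem app_ge {i s : ℕ} (f g : Sq n) (h : i ≤ s) : app i f g s = g (s - i) :=
  if_neg (not_lt.2 h)

theorem ins_lt {p s : ℕ} (x : Fin n → ℝ) (f : Sq n) (h : s < p) : ins p x f s = f s := if_pos h

theorem ins_eq (p : ℕ) (x : Fin n → ℝ) (f : Sq n) : ins p x f p = x := by
  simp [ins]

theorem ins_gt {p s : ℕ} (x : Fin n → ℝ) (f : Sq n) (h : p < s) :
    ins p x f s = f (s - 1) := by
  unfold ins
  rw [if_neg (by omega), if_neg (by omega)]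

theorem ins_zero_succ (x : Fin n → ℝ) (f : Sq n) (s : ℕ) : ins 0 x f (s + 1) = f s := by
  rw [ins_gt _ _ (Nat.succ_pos s)]
  rfl

/-- A block with one more vector. -/
theorem app_succ (i : ℕ) (f g : Sq n) : app (i + 1) f g = ins i (f i) (app i f g) := by
  funext s
  rcases lt_trichotomy s i with h | h | h
  · rw [app_lt _ _ (by omega), ins_lt _ _ h, app_lt _ _ h]
  · rw [h, app_lt _ _ (by omega), ins_eq]
  · rw [app_ge _ _ (by omega), ins_gt _ _ h, app_ge _ _ (by omega)]
    congr 1
    omega

theorem app_ins (i p : ℕ) (x : Fin n → ℝ) (f g : Sq n) :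
    app i f (ins p x g) = ins (i + p) x (app i f g) := by
  funext s
  rcases lt_or_ge s i with h | h
  · rw [app_lt _ _ h, ins_lt _ _ (by omega), app_lt _ _ h]
  rw [app_ge _ _ h]
  rcases lt_trichotomy s (i + p) with h' | h' | h'
  · rw [ins_lt _ _ (by omega), ins_lt _ _ h', app_ge _ _ h]
  · rw [h', ins_eq, show i + p - i = p from by omega, ins_eq]
  · rw [ins_gt _ _ (by omega), ins_gt _ _ h', app_ge _ _ (by omega)]
    congr 1
    omega

theorem app_app (i j : ℕ) (f g h : Sq n) :
    app i f (app j g h) = app (i + j) (app i f g) h := by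
  funext s
  rcases lt_or_ge s i with h1 | h1
  · rw [app_lt _ _ h1, app_lt _ _ (by omega), app_lt _ _ h1]
  rw [app_ge _ _ h1]
  rcases lt_or_ge s (i + j) with h2 | h2
  · rw [app_lt _ _ (by omega), app_lt _ _ h2, app_ge _ _ h1]
  · rw [app_ge _ _ (by omega), app_ge _ _ h2]
    congr 1
    omega

/-- Two equal vectors. -/
theorem D_eq_zero {f : Sq n} {s t : ℕ} (hs : s < n) (ht : t < n) (hst : s ≠ t) (h : f s = f t) :
    D f = 0 := by
  unfold D
  refine Matrix.det_zero_of_row_eq (i := ⟨s, hs⟩) (j := ⟨t, ht⟩) ?_ ?_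
  · intro h1
    exact hst (by simpa using congrArg Fin.val h1)
  · funext r
    exact congrFun h r

/-- Exchange of two neighbours. -/
theorem D_swap {f g : Sq n} {p : ℕ} (hp : p + 1 < n) (h1 : g p = f (p + 1)) (h2 : g (p + 1) = f p)
    (h3 : ∀ s, s ≠ p → s ≠ p + 1 → g s = f s) : D g = - D f := by
  unfold D
  obtain ⟨i, hi⟩ : ∃ i : Fin n, i = ⟨p, by omega⟩ := ⟨_, rfl⟩
  obtain ⟨j, hj⟩ : ∃ j : Fin n, j = ⟨p + 1, hp⟩ := ⟨_, rfl⟩
  have hij : i ≠ j := by
    rw [hi, hj]
    intro h
    have := congrArg Fin.val h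
    simp at this
  have h4 : (Matrix.of fun s r : Fin n => g s r) =
      (Matrix.of fun s r : Fin n => f s r).submatrix (Equiv.swap i j) id := by
    ext s r
    simp only [Matrix.of_apply, Matrix.submatrix_apply, id]
    by_cases hs : s = i
    · rw [hs, Equiv.swap_apply_left, hi, hj]
      exact congrFun h1 r
    · by_cases hs' : s = j
      · rw [hs', Equiv.swap_apply_right, hi, hj]
        exact congrFun h2 r
      · rw [Equiv.swap_apply_of_ne_of_ne hs hs']
        refine congrFun (h3 s ?_ ?_) r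
        · intro h
          exact hs (by rw [hi]; exact Fin.ext h)
        · intro h
          exact hs' (by rw [hj]; exact Fin.ext h)
  rw [h4, Matrix.det_permute, Equiv.Perm.sign_swap hij]
  simp

/-- Moving an inserted vector to the front. -/
theorem D_ins (p : ℕ) (hp : p < n) (x : Fin n → ℝ) (f : Sq n) :
    D (ins p x f) = (-1) ^ p * D (ins 0 x f) := by
  induction p with
  | zero => simp
  | succ p ih =>
    have h1 : D (ins (p + 1) x f) = - D (ins p x f) := by
      refine D_swap hp ?_ ?_ ?_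
      · rw [ins_lt _ _ (by omega), ins_gt _ _ (by omega)]
        congr 1
      · rw [ins_eq, ins_eq]
      · intro s h2 h3
        rcases lt_or_ge s p with h | h
        · rw [ins_lt _ _ (by omega), ins_lt _ _ h]
        · rw [ins_gt _ _ (by omega), ins_gt _ _ (by omega)]
    rw [h1, ih (by omega), pow_succ]
    ring

/-- The same for the second vector. -/
theorem D_ins_ins (p : ℕ) (hp : p + 1 < n) (x y : Fin n → ℝ) (f : Sq n) :
    D (ins 0 x (ins p y f)) = (-1) ^ p * D (ins 0 x (ins 0 y f)) := by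
  induction p with
  | zero => simp
  | succ p ih =>
    have h1 : D (ins 0 x (ins (p + 1) y f)) = - D (ins 0 x (ins p y f)) := by
      refine D_swap (p := p + 1) hp ?_ ?_ ?_
      · rw [ins_zero_succ, ins_zero_succ, ins_lt _ _ (Nat.lt_succ_self p),
          ins_gt _ _ (Nat.lt_succ_self p)]
        rfl
      · rw [ins_zero_succ, ins_zero_succ, ins_eq, ins_eq]
      · intro s h2 h3
        rcases Nat.eq_zero_or_pos s with h | h
        · rw [h, ins_eq, ins_eq]
        rw [ins_gt _ _ h, ins_gt _ _ h]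
        rcases lt_or_ge (s - 1) p with h' | h'
        · rw [ins_lt _ _ (by omega), ins_lt _ _ h']
        · rw [ins_gt _ _ (by omega), ins_gt _ _ (by omega)]
    rw [h1, ih (by omega), pow_succ]
    ring

/-- Cramer's rule. -/
theorem cramer (f : Sq n) (x : Fin n → ℝ) :
    D f • x = ∑ s : Fin n, D (fun t => if t = (s : ℕ) then x else f t) • f s := by
  have h := Matrix.mulVec_cramer (Matrix.of fun s r : Fin n => f s r).transpose x
  rw [Matrix.det_transpose] at h
  rw [D, ← h]
  funext r
  simp only [Matrix.mulVec, dotProduct, Matrix.transpose_apply, Matrix.of_apply,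
    Finset.sum_apply, Pi.smul_apply, smul_eq_mul]
  refine Finset.sum_congr rfl fun s _ => ?_
  rw [mul_comm]
  congr 1
  rw [Matrix.cramer_transpose_apply]
  unfold D
  congr 1
  ext t r
  simp only [Matrix.updateRow_apply, Matrix.of_apply]
  by_cases h1 : t = s
  · simp [h1]
  · rw [if_neg h1, if_neg (fun h2 => h1 (Fin.ext h2))]

/-- The determinant is linear in an inserted vector. -/
theorem D_ins_sum {ι : Type} (S : Finset ι) (c : ι → ℝ) (x : ι → Fin n → ℝ) (p : ℕ) (hp : p < n)
    (f : Sq n) : D (ins p (∑ i ∈ S, c i • x i) f) = ∑ i ∈ S, c i * D (ins p (x i) f) := by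
  have h : ∀ y : Fin n → ℝ, D (ins p y f) =
      Matrix.detRowAlternating.toMultilinearMap.toLinearMap
        (fun s : Fin n => ins p 0 f s) ⟨p, hp⟩ y := by
    intro y
    simp only [MultilinearMap.toLinearMap_apply, AlternatingMap.coe_multilinearMap]
    unfold D
    show Matrix.det _ = Matrix.det _
    congr 1
    ext t r
    simp only [Matrix.of_apply, Function.update_apply]
    by_cases h1 : t = ⟨p, hp⟩
    · rw [if_pos h1, h1]
      exact congrFun (ins_eq p y f) r
    · rw [if_neg h1]
      have h2 : (t : ℕ) ≠ p := fun h2 => h1 (Fin.ext h2)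
      rcases lt_or_gt_of_ne h2 with h3 | h3
      · rw [ins_lt _ _ h3, ins_lt _ _ h3]
      · rw [ins_gt _ _ h3, ins_gt _ _ h3]
  rw [h, map_sum]
  refine Finset.sum_congr rfl fun i _ => ?_
  rw [map_smul, h, smul_eq_mul]

/-- The three-term relation. -/
theorem pluecker (hn : 2 ≤ n) (a b c d : Fin n → ℝ) (f : Sq n) :
    D (ins 0 a (ins 0 c f)) * D (ins 0 b (ins 0 d f)) =
      D (ins 0 a (ins 0 b f)) * D (ins 0 c (ins 0 d f)) +
        D (ins 0 a (ins 0 d f)) * D (ins 0 b (ins 0 c f)) := by
  have hsw : ∀ x y : Fin n → ℝ, D (ins 0 x (ins 0 y f)) = - D (ins 0 y (ins 0 x f)) := by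
    intro x y
    refine D_swap (p := 0) (by omega) ?_ ?_ ?_
    · rw [ins_eq, ins_gt _ _ (by omega)]
      exact (ins_eq 0 x f).symm
    · rw [ins_eq, ins_gt _ _ (by omega)]
      exact ins_eq 0 y f
    · intro s h1 h2
      rw [ins_gt _ _ (by omega), ins_gt _ _ (by omega), ins_gt _ _ (by omega),
        ins_gt _ _ (by omega)]
  have h2 : ∀ y : Fin n → ℝ, D (ins 0 b (ins 0 y f)) = - D (ins 0 y (ins 0 b f)) := hsw b
  obtain ⟨F, hF⟩ : ∃ F : Sq n, F = ins 0 a (ins 0 c f) := ⟨_, rfl⟩
  have h3 := cramer F d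
  have h4 : D F * D (ins 0 d (ins 0 b f)) =
      ∑ s : Fin n, D (fun t => if t = (s : ℕ) then d else F t) * D (ins 0 (F s) (ins 0 b f)) := by
    have h5 := D_ins_sum {0} (fun _ : ℕ => D F) (fun _ => d) 0 (by omega) (ins 0 b f)
    rw [Finset.sum_singleton, Finset.sum_singleton] at h5
    rw [← h5, h3]
    exact D_ins_sum Finset.univ _ _ 0 (by omega) _
  obtain ⟨m, rfl⟩ : ∃ m, n = m + 2 := ⟨n - 2, by omega⟩
  rw [Fin.sum_univ_succ, Fin.sum_univ_succ, Finset.sum_eq_zero, add_zero] at h4
  · have e0 : F ((0 : Fin (m + 2)) : ℕ) = a := by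
      rw [hF]
      exact ins_eq 0 a _
    have e1 : F ((Fin.succ (0 : Fin (m + 1)) : Fin (m + 2)) : ℕ) = c := by
      rw [hF]
      exact ins_gt _ _ (by simp)
    have e2 : D (fun t => if t = ((0 : Fin (m + 2)) : ℕ) then d else F t) =
        D (ins 0 d (ins 0 c f)) := by
      refine D_congr fun s _ => ?_
      by_cases h : s = 0
      · rw [h, ins_eq]
        simp
      · rw [ins_gt _ _ (by omega)]
        simp only [Fin.coe_ofNat_eq_mod, Nat.zero_mod, h, if_false]
        rw [hF, ins_gt _ _ (by omega)]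
    have e3 : D (fun t => if t = ((Fin.succ (0 : Fin (m + 1)) : Fin (m + 2)) : ℕ) then d
        else F t) = D (ins 0 a (ins 0 d f)) := by
      refine D_congr fun s _ => ?_
      have h1 : ((Fin.succ (0 : Fin (m + 1)) : Fin (m + 2)) : ℕ) = 1 := by simp
      rw [h1]
      rcases Nat.lt_trichotomy s 1 with h | h | h
      · have h0 : s = 0 := by omega
        rw [if_neg (by omega), h0, ins_eq, hF, ins_eq]
      · rw [if_pos h, h, ins_gt _ _ (by omega)]
        exact (ins_eq 0 d f).symm
      · rw [if_neg (by omega), hF, ins_gt _ _ (by omega), ins_gt _ _ (by omega),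
          ins_gt _ _ (by omega), ins_gt _ _ (by omega)]
    rw [e0, e1, e2, e3, hF] at h4
    have h6 := hsw d b
    have h7 := hsw d c
    have h8 := hsw c b
    rw [h6, h7, h8] at h4
    linarith
  · intro s _
    have h9 : F ((Fin.succ (Fin.succ s) : Fin (m + 2)) : ℕ) = f s := by
      rw [hF, ins_gt _ _ (by simp), ins_gt _ _ (by simp)]
      congr 1
    rw [h9]
    have h10 : D (ins 0 (f s) (ins 0 b f)) = 0 := by
      refine D_eq_zero (s := 0) (t := s + 2) (by omega) (by omega) (by omega) ?_
      rw [ins_eq, ins_gt _ _ (by omega), ins_gt _ _ (by omega)]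
      congr 1
    rw [h10, mul_zero]

end Pool.Agent.MPEF.U.S
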